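import Pool.Agent.H7.VojtaPosDef

/-! # Abstract infinite descent, exponent `n` (helper34, after helper42)

PROOF. `Pool.Agent.H42M.finite_of_descent` (`Pool/Agent/H42M/Abs.lean`) with 4 replaced by `N`
(`hN : N ≠ 0`), conclusion reduced to the second half. -/

namespace Pool.Agent.S5M

open Pool.Agent.H7.Vojta

theorem odd_multiple {G : Type*} [AddCommGroup G] (G₀ : AddSubgroup G) (N : ℤ) (hN : N ≠ 0)
    (h4 : ∀ T ∈ G₀, N • T = 0) (hdiv : ∀ P : G, ∃ T ∈ G₀, ∃ Q, P + T = Q + Q)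
    {q : G → ℝ} (hq : Para q) (hq0 : ∀ P, 0 ≤ q P) (hfin : ∀ c, {P | q P ≤ c}.Finite) (P : G) :
    ∃ n : ℕ, Odd n ∧ n • P ∈ G₀ := by
  have htr : ∀ P, ∀ T ∈ G₀, q (P + T) = q P := by
    intro P T hT
    have h1 : q (N • (P + T)) = q (N • P) := by
      rw [smul_add, h4 T hT, add_zero]
    rw [hq.zsmul, hq.zsmul] at h1
    have h2 : (N : ℝ) ^ 2 ≠ 0 := pow_ne_zero 2 (Int.cast_ne_zero.mpr hN)
    exact mul_left_cancel₀ h2 h1
  have hdbl : ∀ Q, q (Q + Q) = 4 * q Q := by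
    intro Q
    have h1 := hq.zsmul 2 Q
    rw [two_zsmul] at h1
    rw [h1]; norm_num
  have hstep : ∀ P, ∃ Q, q P = 4 * q Q := by
    intro P
    obtain ⟨T, hT, Q, hQ⟩ := hdiv P
    exact ⟨Q, by rw [← hdbl, ← hQ, htr P T hT]⟩
  have hzero : ∀ P, q P = 0 := by
    intro P
    by_contra hP
    have hP' : 0 < q P := lt_of_le_of_ne (hq0 P) (Ne.symm hP)
    have hsf : {R | q R ≤ q P ∧ 0 < q R}.Finite := (hfin (q P)).subset fun R hR => hR.1
    obtain ⟨R, hR, hmin⟩ := Set.exists_min_image _ q hsf ⟨P, le_rfl, hP'⟩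
    obtain ⟨Q, hQ⟩ := hstep R
    have h1 : 0 < q R := hR.2
    have h2 : q Q < q R := by linarith
    have h3 := hmin Q ⟨by linarith [hR.1], by linarith⟩
    linarith
  have hfG : Finite G := by
    have h1 := hfin 0
    have h2 : {P | q P ≤ 0} = (Set.univ : Set G) := by
      ext P; simp [hzero P]
    rw [h2] at h1
    exact Set.finite_univ_iff.mp h1
  have hsurj : Function.Surjective fun a : G ⧸ G₀ => a + a := by
    intro a
    obtain ⟨P, rfl⟩ := QuotientAddGroup.mk_surjective a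
    obtain ⟨T, hT, Q, hQ⟩ := hdiv P
    refine ⟨(Q : G ⧸ G₀), ?_⟩
    have h1 : ((Q + Q : G) : G ⧸ G₀) = ((P : G) : G ⧸ G₀) := by
      rw [← hQ, QuotientAddGroup.mk_add, (QuotientAddGroup.eq_zero_iff T).mpr hT, add_zero]
    exact h1
  have hinj : Function.Injective fun a : G ⧸ G₀ => a + a := Finite.injective_iff_surjective.mpr hsurj
  set a : G ⧸ G₀ := (P : G ⧸ G₀) with ha
  refine ⟨addOrderOf a, ?_, ?_⟩
  · by_contra hodd
    rw [Nat.not_odd_iff_even] at hodd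
    obtain ⟨m, hm⟩ := hodd
    have hpos : 0 < addOrderOf a := addOrderOf_pos a
    have h1 : m • a + m • a = 0 + 0 := by
      rw [← add_nsmul, ← hm, addOrderOf_nsmul_eq_zero, add_zero]
    have h2 : m • a = 0 := hinj h1
    have h3 := addOrderOf_dvd_of_nsmul_eq_zero h2
    have h4 := Nat.le_of_dvd (by omega) h3
    omega
  · have h1 : addOrderOf a • a = 0 := addOrderOf_nsmul_eq_zero a
    rw [ha, ← QuotientAddGroup.mk_nsmul, QuotientAddGroup.eq_zero_iff] at h1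
    exact h1

end Pool.Agent.S5M
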