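import Mathlib

/-! # Fields containing the square root of 5: definitions (helper34)

`MP_326854_nt`. `F` is a totally real field, `s` an algebraic integer of `F` with `s ^ 2 = 5`. -/

namespace Pool.Agent.S5M

open NumberField

/-- the ideal `(π)` is an odd power of a prime ideal -/
def OddPrime (F : Type*) [Field F] [NumberField F] (π : 𝓞 F) : Prop :=
  ∃ P : Ideal (𝓞 F), P.IsPrime ∧ ∃ k : ℕ, Odd k ∧ Ideal.span {π} = P ^ k

/-- the hypotheses on the field -/
structure HypS (F : Type*) [Field F] [NumberField F] (s : 𝓞 F) : Prop where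
  sq : s ^ 2 = 5
  odd : Odd (classNumber F)
  pos : ∀ u : (𝓞 F)ˣ, (∀ φ : F →+* ℝ, 0 < φ ((u : 𝓞 F) : F)) → IsSquare u
  three : OddPrime F 3
  five : OddPrime F s

/-- the list of values of `j` -/
def Known {F : Type*} [Field F] (s j : F) : Prop :=
  j = 0 ∨ j = 1728 ∨ j = 8000 ∨ j = -32768 ∨ j = 54000 ∨ j = -12288000 ∨
  j = 632000 + 282880 * s ∨ j = 632000 - 282880 * s ∨
  j = -58982400 + 26378240 * s ∨ j = -58982400 - 26378240 * s ∨
  j = (-191025 + 85995 * s) / 2 ∨ j = (-191025 - 85995 * s) / 2 ∨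
  j = (37018076625 + 16554983445 * s) / 2 ∨ j = (37018076625 - 16554983445 * s) / 2 ∨
  j = -327201914880 + 146329141248 * s ∨ j = -327201914880 - 146329141248 * s ∨
  j = -25 / 2 ∨ j = -349938025 / 8 ∨ j = -121945 / 32 ∨ j = 46969655 / 32768 ∨
  j = 1331 / 8 ∨ j = -1680914269 / 32768

lemma HypS.sqF {F : Type*} [Field F] [NumberField F] {s : 𝓞 F} (H : HypS F s) :
    (s : F) ^ 2 = 5 := by
  have h := congrArg (algebraMap (𝓞 F) F) H.sq
  rw [map_pow, map_ofNat] at h
  exact h

lemma HypS.neg {F : Type*} [Field F] [NumberField F] {s : 𝓞 F} (H : HypS F s) :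
    HypS F (-s) where
  sq := by rw [neg_sq, H.sq]
  odd := H.odd
  pos := H.pos
  three := H.three
  five := by
    obtain ⟨P, hP, k, hk, h⟩ := H.five
    refine ⟨P, hP, k, hk, ?_⟩
    rw [← h, Ideal.span_singleton_neg]

end Pool.Agent.S5M
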