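import Mathlib

/-! # Fields containing the square root of 5: the cover X0(15) of X0(5) (helper34) -/

namespace Pool.Agent.S5M

theorem id_b5 {F : Type*} [CommRing F] (x h : F)
    (H : h * ((x + 27) * (x + 3) ^ 3) = x * (h ^ 2 + 10 * h + 5) ^ 3) (N D : F)
    (hN : N = -(h ^ 6 + 24 * h ^ 5 + 198 * h ^ 4 + 619 * h ^ 3 + 495 * h ^ 2 + 9 * h + 200) +
      (h ^ 5 + 20 * h ^ 4 + 140 * h ^ 3 + 400 * h ^ 2 + 517 * h) * x +
      (h ^ 3 + 10 * h ^ 2 + 71 * h) * x ^ 2 + 2 * h * x ^ 3)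
    (hD : D = (h ^ 2 + 10 * h + 5) ^ 2 * (h ^ 2 + 4 * h - 1)) :
    N ^ 4 - 2 * N ^ 3 * D - (36 + 3 * h) * N ^ 2 * D ^ 2 - (88 + 19 * h + h ^ 2) * N * D ^ 3 -
      (64 + 16 * h + h ^ 2) * D ^ 4 = 0 := by
  subst hN hD
  linear_combination
    (16*x^8*h^3 + 32*x^7*h^5 + 320*x^7*h^4 + 1696*x^7*h^3 + 56*x^6*h^7 + 1120*x^6*h^6 +
      9136*x^6*h^5 + 35360*x^6*h^4 + 72152*x^6*h^3 + 56*x^5*h^9 + 1648*x^5*h^8 + 21144*x^5*h^7
      + 152000*x^5*h^6 + 640456*x^5*h^5 + 1466160*x^5*h^4 + 1569448*x^5*h^3 - 4000*x^5*h^2 +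
      49*x^4*h^11 + 1920*x^4*h^10 + 32788*x^4*h^9 + 318776*x^4*h^8 + 1936470*x^4*h^7 +
      7611640*x^4*h^6 + 19219188*x^4*h^5 + 28363080*x^4*h^4 + 18291665*x^4*h^3 -
      283000*x^4*h^2 + 28*x^3*h^13 + 1348*x^3*h^12 + 28920*x^3*h^11 + 365004*x^3*h^10 +
      3001912*x^3*h^9 + 16749416*x^3*h^8 + 63721648*x^3*h^7 + 161977400*x^3*h^6 +
      264142316*x^3*h^5 + 253763860*x^3*h^4 + 104818008*x^3*h^3 - 7050500*x^3*h^2 +
      14*x^2*h^15 + 806*x^2*h^14 + 20728*x^2*h^13 + 314200*x^2*h^12 + 3119140*x^2*h^11 +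
      21312926*x^2*h^10 + 102553576*x^2*h^9 + 349208752*x^2*h^8 + 831149702*x^2*h^7 +
      1337968370*x^2*h^6 + 1377849968*x^2*h^5 + 822749080*x^2*h^4 + 156629288*x^2*h^3 -
      72289750*x^2*h^2 + 250000*x^2*h + 4*x*h^17 + 263*x*h^16 + 7802*x*h^15 + 138093*x*h^14 +
      1623212*x*h^13 + 13325707*x*h^12 + 78105070*x*h^11 + 328124529*x*h^10 + 978770956*x*h^9
      + 2030670693*x*h^8 + 2823389854*x*h^7 + 2396338775*x*h^6 + 817078892*x*h^5 -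
      453768855*x*h^4 - 651035494*x*h^3 - 256887125*x*h^2 + 8875000*x*h + h^19 + 75*h^18 +
      2532*h^17 + 50808*h^16 + 674094*h^15 + 6224802*h^14 + 41029980*h^13 + 194859288*h^12 +
      664844001*h^11 + 1603821616*h^10 + 2639078088*h^9 + 2739421776*h^8 + 1427846088*h^7 -
      171340650*h^6 - 848896584*h^5 - 530468640*h^4 - 48005616*h^3 + 114490125*h^2 +
      64625000*h) * H

end Pool.Agent.S5M
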