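import Pool.Agent.S5M.CoreA
import Pool.Agent.S5M.IdB5

/-! # Fields containing the square root of 5: `b3` and `b5` (helper34)

PROOF. `h ((x + 27) (x + 3)^3) = h j x = x (h^2 + 10 h + 5)^3`. If `h^2 + 10 h + 5 = 0` then `j = 0`;
if `h^2 + 4 h - 1 = 0` then `j = 1728`, since
`(h^2 + 10 h + 5)^3 - 1728 h = (h^2 + 22 h + 125) (h^2 + 4 h - 1)^2`. Otherwise `D ≠ 0` in `id_b5`
and `X = N / D` satisfies the hypothesis of `coreA` (divide `id_b5` by `D ^ 4`). Compute
`j = (h^2 + 10 h + 5)^3 / h`: `h = -8`: `1331/8`; `-25/8`: `46969655/32768`; `-25/2`: `-121945/32`;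
`-10`: `-25/2`; `-40`: `-349938025/8`; `(125 ± 55 s)/2`: `(37018076625 ± 16554983445 s)/2`;
`-125 ∓ 50 s`: `-327201914880 ∓ 146329141248 s`; `-5 ∓ 2 s`: `0`;
`-(25 ± 5 s)/2`: `(-191025 ∓ 85995 s)/2`. -/

namespace Pool.Agent.S5M

open NumberField

variable {F : Type*} [Field F] [NumberField F] [IsTotallyReal F] {s : 𝓞 F}

theorem caseA (H : HypS F s) {j x h : F} (hx : x ≠ 0) (e : j * x = (x + 27) * (x + 3) ^ 3)
    (hh : h ≠ 0) (e' : j * h = (h ^ 2 + 10 * h + 5) ^ 3) : Known (s : F) j := by
  have hs : (s : F) ^ 2 = 5 := H.sqF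
  have hC := fun {X h : F} => @coreA F _ _ _ s H X h
  unfold Known
  generalize (s : F) = s at *
  have key : h * ((x + 27) * (x + 3) ^ 3) = x * (h ^ 2 + 10 * h + 5) ^ 3 := by
    rw [← e, ← e']; ring
  by_cases q1 : h ^ 2 + 10 * h + 5 = 0
  · left
    rw [q1] at e'
    have : j * h = 0 := by rw [e']; ring
    exact (mul_eq_zero.mp this).resolve_right hh
  by_cases q2 : h ^ 2 + 4 * h - 1 = 0
  · right; left
    have h1 : (j - 1728) * h = 0 := by
      linear_combination e' + (h ^ 2 + 22 * h + 125) * (h ^ 2 + 4 * h - 1) * q2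
    have h2 := (mul_eq_zero.mp h1).resolve_right hh
    linear_combination h2
  have hD : (h ^ 2 + 10 * h + 5) ^ 2 * (h ^ 2 + 4 * h - 1) ≠ 0 :=
    mul_ne_zero (pow_ne_zero _ q1) q2
  have h1 := id_b5 x h key _ _ rfl rfl
  generalize (h ^ 2 + 10 * h + 5) ^ 2 * (h ^ 2 + 4 * h - 1) = D at h1 hD
  generalize -(h ^ 6 + 24 * h ^ 5 + 198 * h ^ 4 + 619 * h ^ 3 + 495 * h ^ 2 + 9 * h + 200) +
      (h ^ 5 + 20 * h ^ 4 + 140 * h ^ 3 + 400 * h ^ 2 + 517 * h) * x +
      (h ^ 3 + 10 * h ^ 2 + 71 * h) * x ^ 2 + 2 * h * x ^ 3 = N at h1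
  have h2 : (N / D) ^ 4 - 2 * (N / D) ^ 3 - (36 + 3 * h) * (N / D) ^ 2 -
      (88 + 19 * h + h ^ 2) * (N / D) - (64 + 16 * h + h ^ 2) = 0 := by
    field_simp
    linear_combination h1
  rcases hC hh h2 with h3 | h3 | h3 | h3 | h3 | h3 | h3 | h3 | h3 | h3 | h3 | h3 | h3
  · have h4 : j = 1331 / 8 := by
      subst h3
      linear_combination
        (-1/8) * e' + (0) * hs
    simp only [h4, true_or, or_true]
  · have h4 : j = 46969655 / 32768 := by
      subst h3
      linear_combination
        (-8/25) * e' + (0) * hs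
    simp only [h4, true_or, or_true]
  · have h4 : j = -121945 / 32 := by
      subst h3
      linear_combination
        (-2/25) * e' + (0) * hs
    simp only [h4, true_or, or_true]
  · have h4 : j = -25 / 2 := by
      subst h3
      linear_combination
        (-1/10) * e' + (0) * hs
    simp only [h4, true_or, or_true]
  · have h4 : j = -349938025 / 8 := by
      subst h3
      linear_combination
        (-1/40) * e' + (0) * hs
    simp only [h4, true_or, or_true]
  · have h4 : j = (37018076625 + 16554983445 * s) / 2 := by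
      subst h3
      linear_combination
        (-11/50*s + 1/2) * e' + (-12179481875/128*s^5 - 151689910625/128*s^4 - 376476843875/64*s^3
        - 925920631625/64*s^2 + 121/20*j - 2195914845575/128*s - 720984298925/128) * hs
    simp only [h4, true_or, or_true]
  · have h4 : j = (37018076625 - 16554983445 * s) / 2 := by
      subst h3
      linear_combination
        (11/50*s + 1/2) * e' + (12179481875/128*s^5 - 151689910625/128*s^4 + 376476843875/64*s^3 -
        925920631625/64*s^2 + 121/20*j + 2195914845575/128*s - 720984298925/128) * hs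
    simp only [h4, true_or, or_true]
  · have h4 : j = -327201914880 - 146329141248 * s := by
      subst h3
      linear_combination
        (2/125*s - 1/25) * e' + (250000000*s^5 + 2975000000*s^4 + 13844000000*s^3 +
        29952400000*s^2 + 4/5*j + 20772688000*s - 41651905600) * hs
    simp only [h4, true_or, or_true]
  · have h4 : j = -327201914880 + 146329141248 * s := by
      subst h3
      linear_combination
        (-2/125*s - 1/25) * e' + (-250000000*s^5 + 2975000000*s^4 - 13844000000*s^3 +
        29952400000*s^2 + 4/5*j - 20772688000*s - 41651905600) * hs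
    simp only [h4, true_or, or_true]
  · have h4 : j = 0 := by
      subst h3
      linear_combination
        (2/5*s - 1) * e' + (128/5*s^5 - 64*s^4 - 256*s^3 + 640*s^2 + 4/5*j + 640*s - 1600) * hs
    simp only [h4, true_or, or_true]
  · have h4 : j = 0 := by
      subst h3
      linear_combination
        (-2/5*s - 1) * e' + (-128/5*s^5 - 64*s^4 + 256*s^3 + 640*s^2 + 4/5*j - 640*s - 1600) * hs
    simp only [h4, true_or, or_true]
  · have h4 : j = (-191025 - 85995 * s) / 2 := by
      subst h3
      linear_combination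
        (1/50*s - 1/10) * e' + (625/128*s^5 + 8125/128*s^4 + 12625/64*s^3 - 42875/64*s^2 + 1/20*j
        - 746675/128*s - 2323175/128) * hs
    simp only [h4, true_or, or_true]
  · have h4 : j = (-191025 + 85995 * s) / 2 := by
      subst h3
      linear_combination
        (-1/50*s - 1/10) * e' + (-625/128*s^5 + 8125/128*s^4 - 12625/64*s^3 - 42875/64*s^2 +
        1/20*j + 746675/128*s - 2323175/128) * hs
    simp only [h4, true_or, or_true]

end Pool.Agent.S5M
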