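import Pool.Agent.S5M.CoreB

/-! # Fields containing the square root of 5: `s3` and `b5` (helper34)

PROOF. If `j = 0` done. `v = 3 (r + 1) (r - 3) / r`, `j = v^3`, `v ≠ 0`,
`v^2 + 12 v + 144 = (3 (r^2 + 3) / r)^2`. `w = (h^2 + 10 h + 5) / v`: `w^3 = j h / j = h`, so
`w ≠ 0` and `v w = w^6 + 10 w^3 + 5`. Then (ring)
`(v^2 + 12 v + 144) w^2 = (w^6 + 10 w^3 + 5)^2 + 12 w (w^6 + 10 w^3 + 5) + 144 w^2 =
(w^4 + 2 w^3 - w^2 + 10 w + 25) (w^4 - w^3 + 2 w^2 + w + 1)^2`. The last factor `G` is not 0, since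
otherwise `r^2 + 3 = 0`, impossible in a totally real field. So `y = 3 (r^2 + 3) w / (r G)` is as in
`coreB`. Finally `j = (w^6 + 10 w^3 + 5)^3 / w^3`: `w = -2`: `1331/8`; `w = -5/2`:
`-1680914269/32768`; `w = ± s`: `632000 ± 282880 s`; `w = -(5 ± s)/2`:
`-58982400 ∓ 26378240 s`. -/

namespace Pool.Agent.S5M

open NumberField

variable {F : Type*} [Field F] [NumberField F] [IsTotallyReal F] {s : 𝓞 F}

omit [NumberField F] [IsTotallyReal F] in
/-- the last step: the value of `j` from the values of `w ^ 3` and `w ^ 6 + 10 w ^ 3 + 5` -/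
private lemma jval {j w c a b : F} (hw : w ≠ 0)
    (e : j * w ^ 3 = (w ^ 6 + 10 * w ^ 3 + 5) ^ 3) (h3 : w ^ 3 = a)
    (h6 : a ^ 2 + 10 * a + 5 = b) (hc : c * a = b ^ 3) : j = c := by
  have hw3 : w ^ 3 ≠ 0 := pow_ne_zero 3 hw
  apply mul_right_cancel₀ hw3
  rw [e, show w ^ 6 = (w ^ 3) ^ 2 by ring, h3, h6, hc]

omit [NumberField F] [IsTotallyReal F] in
private lemma jfin {j w t : F} (hw0 : w ≠ 0)
    (e2 : j * w ^ 3 = (w ^ 6 + 10 * w ^ 3 + 5) ^ 3) (hs : t ^ 2 = 5)
    (h : w = -2 ∨ w = -5 / 2 ∨ w = t ∨ w = -t ∨ w = -(5 + t) / 2 ∨ w = -(5 - t) / 2)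
    [CharZero F] : Known t j := by
  unfold Known
  rcases h with g | g | g | g | g | g
  · have : j = 1331 / 8 :=
      jval (a := -8) (b := -11) hw0 e2 (by rw [g]; norm_num) (by norm_num) (by norm_num)
    iterate 20 refine Or.inr ?_
    exact Or.inl this
  · have : j = -1680914269 / 32768 :=
      jval (a := -125 / 8) (b := 5945 / 64) hw0 e2 (by rw [g]; norm_num) (by norm_num)
        (by norm_num)
    iterate 21 refine Or.inr ?_
    exact this
  · have : j = 632000 + 282880 * t :=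
      jval (a := 5 * t) (b := 130 + 50 * t) hw0 e2 (by rw [g]; linear_combination t * hs)
        (by linear_combination 25 * hs)
        (by linear_combination (439400 - 125000 * t) * hs)
    iterate 6 refine Or.inr ?_
    exact Or.inl this
  · have : j = 632000 - 282880 * t :=
      jval (a := -5 * t) (b := 130 - 50 * t) hw0 e2 (by rw [g]; linear_combination -t * hs)
        (by linear_combination 25 * hs)
        (by linear_combination (439400 + 125000 * t) * hs)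
    iterate 7 refine Or.inr ?_
    exact Or.inl this
  · have : j = -58982400 - 26378240 * t :=
      jval (a := -(25 + 10 * t)) (b := 880 + 400 * t) hw0 e2
        (by rw [g]; linear_combination (-t / 8 - 15 / 8) * hs)
        (by linear_combination 100 * hs)
        (by linear_combination (-64000000 * t - 158617600) * hs)
    iterate 9 refine Or.inr ?_
    exact Or.inl this
  · have : j = -58982400 + 26378240 * t :=
      jval (a := -(25 - 10 * t)) (b := 880 - 400 * t) hw0 e2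
        (by rw [g]; linear_combination (t / 8 - 15 / 8) * hs)
        (by linear_combination 100 * hs)
        (by linear_combination (64000000 * t - 158617600) * hs)
    iterate 8 refine Or.inr ?_
    exact Or.inl this

theorem caseB (H : HypS F s) {j r h : F} (hr : r ≠ 0)
    (e : j * r ^ 3 = (3 * (r + 1) * (r - 3)) ^ 3)
    (hh : h ≠ 0) (e' : j * h = (h ^ 2 + 10 * h + 5) ^ 3) : Known (s : F) j := by
  by_cases hj : j = 0
  · exact Or.inl hj
  obtain ⟨φ⟩ := Pool.Agent.H42M.exists_real F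
  have hs := H.sqF
  set v : F := 3 * (r + 1) * (r - 3) / r with hv
  have hvr : v * r = 3 * (r + 1) * (r - 3) := by rw [hv]; field_simp
  have hv3 : v ^ 3 = j := by
    apply mul_right_cancel₀ (pow_ne_zero 3 hr)
    rw [e, ← hvr]; ring
  have hv0 : v ≠ 0 := by
    intro h0
    apply hj
    rw [← hv3, h0]; ring
  set w : F := (h ^ 2 + 10 * h + 5) / v with hw
  have hvw : v * w = h ^ 2 + 10 * h + 5 := by rw [hw]; field_simp
  have hw3 : w ^ 3 = h := by
    apply mul_left_cancel₀ hj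
    rw [e', ← hvw, ← hv3]; ring
  have hw0 : w ≠ 0 := by
    intro h0
    apply hh
    rw [← hw3, h0]; ring
  have e2 : j * w ^ 3 = (w ^ 6 + 10 * w ^ 3 + 5) ^ 3 := by
    rw [show w ^ 6 = (w ^ 3) ^ 2 by ring, hw3, e']
  have hvw2 : v * w = w ^ 6 + 10 * w ^ 3 + 5 := by
    rw [show w ^ 6 = (w ^ 3) ^ 2 by ring, hw3, hvw]
  have hsq : (v ^ 2 + 12 * v + 144) * r ^ 2 = (3 * (r ^ 2 + 3)) ^ 2 := by
    have : (v ^ 2 + 12 * v + 144) * r ^ 2 = (v * r) ^ 2 + 12 * r * (v * r) + 144 * r ^ 2 := by ring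
    rw [this, hvr]; ring
  have hG : (v ^ 2 + 12 * v + 144) * w ^ 2 =
      (w ^ 4 + 2 * w ^ 3 - w ^ 2 + 10 * w + 25) * (w ^ 4 - w ^ 3 + 2 * w ^ 2 + w + 1) ^ 2 := by
    have : (v ^ 2 + 12 * v + 144) * w ^ 2 = (v * w) ^ 2 + 12 * w * (v * w) + 144 * w ^ 2 := by ring
    rw [this, hvw2]; ring
  have hr3 : r ^ 2 + 3 ≠ 0 := by
    intro h0
    have h1 := congrArg φ h0
    rw [map_add, map_pow, map_ofNat, map_zero] at h1
    nlinarith [sq_nonneg (φ r)]
  have hG0 : w ^ 4 - w ^ 3 + 2 * w ^ 2 + w + 1 ≠ 0 := by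
    intro h0
    rw [h0] at hG
    have h1 : (3 * (r ^ 2 + 3)) ^ 2 * w ^ 2 = 0 := by
      rw [← hsq]
      linear_combination r ^ 2 * hG
    have h2 : (3 : F) ≠ 0 := by norm_num
    exact (mul_ne_zero (pow_ne_zero 2 (mul_ne_zero h2 hr3)) (pow_ne_zero 2 hw0)) h1
  have hy : (3 * (r ^ 2 + 3) * w / (r * (w ^ 4 - w ^ 3 + 2 * w ^ 2 + w + 1))) ^ 2 =
      w ^ 4 + 2 * w ^ 3 - w ^ 2 + 10 * w + 25 := by
    rw [div_pow, div_eq_iff (pow_ne_zero 2 (mul_ne_zero hr hG0))]
    have : (3 * (r ^ 2 + 3) * w) ^ 2 = (3 * (r ^ 2 + 3)) ^ 2 * w ^ 2 := by ring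
    rw [this, ← hsq]
    linear_combination r ^ 2 * hG
  exact jfin hw0 e2 hs (coreB H hw0 hy)

end Pool.Agent.S5M
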