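import Pool.Agent.S5M.CoreC
import Pool.Agent.S5M.IdS5

/-! # Fields containing the square root of 5: `b3` and `s5` (helper34)

PROOF. If `j = 0` or `j = 1728` done. Put `c = t^2 + 5 t + 5 ≠ 0`, `n = (t + 5) (t^2 - 5)`,
`T = n / c`. `n^2 + 5 n c + 40 c^2 = (t^2 + 5 t + 10)^3` (ring), so `j = T^3 (T^2 + 5 T + 40)`, and
`j - 1728 = (T - 3) (T^2 + 4 T + 24)^2`. So `T ≠ 0` and `T^2 + 4 T + 24 ≠ 0`, `D ≠ 0` in `id_s4`;
`w = N / D` satisfies `w^4 - 8 w^3 + (18 - 6 T) w^2 + (40 + 11 T - T^2) w + (13 + 11 T + 2 T^2) = 0`;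
multiply by `c ^ 2`: hypothesis of `id_s5`. There `D = (t^2 + 10 t + 5) (t^2 + 5 t + 10)^2`; the
second factor is not 0 (else `j = 0`). If `t^2 + 10 t + 5 = 0` then `j = -32768`
(`j c^5 + 32768 c^5 = ((t + 5) (t^2 - 5) (t^2 + 5 t + 10))^3 + 32768 c^5` is a multiple of
`t^2 + 10 t + 5`). Otherwise `g = N / D` satisfies the hypothesis of `coreC`. `t = -3`:
`j = -32768`; `t = -5` or `t^2 = 5`: `j = 0`. -/

namespace Pool.Agent.S5M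

open NumberField

variable {F : Type*} [Field F] [NumberField F] [IsTotallyReal F] {s : 𝓞 F}

theorem caseC (H : HypS F s) {j x t : F} (hx : x ≠ 0) (e : j * x = (x + 27) * (x + 3) ^ 3)
    (ht : t ^ 2 + 5 * t + 5 ≠ 0)
    (e' : j * (t ^ 2 + 5 * t + 5) ^ 5 = ((t + 5) * (t ^ 2 - 5) * (t ^ 2 + 5 * t + 10)) ^ 3) :
    Known (s : F) j := by
  by_cases hj0 : j = 0
  · exact Or.inl hj0
  by_cases hj1 : j = 1728
  · exact Or.inr (Or.inl hj1)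
  have h3 : j = -32768 → Known (s : F) j := fun h => Or.inr (Or.inr (Or.inr (Or.inl h)))
  have hq10 : t ^ 2 + 5 * t + 10 ≠ 0 := by
    intro h0
    rw [h0, mul_zero, zero_pow (by norm_num)] at e'
    rcases mul_eq_zero.1 e' with h | h
    · exact hj0 h
    · exact ht (pow_eq_zero_iff (by norm_num) |>.1 h)
  obtain ⟨T, hT⟩ : ∃ T : F, T * (t ^ 2 + 5 * t + 5) = (t + 5) * (t ^ 2 - 5) :=
    ⟨(t + 5) * (t ^ 2 - 5) / (t ^ 2 + 5 * t + 5), div_mul_cancel₀ _ ht⟩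
  have hjT : j = T ^ 3 * (T ^ 2 + 5 * T + 40) := by
    have h1 : (j - T ^ 3 * (T ^ 2 + 5 * T + 40)) * (t ^ 2 + 5 * t + 5) ^ 5 = 0 := by
      have h2 : T ^ 3 * (T ^ 2 + 5 * T + 40) * (t ^ 2 + 5 * t + 5) ^ 5
          = (T * (t ^ 2 + 5 * t + 5)) ^ 3 * ((T * (t ^ 2 + 5 * t + 5)) ^ 2
            + 5 * (T * (t ^ 2 + 5 * t + 5)) * (t ^ 2 + 5 * t + 5)
            + 40 * (t ^ 2 + 5 * t + 5) ^ 2) := by ring
      rw [sub_mul, h2, hT, e']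
      ring
    rcases mul_eq_zero.1 h1 with h | h
    · exact sub_eq_zero.1 h
    · exact absurd (pow_eq_zero_iff (by norm_num) |>.1 h) ht
  have hT0 : T ≠ 0 := by
    rintro rfl
    apply hj0
    rw [hjT]
    ring
  have hT1 : T ^ 2 + 4 * T + 24 ≠ 0 := by
    intro h0
    apply hj1
    have h1 : j - 1728 = (T - 3) * (T ^ 2 + 4 * T + 24) ^ 2 := by
      rw [hjT]
      ring
    rw [h0] at h1
    have h2 : (T - 3) * (0 : F) ^ 2 = 0 := by ring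
    rw [h2] at h1
    exact sub_eq_zero.1 h1
  have hD : T * (T ^ 2 + 4 * T + 24) ≠ 0 := mul_ne_zero hT0 hT1
  have H4 := id_s4 x T (by rw [← hjT]; exact e.symm) _ _ rfl rfl
  obtain ⟨N, hN⟩ : ∃ N, N = 2 * x ^ 2 + (T ^ 2 + 4 * T + 60) * x +
    (2 * T ^ 3 + 17 * T ^ 2 + 84 * T + 162) := ⟨_, rfl⟩
  rw [← hN] at H4
  obtain ⟨D, hDe⟩ : ∃ D, D = T * (T ^ 2 + 4 * T + 24) := ⟨_, rfl⟩
  rw [← hDe] at H4 hD
  obtain ⟨w, hw⟩ : ∃ w : F, w * D = N := ⟨N / D, div_mul_cancel₀ _ hD⟩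
  have Hw : w ^ 4 - 8 * w ^ 3 + (18 - 6 * T) * w ^ 2 + (40 + 11 * T - T ^ 2) * w +
      (13 + 11 * T + 2 * T ^ 2) = 0 := by
    have h1 : (w ^ 4 - 8 * w ^ 3 + (18 - 6 * T) * w ^ 2 + (40 + 11 * T - T ^ 2) * w +
      (13 + 11 * T + 2 * T ^ 2)) * D ^ 4 = 0 := by
      rw [← H4, ← hw]
      ring
    rcases mul_eq_zero.1 h1 with h | h
    · exact h
    · exact absurd (pow_eq_zero_iff (by norm_num) |>.1 h) hD
  have Hs : (t ^ 2 + 5 * t + 5) ^ 2 * (w ^ 4 - 8 * w ^ 3 + 18 * w ^ 2 + 40 * w + 13) +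
      (t ^ 2 + 5 * t + 5) * ((t + 5) * (t ^ 2 - 5)) * (-6 * w ^ 2 + 11 * w + 11) +
      ((t + 5) * (t ^ 2 - 5)) ^ 2 * (2 - w) = 0 := by
    rw [← hT]
    have h1 := congrArg (fun z => (t ^ 2 + 5 * t + 5) ^ 2 * z) Hw
    simp only [mul_zero] at h1
    rw [← h1]
    ring
  have H5 := id_s5 w t Hs _ _ rfl rfl
  by_cases hd : t ^ 2 + 10 * t + 5 = 0
  · apply h3
    have h1 : (j + 32768) * (t ^ 2 + 5 * t + 5) ^ 5 = 0 := by
      rw [add_mul, e']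
      have h2 : ((t + 5) * (t ^ 2 - 5) * (t ^ 2 + 5 * t + 10)) ^ 3
          + 32768 * (t ^ 2 + 5 * t + 5) ^ 5 = (t ^ 2 + 10 * t + 5) *
          (17355000 + 61127500 * t + 94960250 * t ^ 2 + 84627125 * t ^ 3 + 47175700 * t ^ 4
            + 16812925 * t ^ 5 + 3734660 * t ^ 6 + 470770 * t ^ 7 + 26768 * t ^ 8
            + 1750 * t ^ 9 + 850 * t ^ 10 + 185 * t ^ 11 + 20 * t ^ 12 + t ^ 13) := by ring
      rw [h2, hd, zero_mul]
    rcases mul_eq_zero.1 h1 with h | h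
    · exact eq_neg_of_add_eq_zero_left h
    · exact absurd (pow_eq_zero_iff (by norm_num) |>.1 h) ht
  · have hD2 : (t ^ 2 + 10 * t + 5) * (t ^ 2 + 5 * t + 10) ^ 2 ≠ 0 :=
      mul_ne_zero hd (pow_ne_zero 2 hq10)
    revert H5
    generalize (t ^ 8 + 11 * t ^ 7 + 25 * t ^ 6 - 35 * t ^ 5 + 70 * t ^ 4 + 1050 * t ^ 3 +
      1250 * t ^ 2 - 2000 * t - 3000) + (6 * t ^ 7 + 55 * t ^ 6 + 125 * t ^ 5 - 30 * t ^ 4 +
      525 * t ^ 3 + 4575 * t ^ 2 + 9000 * t + 5500) * w + (6 * t ^ 6 + 50 * t ^ 5 + 70 * t ^ 4 -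
      450 * t ^ 3 - 1750 * t ^ 2 - 2250 * t - 1000) * w ^ 2 + (-t ^ 6 - 10 * t ^ 5 - 30 * t ^ 4 +
      150 * t ^ 2 + 250 * t + 125) * w ^ 3 = N2
    revert hD2
    generalize (t ^ 2 + 10 * t + 5) * (t ^ 2 + 5 * t + 10) ^ 2 = D2
    intro hD2 H5
    obtain ⟨g, hg⟩ : ∃ g : F, g * D2 = N2 := ⟨N2 / D2, div_mul_cancel₀ _ hD2⟩
    have Hg : g ^ 4 + (2 - 3 * t - t ^ 2) * g ^ 3 + (24 + 18 * t + 3 * t ^ 2) * g ^ 2 +
      (68 + 84 * t + 29 * t ^ 2 + 3 * t ^ 3) * g + (t ^ 4 + 9 * t ^ 3 + 23 * t ^ 2 + 9 * t - 14) =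
        0 := by
      have h1 : (g ^ 4 + (2 - 3 * t - t ^ 2) * g ^ 3 + (24 + 18 * t + 3 * t ^ 2) * g ^ 2 +
        (68 + 84 * t + 29 * t ^ 2 + 3 * t ^ 3) * g +
        (t ^ 4 + 9 * t ^ 3 + 23 * t ^ 2 + 9 * t - 14)) * D2 ^ 4 = 0 := by
        rw [← H5, ← hg]
        ring
      rcases mul_eq_zero.1 h1 with h | h
      · exact h
      · exact absurd (pow_eq_zero_iff (by norm_num) |>.1 h) hD2
    rcases coreC H ht Hg with h | h | h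
    · apply h3
      rw [h] at e'
      linear_combination -e'
    · exfalso
      rw [h] at e'
      have h1 : j * ((-5) ^ 2 + 5 * (-5) + 5) ^ 5 = 0 := by
        rw [e']
        ring
      rcases mul_eq_zero.1 h1 with h2 | h2
      · exact hj0 h2
      · norm_num at h2
    · exfalso
      have h1 : j * (t ^ 2 + 5 * t + 5) ^ 5 = 0 := by
        rw [e', h]
        ring
      rcases mul_eq_zero.1 h1 with h2 | h2
      · exact hj0 h2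
      · exact ht (pow_eq_zero_iff (by norm_num) |>.1 h2)

end Pool.Agent.S5M
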