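import Pool.Agent.S5M.CoreD

/-! # Fields containing the square root of 5: `s3` and `s5` (helper34)

PROOF. If `j = 0` done. `v = 3 (r + 1) (r - 3) / r`, `j = v^3`, `v ≠ 0`,
`v^2 + 12 v + 144 = (3 (r^2 + 3) / r)^2`, `r^2 + 3 ≠ 0` (real embedding).
`c = t^2 + 5 t + 5`, `V = (t + 5) (t^2 - 5) (t^2 + 5 t + 10) ≠ 0`, `v^3 c^5 = V^3`;
`y = c^2 v / V`: `y^3 = c`, `v = V / y^5` (`V y = c^2 v = y^6 v`), and
`q = 3 y^5 (r^2 + 3) / r ≠ 0` satisfies `V^2 + 12 V y^5 + 144 y^10 = q^2`. `coreD`: `t = -3` gives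
`j = -32768`; `t^2 + 10 t + 5 = 0` gives `j = -32768` (`((t + 5) (t^2 - 5) (t^2 + 5 t + 10))^3 +
32768 c^5` is a multiple of `t^2 + 10 t + 5`). -/

namespace Pool.Agent.S5M

open NumberField

variable {F : Type*} [Field F] [NumberField F] [IsTotallyReal F] {s : 𝓞 F}

theorem caseD (H : HypS F s) {j r t : F} (hr : r ≠ 0)
    (e : j * r ^ 3 = (3 * (r + 1) * (r - 3)) ^ 3) (ht : t ^ 2 + 5 * t + 5 ≠ 0)
    (e' : j * (t ^ 2 + 5 * t + 5) ^ 5 = ((t + 5) * (t ^ 2 - 5) * (t ^ 2 + 5 * t + 10)) ^ 3) :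
    Known (s : F) j := by
  by_cases hj : j = 0
  · exact Or.inl hj
  right; right; right; left
  set c : F := t ^ 2 + 5 * t + 5 with hc
  set W : F := (t + 5) * (t ^ 2 - 5) * (t ^ 2 + 5 * t + 10) with hW
  have hW0 : W ≠ 0 := by
    intro h0
    rw [h0] at e'
    exact mul_ne_zero hj (pow_ne_zero 5 ht) (by rw [e']; ring)
  obtain ⟨φ, -⟩ := exists_emb H.sqF (ε := √5) (by norm_num)
  have hr3 : r ^ 2 + 3 ≠ 0 := by
    intro h0
    have h1 := congrArg φ h0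
    rw [map_add, map_pow, map_ofNat, map_zero] at h1
    nlinarith [sq_nonneg (φ r)]
  obtain ⟨v, hv⟩ : ∃ v : F, v * r = 3 * (r + 1) * (r - 3) :=
    ⟨3 * (r + 1) * (r - 3) / r, div_mul_cancel₀ _ hr⟩
  have hvj : v ^ 3 = j := by
    have h1 : v ^ 3 * r ^ 3 = j * r ^ 3 := by rw [← mul_pow, hv, e]
    exact mul_right_cancel₀ (pow_ne_zero 3 hr) h1
  have hv0 : v ≠ 0 := by
    rintro rfl
    exact hj (by rw [← hvj]; ring)
  have hquad : (v ^ 2 + 12 * v + 144) * r ^ 2 = (3 * (r ^ 2 + 3)) ^ 2 := by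
    linear_combination (v * r + 3 * (r + 1) * (r - 3) + 12 * r) * hv
  obtain ⟨y, hy⟩ : ∃ y : F, y * W = c ^ 2 * v := ⟨c ^ 2 * v / W, div_mul_cancel₀ _ hW0⟩
  have hy3 : y ^ 3 = c := by
    have h1 : y ^ 3 * W ^ 3 = c * W ^ 3 := by
      rw [← mul_pow, hy, ← e', mul_pow, hvj]
      ring
    exact mul_right_cancel₀ (pow_ne_zero 3 hW0) h1
  have hy0 : y ≠ 0 := by
    rintro rfl
    exact ht (by rw [← hy3]; ring)
  have hvW : v * y ^ 5 = W := by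
    have h1 : (v * y ^ 5) * W ^ 2 = W * W ^ 2 := by
      have h2 : (v * y ^ 5) * W ^ 2 = v * y ^ 3 * (y * W) ^ 2 := by ring
      rw [h2, hy, hy3]
      have h3 : W * W ^ 2 = W ^ 3 := by ring
      rw [h3, ← e', ← hvj]
      ring
    exact mul_right_cancel₀ (pow_ne_zero 2 hW0) h1
  obtain ⟨q, hq⟩ : ∃ q : F, q * r = 3 * y ^ 5 * (r ^ 2 + 3) :=
    ⟨3 * y ^ 5 * (r ^ 2 + 3) / r, div_mul_cancel₀ _ hr⟩
  have hq0 : q ≠ 0 := by
    rintro rfl
    rw [zero_mul] at hq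
    exact mul_ne_zero (mul_ne_zero three_ne_zero (pow_ne_zero 5 hy0)) hr3 hq.symm
  have e2 : W ^ 2 + 12 * W * y ^ 5 + 144 * y ^ 10 = q ^ 2 := by
    have h1 : (W ^ 2 + 12 * W * y ^ 5 + 144 * y ^ 10) * r ^ 2 = q ^ 2 * r ^ 2 := by
      rw [← mul_pow q r, hq, ← hvW]
      linear_combination y ^ 10 * hquad
    exact mul_right_cancel₀ (pow_ne_zero 2 hr) h1
  rcases coreD H hy0 hq0 hy3 hW e2 with h1 | h1
  · subst h1
    have h2 : c = -1 := by rw [hc]; norm_num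
    have h3 : W = 32 := by rw [hW]; norm_num
    rw [h2, h3] at e'
    linear_combination -e'
  · have h2 : W ^ 3 = -32768 * c ^ 5 := by
      rw [hW, hc]
      linear_combination (t ^ 13 + 20 * t ^ 12 + 185 * t ^ 11 + 850 * t ^ 10 + 1750 * t ^ 9 +
        26768 * t ^ 8 + 470770 * t ^ 7 + 3734660 * t ^ 6 + 16812925 * t ^ 5 + 47175700 * t ^ 4 +
        84627125 * t ^ 3 + 94960250 * t ^ 2 + 61127500 * t + 17355000) * h1
    rw [h2] at e'
    exact mul_right_cancel₀ (pow_ne_zero 5 ht) e'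

end Pool.Agent.S5M
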