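import Mathlib

/-! # Fields containing the square root of 5: the curve X(b3, ns5) (helper34) -/

namespace Pool.Agent.S5M

/-- numerator of z -/
def n1 {F : Type*} [Field F] (x u : F) : F :=
      -x^3*u^10 - 5*x^3*u^9 - 5*x^3*u^8 + 10*x^3*u^7 + 15*x^3*u^6 - 11*x^3*u^5 - 15*x^3*u^4 +
      10*x^3*u^3 + 5*x^3*u^2 - 5*x^3*u + x^3 + 4*x^2*u^11 - 21*x^2*u^10 - 170*x^2*u^9 -
      190*x^2*u^8 + 360*x^2*u^7 + 529*x^2*u^6 - 426*x^2*u^5 - 510*x^2*u^4 + 380*x^2*u^3 +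
      155*x^2*u^2 - 174*x^2*u + 36*x^2 - 40*x*u^11 + 109*x*u^10 - 605*x*u^9 - 2205*x*u^8 +
      1960*x*u^7 + 4700*x*u^6 - 4151*x*u^5 - 3815*x*u^4 + 3660*x*u^3 + 855*x*u^2 - 1215*x*u +
      216*x + 4*u^11 + 4089*u^10 - 12420*u^9 + 9560*u^8 + 5760*u^7 - 13671*u^6 + 9459*u^5 -
      135*u^4 - 4995*u^3 + 3105*u^2 + 3726*u + 1701

/-- numerator of z ^ 2 -/
def n2 {F : Type*} [Field F] (x u : F) : F :=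
      -(2/5)*x^3*u^12 - (12/5)*x^3*u^11 - (23/5)*x^3*u^10 - x^3*u^9 + 7*x^3*u^8 +
      (38/5)*x^3*u^7 - (7/5)*x^3*u^6 - (43/5)*x^3*u^5 - 3*x^3*u^4 + 6*x^3*u^3 + (7/5)*x^3*u^2
      - (13/5)*x^3*u + (3/5)*x^3 - (6/5)*x^2*u^12 - (216/5)*x^2*u^11 - (834/5)*x^2*u^10 -
      108*x^2*u^9 + 321*x^2*u^8 + (1764/5)*x^2*u^7 - (1176/5)*x^2*u^6 - (1644/5)*x^2*u^5 +
      51*x^2*u^4 + 168*x^2*u^3 + (96/5)*x^2*u^2 - (384/5)*x^2*u + (99/5)*x^2 + (258/5)*x*u^12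
      + (1348/5)*x*u^11 - (4383/5)*x*u^10 - 2621*x*u^9 + 2122*x*u^8 + (21973/5)*x*u^7 -
      (23422/5)*x*u^6 - (19553/5)*x*u^5 + 2637*x*u^4 + 1176*x*u^3 + (972/5)*x*u^2 -
      (1998/5)*x*u - (162/5)*x - (26/5)*u^12 - (336/5)*u^11 + (35736/5)*u^10 - 21518*u^9 +
      15816*u^8 + (81894/5)*u^7 - (137871/5)*u^6 + (30726/5)*u^5 + 3321*u^4 + 378*u^3 +
      (23166/5)*u^2 - (19764/5)*u - (11421/5)

/-- numerator of z ^ 3 -/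
def n3 {F : Type*} [Field F] (x u : F) : F :=
      -(4/5)*x^3*u^13 - (19/5)*x^3*u^12 - (6/5)*x^3*u^11 + 15*x^3*u^10 + 4*x^3*u^9 -
      (224/5)*x^3*u^8 - (34/5)*x^3*u^7 + (379/5)*x^3*u^6 - 4*x^3*u^5 - 68*x^3*u^4 +
      (114/5)*x^3*u^3 + (119/5)*x^3*u^2 - (84/5)*x^3*u + 3*x^3 - (72/5)*x^2*u^13 -
      (447/5)*x^2*u^12 - (273/5)*x^2*u^11 + 420*x^2*u^10 + 222*x^2*u^9 - (6882/5)*x^2*u^8 -
      (2067/5)*x^2*u^7 + (12282/5)*x^2*u^6 + 18*x^2*u^5 - 2274*x^2*u^4 + (3627/5)*x^2*u^3 +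
      (3972/5)*x^2*u^2 - (2772/5)*x^2*u + 99*x^2 + (1116/5)*x*u^13 - (249/5)*x*u^12 -
      (9276/5)*x*u^11 + 1035*x*u^10 + 3984*x*u^9 - (50754/5)*x*u^8 - (36939/5)*x*u^7 +
      (85809/5)*x*u^6 - 864*x*u^5 - 15978*x*u^4 + (33444/5)*x*u^3 + (29349/5)*x*u^2 -
      (17739/5)*x*u + 243*x - (112/5)*u^13 - (837/5)*u^12 - (1533/5)*u^11 + 14090*u^10 -
      34188*u^9 + (108003/5)*u^8 + (122643/5)*u^7 - (258003/5)*u^6 + 22923*u^5 + 20196*u^4 -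
      (84483/5)*u^3 - (24138/5)*u^2 + (9963/5)*u + 3159

/-- the denominator -/
def dd {F : Type*} [Field F] (u : F) : F :=
  5 * (28 * u ^ 4 - 34 * u ^ 3 - 63 * u ^ 2 - 36 * u - 27) * (2 * u + 1) ^ 2 *
    (2 * u ^ 2 - 3 * u + 3) ^ 2

theorem id_ns1 {F : Type*} [Field F] [CharZero F] (x u : F)
    (H : (u ^ 2 + u - 1) ^ 5 * ((x + 27) * (x + 3) ^ 3) =
      (u + 1) * (5 * (2 * u + 1) * (2 * u ^ 2 - 3 * u + 3)) ^ 3 * x) : n1 x u * n1 x u = dd u * n2 x u := by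
  rw [n1, n2, dd]
  linear_combination
    (x^2*u^10 + 5*x^2*u^9 + 5*x^2*u^8 - 10*x^2*u^7 - 15*x^2*u^6 + 11*x^2*u^5 + 15*x^2*u^4 -
      10*x^2*u^3 - 5*x^2*u^2 + 5*x^2*u - x^2 - 8*x*u^11 + 6*x*u^10 + 160*x*u^9 + 200*x*u^8 -
      360*x*u^7 - 518*x*u^6 + 456*x*u^5 + 480*x*u^4 - 400*x*u^3 - 130*x*u^2 + 168*x*u - 36*x +
      16*u^12 + 120*u^11 - 463*u^10 - 85*u^9 + 3100*u^8 - 1309*u^7 - 5330*u^6 + 5307*u^5 +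
      3495*u^4 - 4500*u^3 - 396*u^2 + 1080*u - 162) * H

theorem id_ns2 {F : Type*} [Field F] [CharZero F] (x u : F)
    (H : (u ^ 2 + u - 1) ^ 5 * ((x + 27) * (x + 3) ^ 3) =
      (u + 1) * (5 * (2 * u + 1) * (2 * u ^ 2 - 3 * u + 3)) ^ 3 * x) : n1 x u * n2 x u = dd u * n3 x u := by
  rw [n1, n2, n3, dd]
  linear_combination
    ((2/5)*x^2*u^12 + (12/5)*x^2*u^11 + (23/5)*x^2*u^10 + x^2*u^9 - 7*x^2*u^8 -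
      (38/5)*x^2*u^7 + (7/5)*x^2*u^6 + (43/5)*x^2*u^5 + 3*x^2*u^4 - 6*x^2*u^3 - (7/5)*x^2*u^2
      + (13/5)*x^2*u - (3/5)*x^2 - (8/5)*x*u^13 - (32/5)*x*u^12 + (154/5)*x*u^11 +
      (789/5)*x*u^10 + 106*x*u^9 - (1553/5)*x*u^8 - (1682/5)*x*u^7 + (1209/5)*x*u^6 +
      (1634/5)*x*u^5 - 67*x*u^4 - (862/5)*x*u^3 - (33/5)*x*u^2 + (366/5)*x*u - (99/5)*x +
      (344/5)*u^13 - (402/5)*u^12 - 718*u^11 + (3976/5)*u^10 + 3028*u^9 - (9356/5)*u^8 -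
      (18142/5)*u^7 + 4848*u^6 + (18111/5)*u^5 - 2736*u^4 - (7389/5)*u^3 - (108/5)*u^2 + 351*u
      + (324/5)) * H

theorem id_ns3 {F : Type*} [Field F] [CharZero F] (x u : F)
    (H : (u ^ 2 + u - 1) ^ 5 * ((x + 27) * (x + 3) ^ 3) =
      (u + 1) * (5 * (2 * u + 1) * (2 * u ^ 2 - 3 * u + 3)) ^ 3 * x) : n1 x u * n3 x u = dd u * ((3 + 2 * u) * n3 x u -
      (3 * u ^ 2 + 6 * u) * n2 x u - (6 - 5 * u - 6 * u ^ 2) * n1 x u -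
      (u ^ 2 - 3) * dd u) := by
  rw [n1, n2, n3, dd]
  linear_combination
    ((4/5)*x^2*u^13 + (19/5)*x^2*u^12 + (6/5)*x^2*u^11 - 15*x^2*u^10 - 4*x^2*u^9 +
      (224/5)*x^2*u^8 + (34/5)*x^2*u^7 - (379/5)*x^2*u^6 + 4*x^2*u^5 + 68*x^2*u^4 -
      (114/5)*x^2*u^3 - (119/5)*x^2*u^2 + (84/5)*x^2*u - 3*x^2 - (16/5)*x*u^14 + (16/5)*x*u^13
      + (458/5)*x*u^12 + (398/5)*x*u^11 - 449*x*u^10 - (1306/5)*x*u^9 + (7141/5)*x*u^8 +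
      (1818/5)*x*u^7 - (12437/5)*x*u^6 + 150*x*u^5 + (11051/5)*x*u^4 - (4146/5)*x*u^3 -
      (3543/5)*x*u^2 + (2682/5)*x*u - 99*x + (448/5)*u^14 - (2084/5)*u^13 - 609*u^12 +
      (17452/5)*u^11 - 113*u^10 - (42877/5)*u^9 + (62311/5)*u^8 + 10698*u^7 - (111953/5)*u^6 +
      5094*u^5 + (85512/5)*u^4 - (50661/5)*u^3 - 4410*u^2 + (15498/5)*u - 81) * H

end Pool.Agent.S5M
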