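import Pool.Agent.S5M.CoreE
import Pool.Agent.S5M.IdNS

/-! # Fields containing the square root of 5: `b3` and `ns5` (helper34)

PROOF. If `j = 0` or `j = 1728` done. `C = u^2 + u - 1 ≠ 0`. The hypothesis of `id_ns1`, `id_ns2`,
`id_ns3` follows from `e`, `e'` (multiply `e` by `C^5`). `dd u ≠ 0`: `2 u + 1 ≠ 0` and
`2 u^2 - 3 u + 3 ≠ 0` as `j ≠ 0`; `28 u^4 - 34 u^3 - 63 u^2 - 36 u - 27 ≠ 0` as `j ≠ 1728`:
`(u + 1) (5 (2 u + 1) (2 u^2 - 3 u + 3))^3 - 1728 C^5 =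
(8 u^2 - 12 u + 7) (28 u^4 - 34 u^3 - 63 u^2 - 36 u - 27)^2` (ring).
`z = n1 x u / dd u`; then `z^2 = n2 x u / dd u`, `z^3 = n3 x u / dd u` and `z^4` is `1 / dd u` times
the bracket of `id_ns3`: `z` satisfies the equation of `coreE`. `u = 1`: `j = 54000`;
`u = -1`: `j = 0`; `u = -1/2`: `j = 0`; `u = 1/2`: `j = -12288000`. -/

namespace Pool.Agent.S5M

open NumberField

variable {F : Type*} [Field F] [NumberField F] [IsTotallyReal F] {s : 𝓞 F}

theorem caseE (H : HypS F s) {j x u : F} (hx : x ≠ 0) (e : j * x = (x + 27) * (x + 3) ^ 3)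
    (hu : u ^ 2 + u - 1 ≠ 0)
    (e' : j * (u ^ 2 + u - 1) ^ 5 =
      (u + 1) * (5 * (2 * u + 1) * (2 * u ^ 2 - 3 * u + 3)) ^ 3) : Known (s : F) j := by
  have hC5 : (u ^ 2 + u - 1) ^ 5 ≠ 0 := pow_ne_zero 5 hu
  by_cases h0 : j = 0
  · exact Or.inl h0
  by_cases h1 : j = 1728
  · exact Or.inr (Or.inl h1)
  have H0 : (u ^ 2 + u - 1) ^ 5 * ((x + 27) * (x + 3) ^ 3) =
      (u + 1) * (5 * (2 * u + 1) * (2 * u ^ 2 - 3 * u + 3)) ^ 3 * x := by
    rw [← e, ← e']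
    ring
  have hrhs : (u + 1) * (5 * (2 * u + 1) * (2 * u ^ 2 - 3 * u + 3)) ^ 3 ≠ 0 := by
    rw [← e']
    exact mul_ne_zero h0 hC5
  have ha : 2 * u + 1 ≠ 0 := by
    intro h
    apply hrhs
    rw [h]
    ring
  have hb : 2 * u ^ 2 - 3 * u + 3 ≠ 0 := by
    intro h
    apply hrhs
    rw [h]
    ring
  have hq : 28 * u ^ 4 - 34 * u ^ 3 - 63 * u ^ 2 - 36 * u - 27 ≠ 0 := by
    intro h
    apply h1
    have hid : (u + 1) * (5 * (2 * u + 1) * (2 * u ^ 2 - 3 * u + 3)) ^ 3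
        - 1728 * (u ^ 2 + u - 1) ^ 5 = (8 * u ^ 2 - 12 * u + 7) *
          (28 * u ^ 4 - 34 * u ^ 3 - 63 * u ^ 2 - 36 * u - 27) ^ 2 := by
      ring
    rw [h] at hid
    have h2 : (j - 1728) * (u ^ 2 + u - 1) ^ 5 = 0 := by
      linear_combination e' + hid
    rcases mul_eq_zero.mp h2 with h3 | h3
    · linear_combination h3
    · exact absurd h3 hC5
  have h5 : (5 : F) ≠ 0 := by norm_num
  have hd : dd u ≠ 0 := by
    rw [dd]
    exact mul_ne_zero (mul_ne_zero (mul_ne_zero h5 hq) (pow_ne_zero 2 ha)) (pow_ne_zero 2 hb)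
  have i1 := id_ns1 x u H0
  have i2 := id_ns2 x u H0
  have i3 := id_ns3 x u H0
  generalize n1 x u = a1 at i1 i2 i3
  generalize n2 x u = a2 at i1 i2 i3
  generalize n3 x u = a3 at i2 i3
  generalize dd u = d at i1 i2 i3 hd
  have z2 : (a1 / d) ^ 2 = a2 / d := by
    field_simp
    linear_combination i1
  have z3 : (a1 / d) ^ 3 = a3 / d := by
    have : (a1 / d) ^ 3 = (a1 / d) * (a1 / d) ^ 2 := by ring
    rw [this, z2]
    field_simp
    linear_combination i2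
  have z4 : (a1 / d) ^ 4 = (3 + 2 * u) * (a3 / d) - (3 * u ^ 2 + 6 * u) * (a2 / d)
      - (6 - 5 * u - 6 * u ^ 2) * (a1 / d) - (u ^ 2 - 3) := by
    have : (a1 / d) ^ 4 = (a1 / d) * (a1 / d) ^ 3 := by ring
    rw [this, z3]
    field_simp
    linear_combination i3
  have key : (a1 / d) ^ 4 - (3 + 2 * u) * (a1 / d) ^ 3 + (3 * u ^ 2 + 6 * u) * (a1 / d) ^ 2 +
      (6 - 5 * u - 6 * u ^ 2) * (a1 / d) + (u ^ 2 - 3) = 0 := by
    rw [z4, z3, z2]
    ring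
  rcases coreE H hu key with h | h | h | h
  · subst h
    refine Or.inr (Or.inr (Or.inr (Or.inr (Or.inl ?_))))
    linear_combination e'
  · subst h
    refine Or.inl ?_
    linear_combination -e'
  · subst h
    refine Or.inl ?_
    linear_combination (-(4 / 5 : F) ^ 5) * e'
  · subst h
    refine Or.inr (Or.inr (Or.inr (Or.inr (Or.inr (Or.inl ?_)))))
    linear_combination (-(4 : F) ^ 5) * e'

end Pool.Agent.S5M
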