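import Pool.Agent.S5M.CoreF

/-! # Fields containing the square root of 5: `s3` and `ns5` (helper34)

PROOF. If `j = 0` done. `v = 3 (r + 1) (r - 3) / r`, `j = v^3`, `v ≠ 0`,
`v^2 + 12 v + 144 = (3 (r^2 + 3) / r)^2`, `r^2 + 3 ≠ 0` (real embedding). `C = u^2 + u - 1`,
`S = 5 (2 u + 1) (2 u^2 - 3 u + 3) ≠ 0` (as `j ≠ 0`), `w = v C^2 / S`: `w^3 = j C^6 / S^3 =
(u + 1) C = u^3 + 2 u^2 - 1`, and `V = S w = v C^2`, `q = 3 C^2 (r^2 + 3) / r ≠ 0`: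
`V^2 + 12 V C^2 + 144 C^4 = q^2`. `coreF`: `u = -1` gives `j = 0`; the quartic gives `j = 1728`:
`(u + 1) S^3 - 1728 C^5 = (8 u^2 - 12 u + 7) (28 u^4 - 34 u^3 - 63 u^2 - 36 u - 27)^2` (ring). -/

namespace Pool.Agent.S5M

open NumberField

variable {F : Type*} [Field F] [NumberField F] [IsTotallyReal F] {s : 𝓞 F}

theorem caseF (H : HypS F s) {j r u : F} (hr : r ≠ 0)
    (e : j * r ^ 3 = (3 * (r + 1) * (r - 3)) ^ 3) (hu : u ^ 2 + u - 1 ≠ 0)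
    (e' : j * (u ^ 2 + u - 1) ^ 5 =
      (u + 1) * (5 * (2 * u + 1) * (2 * u ^ 2 - 3 * u + 3)) ^ 3) : Known (s : F) j := by
  by_cases hj : j = 0
  · exact Or.inl hj
  have hr3 : r ^ 2 + 3 ≠ 0 := by
    obtain ⟨φ, -⟩ := exists_emb H.sqF (ε := Real.sqrt 5) (Real.sq_sqrt (by norm_num))
    intro h0
    have h1 := congrArg φ h0
    simp only [map_add, map_pow, map_ofNat, map_zero] at h1
    nlinarith [sq_nonneg (φ r)]
  set S : F := 5 * (2 * u + 1) * (2 * u ^ 2 - 3 * u + 3) with hSdef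
  have hS : S ≠ 0 := by
    intro h0
    rw [h0] at e'
    have h1 : j * (u ^ 2 + u - 1) ^ 5 = 0 := by rw [e']; ring
    rcases mul_eq_zero.mp h1 with h2 | h2
    · exact hj h2
    · exact hu (pow_eq_zero_iff (by norm_num) |>.mp h2)
  obtain ⟨v, hv⟩ : ∃ v : F, v = 3 * (r + 1) * (r - 3) / r := ⟨_, rfl⟩
  have hv3 : v ^ 3 = j := by
    rw [hv, div_pow, ← e]
    field_simp
  have hvr : v * r = 3 * (r + 1) * (r - 3) := by
    rw [hv]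
    field_simp
  obtain ⟨w, hw⟩ : ∃ w : F, w = v * (u ^ 2 + u - 1) ^ 2 / S := ⟨_, rfl⟩
  have hSw : S * w = v * (u ^ 2 + u - 1) ^ 2 := by
    rw [hw]
    field_simp
  have hw3 : w ^ 3 = u ^ 3 + 2 * u ^ 2 - 1 := by
    have h1 : S ^ 3 * w ^ 3 = S ^ 3 * (u ^ 3 + 2 * u ^ 2 - 1) := by
      have h2 : S ^ 3 * w ^ 3 = v ^ 3 * (u ^ 2 + u - 1) ^ 6 := by
        rw [← mul_pow, hSw]; ring
      rw [h2, hv3]
      linear_combination (u ^ 2 + u - 1) * e'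
    exact mul_left_cancel₀ (pow_ne_zero 3 hS) h1
  have hq : 3 * (u ^ 2 + u - 1) ^ 2 * (r ^ 2 + 3) / r ≠ 0 := by
    refine div_ne_zero (mul_ne_zero (mul_ne_zero three_ne_zero (pow_ne_zero 2 hu)) hr3) hr
  have hmain : (S * w) ^ 2 + 12 * (S * w) * (u ^ 2 + u - 1) ^ 2 + 144 * (u ^ 2 + u - 1) ^ 4 =
      (3 * (u ^ 2 + u - 1) ^ 2 * (r ^ 2 + 3) / r) ^ 2 := by
    rw [hSw, div_pow, eq_div_iff (pow_ne_zero 2 hr)]
    have h3 : (v * r) ^ 2 + 12 * (v * r) * r + 144 * r ^ 2 = (3 * (r ^ 2 + 3)) ^ 2 := by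
      rw [hvr]; ring
    linear_combination (u ^ 2 + u - 1) ^ 4 * h3
  rcases coreF H hq hw3 hu (by rw [hSdef]) hmain with h1 | h1
  · exfalso
    rw [h1] at e' hu
    have h2 : j * ((-1 : F) ^ 2 + -1 - 1) ^ 5 = 0 := by rw [e']; ring
    rcases mul_eq_zero.mp h2 with h3 | h3
    · exact hj h3
    · exact hu (pow_eq_zero_iff (by norm_num) |>.mp h3)
  · right; left
    have h2 : j * (u ^ 2 + u - 1) ^ 5 = 1728 * (u ^ 2 + u - 1) ^ 5 := by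
      rw [e', hSdef]
      linear_combination (8 * u ^ 2 - 12 * u + 7) *
        (28 * u ^ 4 - 34 * u ^ 3 - 63 * u ^ 2 - 36 * u - 27) * h1
    exact mul_right_cancel₀ (pow_ne_zero 5 hu) h2

end Pool.Agent.S5M
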