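import Mathlib

/-! # Fields containing the square root of 5: real embeddings (helper34)

PROOF. `minpoly ℚ s = X ^ 2 - 5` (monic, `s` is a root, irreducible since 5 is not a rational
square). By `NumberField.Embeddings.range_eval_eq_rootSet_minpoly F ℂ s` the values `ψ s`,
`ψ : F →+* ℂ`, are exactly the complex roots of `X ^ 2 - 5`, so both `√5` and `-√5` occur. As `F`
is totally real every `ψ : F →+* ℂ` has real image (see `Pool/Agent/H42M/Prim.lean`: `emb`,
`emb_coe`, `exists_emb`), which gives the wanted `φ : F →+* ℝ`. Use this for `ε = √5`, `ε = -√5`: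
`ε ^ 2 = 5` forces `ε = √5` or `ε = -√5`. -/

namespace Pool.Agent.S5M

open NumberField Polynomial

private theorem rat_sq_ne_five (b : ℚ) : b ^ 2 ≠ 5 := by
  intro h
  have h5 : Irrational (√((5 : ℕ) : ℝ)) := Nat.Prime.irrational_sqrt (by norm_num)
  apply h5
  refine ⟨|b|, ?_⟩
  have h1 : (b : ℝ) ^ 2 = ((5 : ℕ) : ℝ) := by exact_mod_cast h
  rw [← h1, Real.sqrt_sq_eq_abs]
  push_cast
  rfl

theorem exists_emb {F : Type*} [Field F] [NumberField F] [IsTotallyReal F] {s : F}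
    (hs : s ^ 2 = 5) {ε : ℝ} (hε : ε ^ 2 = 5) : ∃ φ : F →+* ℝ, φ s = ε := by
  have hirr : Irreducible (X ^ 2 - C 5 : ℚ[X]) :=
    (X_pow_sub_C_irreducible_iff_of_prime Nat.prime_two).mpr rat_sq_ne_five
  have hmon : (X ^ 2 - C 5 : ℚ[X]).Monic := monic_X_pow_sub_C 5 (by norm_num)
  have hroot : aeval s (X ^ 2 - C 5 : ℚ[X]) = 0 := by
    simp [hs]
  have hmin : X ^ 2 - C 5 = minpoly ℚ s := minpoly.eq_of_irreducible_of_monic hirr hroot hmon
  have hmem : (ε : ℂ) ∈ (minpoly ℚ s).rootSet ℂ := by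
    rw [← hmin, mem_rootSet]
    refine ⟨hmon.ne_zero, ?_⟩
    have h1 : (ε : ℂ) ^ 2 = 5 := by exact_mod_cast congrArg (fun t : ℝ => (t : ℂ)) hε
    simp [h1]
  rw [← NumberField.Embeddings.range_eval_eq_rootSet_minpoly F ℂ s] at hmem
  obtain ⟨ψ, hψ⟩ := hmem
  have hreal : ComplexEmbedding.IsReal ψ := by
    rw [← InfinitePlace.isReal_mk_iff]
    exact IsTotallyReal.isReal (InfinitePlace.mk ψ)
  refine ⟨hreal.embedding, ?_⟩
  have h2 := ComplexEmbedding.IsReal.coe_embedding_apply hreal s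
  have h3 : ψ s = (ε : ℂ) := hψ
  rw [h3] at h2
  exact_mod_cast h2

end Pool.Agent.S5M
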