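import Pool.Agent.S5M.Basic

/-! # Fields containing the square root of 5: parity at a nonsplit prime (helper34)

PROOF. Copy `Pool.Agent.H42M.parity_fix` (in `Pool/Agent/H42M/Glob.lean`, which treats a natural
number `n` instead of `π`); replace `(n : 𝓞 F)` by `π` everywhere. With `w` the place of `P`:
`v (π) < 1` only for `v = w`, and `w (π) = exp (-k)`, `k` odd.
For `not_isSquare_mul`: `w` exists (`P ≠ ⊥` because `π ≠ 0`), `w (π d) = exp (-k)` with `k` odd is
not a square in `ℤᵐ⁰`, while `w (t * t) = w t * w t` is one. -/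

namespace Pool.Agent.S5M

open NumberField IsDedekindDomain WithZero

variable {F : Type*} [Field F] [NumberField F]

private lemma par_place {π : 𝓞 F} (hπ : π ≠ 0) (h : OddPrime F π) :
    ∃ (w : HeightOneSpectrum (𝓞 F)) (k : ℕ), Odd k ∧
      (∀ v : HeightOneSpectrum (𝓞 F), v.valuation F (π : F) < 1 → v = w) ∧
      w.valuation F (π : F) = exp (-(k : ℤ)) := by
  classical
  obtain ⟨P, hP, k, hk, hspan⟩ := h
  have hspan0 : (Ideal.span {π} : Ideal (𝓞 F)) ≠ ⊥ := by
    rw [Ne, Ideal.span_singleton_eq_bot]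
    exact hπ
  have hPb : P ≠ ⊥ := by
    rintro rfl
    rw [hspan] at hspan0
    apply hspan0
    obtain ⟨m, rfl⟩ := hk
    rw [← Ideal.zero_eq_bot, zero_pow (by omega)]
  set w : HeightOneSpectrum (𝓞 F) := ⟨P, hP, hPb⟩ with hw
  have hval : ∀ v : HeightOneSpectrum (𝓞 F), v.valuation F (π : F) = v.intValuation π := by
    intro v
    exact v.valuation_of_algebraMap (K := F) _
  refine ⟨w, k, hk, ?_, ?_⟩
  · intro v hv
    rw [hval, HeightOneSpectrum.intValuation_lt_one_iff_dvd, hspan] at hv
    have h1 := v.prime.dvd_of_dvd_pow hv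
    have h2 : P = v.asIdeal :=
      (hP.isMaximal hPb).eq_of_le v.isPrime.ne_top (Ideal.dvd_iff_le.mp h1)
    exact HeightOneSpectrum.ext h2.symm
  · rw [hval, w.intValuation_if_neg hπ, hspan]
    congr 2
    rw [Associates.mk_pow, Associates.count_pow (Associates.mk_ne_zero.mpr hPb)
      w.associates_irreducible]
    have h1 : (Associates.mk w.asIdeal).count (Associates.mk P).factors = 1 :=
      Associates.count_self w.associates_irreducible
    rw [h1, mul_one]

theorem parity_el {π : 𝓞 F} (hπ : π ≠ 0) (h : OddPrime F π) {c : F} (hc : c ≠ 0) :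
    ∃ δ : F, (δ = 1 ∨ δ = (π : F)) ∧
      (∀ v : HeightOneSpectrum (𝓞 F), v.valuation F (π : F) < 1 →
        IsSquare (v.valuation F (δ * c))) ∧
      ∀ v : HeightOneSpectrum (𝓞 F), v.valuation F (π : F) = 1 → v.valuation F δ = 1 := by
  obtain ⟨w, k, hk, huniq, hwval⟩ := par_place hπ h
  by_cases h : IsSquare (w.valuation F c)
  · refine ⟨1, Or.inl rfl, fun v hv => ?_, fun v _ => map_one _⟩
    rw [huniq v hv, one_mul]
    exact h
  · refine ⟨(π : F), Or.inr rfl, fun v hv => ?_, fun v hv => hv⟩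
    rw [huniq v hv, map_mul, hwval]
    have hc' : w.valuation F c ≠ 0 := (Valuation.ne_zero_iff _).mpr hc
    rw [← exp_log hc', ← exp_add]
    have h1 : ¬ Even (log (w.valuation F c)) := by
      rintro ⟨m, hm⟩
      apply h
      rw [← exp_log hc', hm, exp_add]
      exact ⟨_, rfl⟩
    have h2 : Even (-(k : ℤ) + log (w.valuation F c)) := by
      rw [Int.not_even_iff_odd] at h1
      have h3 : Odd (-(k : ℤ)) := by
        rw [odd_neg]
        exact_mod_cast hk
      exact h3.add_odd h1
    obtain ⟨m, hm⟩ := h2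
    rw [hm, exp_add]
    exact ⟨_, rfl⟩

theorem not_isSquare_mul {π : 𝓞 F} (hπ : π ≠ 0) (h : OddPrime F π) {d : F}
    (hd : ∀ v : HeightOneSpectrum (𝓞 F), v.valuation F (π : F) < 1 → v.valuation F d = 1) :
    ¬ IsSquare ((π : F) * d) := by
  obtain ⟨w, k, hk, huniq, hwval⟩ := par_place hπ h
  rintro ⟨t, ht⟩
  have hk0 : k ≠ 0 := by
    rintro rfl
    exact absurd hk (by decide)
  have hlt : w.valuation F (π : F) < 1 := by
    rw [hwval, ← exp_zero, exp_lt_exp]
    omega
  have h1 : w.valuation F ((π : F) * d) = w.valuation F t * w.valuation F t := by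
    rw [ht, map_mul]
  rw [map_mul, hwval, hd w hlt, mul_one] at h1
  have hz0 : w.valuation F t ≠ 0 := by
    intro h0
    rw [h0, mul_zero] at h1
    exact exp_ne_zero h1
  rw [← exp_log hz0, ← exp_add, exp_inj] at h1
  obtain ⟨m, hm⟩ := hk
  omega

end Pool.Agent.S5M
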