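import Pool.Agent.H42M.Desc
import Pool.Agent.H42M.Prim
import Pool.Agent.S5M.Par
import Pool.Agent.S5M.Emb

/-! # Fields containing the square root of 5: the class of X + 16 (helper34)

Adaptation of `Pool.Agent.H42M.E2_class` and `E2_X` (`Pool/Agent/H42M/Desc.lean`).
PROOF of `E2_class`. Put `c = X + 16 ≠ 0`. `parity_el` for `π = 3` and for `π = s` gives
`δ₃ ∈ {1, 3}`, `δ₅ ∈ {1, s}`; replace `δ₅ = s` by `τ = (5 + s) / 2 = s * ((1 + s) / 2)`, where
`(1 + s) / 2` is a unit of `𝓞 F` (root of `X ^ 2 - X - 1`), so `v τ = v s` for all `v`. As in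
`class_fifteen` (`Glob.lean`) all valuations of `δ c`, `δ = δ₃ δ₅`, are squares: at places with
`v 3 = v 5 = 1` use `even_two` (`v 2 < 1`) or `even_of_units` exactly as in `H42M.E2_class`
(`v 5 < 1 ↔ v s < 1` because `s ^ 2 = 5`; not both `v 3 < 1` and `v 5 < 1`). `δ` is positive in every
real embedding (`φ s = ± √5`, `5 ± √5 > 0`), and so is `X + 16` (as in `H42M.E2_class`), so
`H42M.isSquare_of_pos H.odd H.pos` applies; a real embedding exists by `exists_emb`.
PROOF of `E2_X`. This is `H42M.E2_X` for `d = ε = 1`; its proof only uses the fields `odd` and `prim`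
of `H42M.Hyp`, and `prim` here is `H42M.isSquare_of_primary H.odd H.pos` (`H42M/Prim.lean`). -/

namespace Pool.Agent.S5M

open NumberField IsDedekindDomain WithZero

lemma classE2_unit {K : Type*} [Field K] (V : Valuation K ℤᵐ⁰) {g : K} (h : g * (g - 1) = 1) :
    V g = 1 := by
  have hm : V g * V (g - 1) = 1 := by rw [← map_mul, h, map_one]
  rcases lt_trichotomy (V g) 1 with h1 | h1 | h1
  · exfalso
    have h2 : V (g - 1) ≤ 1 := (V.map_sub _ _).trans (max_le h1.le (by rw [map_one]))
    have h3 : V g * V (g - 1) < 1 := by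
      calc V g * V (g - 1) ≤ V g * 1 := by gcongr
        _ < 1 := by rwa [mul_one]
    exact absurd hm h3.ne
  · exact h1
  · exfalso
    have h2 : V (g - 1) = V g := by
      rw [sub_eq_add_neg]
      exact H42M.add_right V rfl (by rw [Valuation.map_neg, map_one]; exact h1)
    rw [h2, ← pow_two] at hm
    exact absurd (H42M.eq_one_of_sq hm) h1.ne'

variable {F : Type*} [Field F] [NumberField F] [IsTotallyReal F] {s : 𝓞 F}

theorem E2_class (H : HypS F s) {X Y : F} (hY : Y ≠ 0) (e : Y ^ 2 = X * (X + 1) * (X + 16)) :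
    ∃ δ : F, (δ = 1 ∨ δ = 3 ∨ δ = (5 + (s : F)) / 2 ∨ δ = 3 * ((5 + (s : F)) / 2)) ∧
      IsSquare (δ * (X + 16)) := by
  have hX16 : X + 16 ≠ 0 := by
    intro h; apply hY; rw [h] at e; simpa using e
  have hs2 : (s : F) ^ 2 = 5 := H.sqF
  have hs0 : s ≠ 0 := by
    rintro rfl
    have h1 := H.sq
    norm_num at h1
  have hVs : ∀ v : HeightOneSpectrum (𝓞 F), v.valuation F (s : F) ^ 2 = v.valuation F (5 : F) := by
    intro v
    rw [← map_pow, hs2]
  have hs5 : ∀ v : HeightOneSpectrum (𝓞 F), v.valuation F (5 : F) = 1 →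
      v.valuation F (s : F) = 1 := fun v hv => H42M.eq_one_of_sq (by rw [hVs, hv])
  have hs5' : ∀ v : HeightOneSpectrum (𝓞 F), v.valuation F (5 : F) < 1 →
      v.valuation F (s : F) < 1 := by
    intro v hv
    refine lt_of_le_of_ne (v.valuation_le_one s) ?_
    intro h1
    have h2 := hVs v
    rw [h1, one_pow] at h2
    exact absurd h2.symm hv.ne
  obtain ⟨δ₃, hδ₃, h31, h32⟩ := parity_el (π := (3 : 𝓞 F)) (by norm_num) H.three hX16
  obtain ⟨δ₅, hδ₅, h51, h52⟩ := parity_el hs0 H.five hX16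
  rw [show (((3 : 𝓞 F)) : F) = 3 from map_ofNat (algebraMap (𝓞 F) F) 3] at hδ₃ h31 h32
  -- the totally positive replacement of `δ₅`
  have hτ : (5 + (s : F)) / 2 = (s : F) * ((1 + (s : F)) / 2) := by
    linear_combination (-1 / 2 : F) * hs2
  have hVτ : ∀ v : HeightOneSpectrum (𝓞 F),
      v.valuation F ((5 + (s : F)) / 2) = v.valuation F (s : F) := by
    intro v
    rw [hτ, map_mul, classE2_unit (v.valuation F) (g := (1 + (s : F)) / 2)
      (by linear_combination (1 / 4 : F) * hs2), mul_one]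
  have h5ex : ∃ δ' : F, (δ' = 1 ∨ δ' = (5 + (s : F)) / 2) ∧
      ∀ v : HeightOneSpectrum (𝓞 F), v.valuation F δ' = v.valuation F δ₅ := by
    rcases hδ₅ with rfl | rfl
    · exact ⟨1, Or.inl rfl, fun v => rfl⟩
    · exact ⟨_, Or.inr rfl, hVτ⟩
  obtain ⟨δ', hδ', hVδ'⟩ := h5ex
  have hne : ∀ v : HeightOneSpectrum (𝓞 F), v.valuation F 3 < 1 → v.valuation F 5 = 1 := by
    intro v hv
    by_contra h
    have h5' : v.valuation F (5 : F) < 1 := lt_of_le_of_ne
      (by exact_mod_cast H42M.V_int_le (v.valuation F) 5) h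
    have h1 : v.valuation F ((2 : F) * 3 - 5) < 1 := by
      refine lt_of_le_of_lt (Valuation.map_sub _ _ _) (max_lt ?_ h5')
      rw [map_mul]
      calc v.valuation F 2 * v.valuation F 3 ≤ 1 * v.valuation F 3 := by
            gcongr; exact_mod_cast H42M.V_int_le (v.valuation F) 2
        _ < 1 := by rwa [one_mul]
    norm_num at h1
  have hev : ∀ v : HeightOneSpectrum (𝓞 F), IsSquare (v.valuation F (δ₃ * δ' * (X + 16))) := by
    intro v
    have hconv : v.valuation F (δ₃ * δ' * (X + 16)) = v.valuation F (δ₃ * δ₅ * (X + 16)) := by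
      rw [map_mul, map_mul, hVδ' v, ← map_mul, ← map_mul]
    rw [hconv]
    by_cases hv3 : v.valuation F 3 = 1
    · by_cases hv5 : v.valuation F 5 = 1
      · rw [map_mul, map_mul, h32 v hv3, h52 v (hs5 v hv5), one_mul, one_mul]
        by_cases h2 : v.valuation F (2 : F) < 1
        · exact H42M.even_two _ hY e h2 (H42M.V_two_ne v)
        · have h21 : v.valuation F (2 : F) = 1 :=
            le_antisymm (by exact_mod_cast H42M.V_int_le (v.valuation F) 2) (not_lt.mp h2)
          refine H42M.even_of_units _ (c := X + 16) (d₂ := -16) (d₃ := -15) (y := Y) ?_ ?_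
            (by rw [e]; ring)
          · rw [Valuation.map_neg, H42M.V_sixteen_eq, h21, one_pow]
          · rw [Valuation.map_neg, show (15 : F) = 3 * 5 by norm_num, map_mul, hv3, hv5, one_mul]
      · have hv5' : v.valuation F (5 : F) < 1 := lt_of_le_of_ne
          (by exact_mod_cast H42M.V_int_le (v.valuation F) 5) hv5
        rw [mul_assoc, map_mul, h32 v hv3, one_mul]
        exact h51 v (hs5' v hv5')
    · have hv3' : v.valuation F (3 : F) < 1 := lt_of_le_of_ne
        (by exact_mod_cast H42M.V_int_le (v.valuation F) 3) hv3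
      rw [mul_comm δ₃, mul_assoc, map_mul, h52 v (hs5 v (hne v hv3')), one_mul]
      exact h31 v hv3'
  have h3pos : ∀ φ : F →+* ℝ, 0 < φ δ₃ := by
    intro φ
    rcases hδ₃ with rfl | rfl
    · rw [map_one]; norm_num
    · rw [map_ofNat]; norm_num
  have h5pos : ∀ φ : F →+* ℝ, 0 < φ δ' := by
    intro φ
    rcases hδ' with rfl | rfl
    · rw [map_one]; norm_num
    · have h1 : (φ (s : F)) ^ 2 = 5 := by rw [← map_pow, hs2, map_ofNat]
      rw [map_div₀, map_add, map_ofNat, map_ofNat]
      have h2 : 0 < 5 + φ (s : F) := by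
        by_contra h3
        push Not at h3
        nlinarith
      linarith
  have hδpos : ∀ φ : F →+* ℝ, 0 < φ (δ₃ * δ') := by
    intro φ
    rw [map_mul]
    exact mul_pos (h3pos φ) (h5pos φ)
  refine ⟨δ₃ * δ', ?_, H42M.isSquare_of_pos H.odd H.pos (mul_ne_zero ?_ hX16) hev ?_⟩
  · rcases hδ₃ with rfl | rfl <;> rcases hδ' with rfl | rfl
    · left; ring
    · right; right; left; ring
    · right; left; ring
    · right; right; right; rfl
  · obtain ⟨φ, -⟩ := exists_emb hs2 (ε := Real.sqrt 5) (Real.sq_sqrt (by norm_num))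
    intro h0
    have := hδpos φ
    rw [h0, map_zero] at this
    exact lt_irrefl _ this
  · intro φ
    rw [map_mul]
    refine mul_pos (hδpos φ) ?_
    have h1 : (φ Y) ^ 2 = φ X * (φ X + 1) * (φ X + 16) := by
      rw [← map_pow, e, map_mul, map_mul, map_add, map_add, map_one, map_ofNat]
    have h2 : 0 < (φ Y) ^ 2 := by
      have : φ Y ≠ 0 := (map_ne_zero φ).mpr hY
      positivity
    rw [map_add, map_ofNat]
    by_contra h3
    push Not at h3
    rw [h1] at h2
    nlinarith [mul_nonneg (show 0 ≤ -(φ X) by linarith) (show 0 ≤ -(φ X + 1) by linarith)]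

theorem E2_X (H : HypS F s) {X Y : F} (hY : Y ≠ 0) (e : Y ^ 2 = X * (X + 1) * (X + 16))
    {r : F} (hr : X + 16 = r ^ 2) : IsSquare X := by
  have hX0 : X ≠ 0 := by rintro rfl; apply hY; simpa using e
  have hX1 : X + 1 ≠ 0 := by
    intro h; apply hY; rw [h] at e; simpa using e
  have hX16 : X + 16 ≠ 0 := by
    intro h; apply hY; rw [h] at e; simpa using e
  have hr0 : r ≠ 0 := by
    rintro rfl; apply hX16; rw [hr]; ring
  have hs : X * (X + 1) = (Y / r) ^ 2 := by
    rw [div_pow, e, hr]; field_simp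
  exact H42M.isSquare_of_sqMod H.odd
    (fun u hu => H42M.isSquare_of_primary H.odd H.pos u hu) hX0
    (fun v => H42M.even_X_of_point _ hY e (H42M.V_two_ne v))
    (fun v hv => H42M.sqMod_E2 _ hX0 hX1 hr0 hr hs hv)

end Pool.Agent.S5M
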