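import Pool.Agent.S5M.PtsE1

/-! # Fields containing the square root of 5: `X(b3, b5)` (helper34)

PROOF. As a quadratic in `h` the equation `e` is
`(X + 1) h^2 + (X + 1) (3 X + 16) h = X^4 - 2 X^3 - 36 X^2 - 88 X - 64`, so
`(2 (X + 1) h + (X + 1) (3 X + 16))^2 = X^2 (X + 1) (4 X + 13) (X - 3)`.
`X = 0`: `(h + 8)^2 = 0`. `X = -1`: the equation reads `0 = 9`. Otherwise put
`y = (2 (X + 1) h + (X + 1) (3 X + 16)) / X`: `y^2 = (X + 1) (4 X + 13) (X - 3)` and with
`Z = 4 X + 13`: `(4 y)^2 = Z (Z - 9) (Z - 25)`, so `pts_E1` applies: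
`X = -13/4, -1, 3, -2, 8, (31 ± 15 s)/2, (1 ± 3 s)/2`. Insert in the equation `e`:
`X = -13/4`: `h = -25/8` (double root); `X = 3`: `h = -25/2` (double root); `X = -2`:
`h (h + 10) = 0`; `X = 8`: `h (h + 40) = 0`;
`X = (31 + 15 s)/2`: `(h - (125 + 55 s)/2) (h + 125 + 50 s) = 0`;
`X = (1 + 3 s)/2`: `(h + 5 + 2 s) (h + (25 + 5 s)/2) = 0`; and the same with `-s`. -/

namespace Pool.Agent.S5M

open NumberField

variable {F : Type*} [Field F] [NumberField F] [IsTotallyReal F] {s : 𝓞 F}

theorem coreA (H : HypS F s) {X h : F} (hh : h ≠ 0)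
    (e : X ^ 4 - 2 * X ^ 3 - (36 + 3 * h) * X ^ 2 - (88 + 19 * h + h ^ 2) * X -
      (64 + 16 * h + h ^ 2) = 0) :
    h = -8 ∨ h = -25 / 8 ∨ h = -25 / 2 ∨ h = -10 ∨ h = -40 ∨
      h = (125 + 55 * s) / 2 ∨ h = (125 - 55 * s) / 2 ∨ h = -125 - 50 * s ∨ h = -125 + 50 * s ∨
      h = -5 - 2 * s ∨ h = -5 + 2 * s ∨ h = -(25 + 5 * s) / 2 ∨ h = -(25 - 5 * s) / 2 := by
  have hs : (s : F) ^ 2 = 5 := H.sqF
  have hE := fun {X Y : F} => @pts_E1 F _ _ _ s H X Y
  generalize (s : F) = s at *
  by_cases h0 : X = 0
  · left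
    subst h0
    have h1 : (h + 8) ^ 2 = 0 := by linear_combination -e
    exact eq_neg_of_add_eq_zero_left (pow_eq_zero_iff (two_ne_zero) |>.mp h1)
  by_cases h1 : X = -1
  · exfalso
    subst h1
    have h9 : (9 : F) = 0 := by linear_combination -e
    norm_num at h9
  have hY : (4 * ((2 * (X + 1) * h + (X + 1) * (3 * X + 16)) / X)) ^ 2 =
      (4 * X + 13) * (4 * X + 13 - 9) * (4 * X + 13 - 25) := by
    have h2 : ((2 * (X + 1) * h + (X + 1) * (3 * X + 16))) ^ 2 =
        X ^ 2 * ((X + 1) * (4 * X + 13) * (X - 3)) := by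
      linear_combination (-4 * (X + 1)) * e
    rw [mul_pow, div_pow, h2]
    field_simp
    ring
  have hZ := hE hY
  have zero_or : ∀ {a b : F}, a * b = 0 → a = 0 ∨ b = 0 := fun h => mul_eq_zero.mp h
  rcases hZ with h' | h' | h' | h' | h' | h' | h' | h' | h'
  · have hX : X = -13 / 4 := by linear_combination h' / 4
    subst hX
    have h2 : (h + 25 / 8) ^ 2 = 0 := by linear_combination (4 / 9) * e
    have h3 := (pow_eq_zero_iff (two_ne_zero)).mp h2
    have h4 : h = -25 / 8 := by linear_combination h3
    simp [h4]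
  · exact absurd (by linear_combination h' / 4) h1
  · have hX : X = 3 := by linear_combination h' / 4
    subst hX
    have h2 : (h + 25 / 2) ^ 2 = 0 := by linear_combination (-1 / 4) * e
    have h3 := (pow_eq_zero_iff (two_ne_zero)).mp h2
    have h4 : h = -25 / 2 := by linear_combination h3
    simp [h4]
  · have hX : X = -2 := by linear_combination h' / 4
    subst hX
    have h2 : h * (h + 10) = 0 := by linear_combination e
    rcases zero_or h2 with h3 | h3
    · exact absurd h3 hh
    · have h4 : h = -10 := by linear_combination h3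
      simp [h4]
  · have hX : X = 8 := by linear_combination h' / 4
    subst hX
    have h2 : h * (h + 40) = 0 := by linear_combination (-1 / 9) * e
    rcases zero_or h2 with h3 | h3
    · exact absurd h3 hh
    · have h4 : h = -40 := by linear_combination h3
      simp [h4]
  · have hX : X = (31 + 15 * s) / 2 := by linear_combination h' / 4
    subst hX
    have h2 : (h - (125 + 55 * s) / 2) * (h + 125 + 50 * s) = 0 := by
      linear_combination (-5/6*s + 11/6) * e + (84375/32*s^3 - 1125/8*h*s - 25/4*h^2 +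
        489375/32*s^2 - 3125/8*h + 905625/32*s + 521625/32) * hs
    rcases zero_or h2 with h3 | h3
    · have h4 : h = (125 + 55 * s) / 2 := by linear_combination h3
      simp only [h4, true_or, or_true]
    · have h4 : h = -125 - 50 * s := by linear_combination h3
      simp only [h4, true_or, or_true]
  · have hX : X = (31 - 15 * s) / 2 := by linear_combination h' / 4
    subst hX
    have h2 : (h - (125 - 55 * s) / 2) * (h + 125 - 50 * s) = 0 := by
      linear_combination (5/6*s + 11/6) * e + (-84375/32*s^3 + 1125/8*h*s - 25/4*h^2 +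
        489375/32*s^2 - 3125/8*h - 905625/32*s + 521625/32) * hs
    rcases zero_or h2 with h3 | h3
    · have h4 : h = (125 - 55 * s) / 2 := by linear_combination h3
      simp only [h4, true_or, or_true]
    · have h4 : h = -125 + 50 * s := by linear_combination h3
      simp only [h4, true_or, or_true]
  · have hX : X = (1 + 3 * s) / 2 := by linear_combination h' / 4
    subst hX
    have h2 : (h + 5 + 2 * s) * (h + (25 + 5 * s) / 2) = 0 := by
      linear_combination (-1/6*s + 1/6) * e + (27/32*s^3 - 9/8*h*s - 1/4*h^2 - 27/32*s^2 -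
        35/8*h - 315/32*s - 525/32) * hs
    rcases zero_or h2 with h3 | h3
    · have h4 : h = -5 - 2 * s := by linear_combination h3
      simp only [h4, true_or, or_true]
    · have h4 : h = -(25 + 5 * s) / 2 := by linear_combination h3
      simp only [h4, true_or, or_true]
  · have hX : X = (1 - 3 * s) / 2 := by linear_combination h' / 4
    subst hX
    have h2 : (h + 5 - 2 * s) * (h + (25 - 5 * s) / 2) = 0 := by
      linear_combination (1/6*s + 1/6) * e + (-27/32*s^3 + 9/8*h*s - 1/4*h^2 - 27/32*s^2 -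
        35/8*h + 315/32*s - 525/32) * hs
    rcases zero_or h2 with h3 | h3
    · have h4 : h = -5 + 2 * s := by linear_combination h3
      simp only [h4, true_or, or_true]
    · have h4 : h = -(25 - 5 * s) / 2 := by linear_combination h3
      simp only [h4, true_or, or_true]

end Pool.Agent.S5M
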