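import Pool.Agent.S5M.PtsE2

/-! # Fields containing the square root of 5: `X(s3, b5)` (helper34)

PROOF. `A = y - (w^2 + w - 1)`. From `e`: `2 A w^2 + (2 A - 12) w + A^2 - 2 A - 24 = 0` and so
`(4 A w + 2 A - 12)^2 = (2 A - 12)^2 - 8 A (A^2 - 2 A - 24) = X (X + 1) (X + 16)` with
`X = -2 A - 4`. `pts_E2`: (`A = -(X + 4)/2`; insert in the quadratic)
`X = 0`: `(w + 2)^2 = 0`; `X = -1`: `(w + 5/2)^2 = 0`; `X = -16`: `12 w^2 = 0`, contradiction;
`X = 4`: `w (w + 5/2) = 0`; `X = -4`: `w + 2 = 0`; `X = 14 + 6 s`: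
`(3 + s) w^2 + (5 + s) w - (20 + 10 s) = (3 + s) (w - s) (w + (5 + s)/2) = 0`; `X = -6 + 2 s`:
`(1 - s) w^2 - (5 + s) w - 10 = (1 - s) (w + s) (w + (5 + s)/2) = 0`; and the same with `-s`. -/

namespace Pool.Agent.S5M

open NumberField

variable {F : Type*} [Field F] [NumberField F] [IsTotallyReal F] {s : 𝓞 F}

omit [IsTotallyReal F] in
private lemma coreB_A {t w : F} (ht : t ^ 2 = 5)
    (h : (3 + t) * w ^ 2 + (5 + t) * w - (20 + 10 * t) = 0) : w = t ∨ w = -(5 + t) / 2 := by
  have h3 : (3 + t) ≠ 0 := by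
    intro h0
    have h4 : (4 : F) = 0 := by linear_combination (3 - t) * h0 + ht
    norm_num at h4
  have h5 : (3 + t) * ((w - t) * (w + (5 + t) / 2)) = 0 := by
    linear_combination h - (w + t + 8) / 2 * ht
  rcases mul_eq_zero.mp ((mul_eq_zero.mp h5).resolve_left h3) with h6 | h6
  · exact Or.inl (by linear_combination h6)
  · exact Or.inr (by linear_combination h6)

omit [IsTotallyReal F] in
private lemma coreB_B {t w : F} (ht : t ^ 2 = 5)
    (h : (1 - t) * w ^ 2 - (5 + t) * w - 10 = 0) : w = -t ∨ w = -(5 + t) / 2 := by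
  have h3 : (1 - t) ≠ 0 := by
    intro h0
    have h4 : (4 : F) = 0 := by linear_combination -(1 + t) * h0 - ht
    norm_num at h4
  have h5 : (1 - t) * ((w + t) * (w + (5 + t) / 2)) = 0 := by
    linear_combination h - (3 * w + t + 4) / 2 * ht
  rcases mul_eq_zero.mp ((mul_eq_zero.mp h5).resolve_left h3) with h6 | h6
  · exact Or.inl (by linear_combination h6)
  · exact Or.inr (by linear_combination h6)

theorem coreB (H : HypS F s) {w y : F} (hw : w ≠ 0)
    (e : y ^ 2 = w ^ 4 + 2 * w ^ 3 - w ^ 2 + 10 * w + 25) :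
    w = -2 ∨ w = -5 / 2 ∨ w = s ∨ w = -s ∨ w = -(5 + s) / 2 ∨ w = -(5 - s) / 2 := by
  have hs := H.sqF
  have hs' : (-(s : F)) ^ 2 = 5 := by rw [neg_sq, hs]
  obtain ⟨A, hA⟩ : ∃ A : F, A = y - (w ^ 2 + w - 1) := ⟨_, rfl⟩
  have hq : 2 * A * w ^ 2 + (2 * A - 12) * w + A ^ 2 - 2 * A - 24 = 0 := by
    rw [hA]
    linear_combination e
  have hE : (4 * A * w + 2 * A - 12) ^ 2 =
      (-2 * A - 4) * ((-2 * A - 4) + 1) * ((-2 * A - 4) + 16) := by
    linear_combination 8 * A * hq
  rcases pts_E2 H hE with h | h | h | h | h | h | h | h | h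
  · -- X = 0
    have hA' : A = -2 := by linear_combination (-1 / 2 : F) * h
    rw [hA'] at hq
    have h1 : (w + 2) ^ 2 = 0 := by linear_combination (-1 / 4 : F) * hq
    have h2 := pow_eq_zero_iff two_ne_zero |>.mp h1
    exact Or.inl (by linear_combination h2)
  · -- X = -1
    have hA' : A = -3 / 2 := by linear_combination (-1 / 2 : F) * h
    rw [hA'] at hq
    have h1 : (w + 5 / 2) ^ 2 = 0 := by linear_combination (-1 / 3 : F) * hq
    have h2 := pow_eq_zero_iff two_ne_zero |>.mp h1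
    exact Or.inr (Or.inl (by linear_combination h2))
  · -- X = -16
    exfalso
    have hA' : A = 6 := by linear_combination (-1 / 2 : F) * h
    rw [hA'] at hq
    have h1 : w ^ 2 = 0 := by linear_combination (1 / 12 : F) * hq
    exact hw (pow_eq_zero_iff two_ne_zero |>.mp h1)
  · -- X = 4
    have hA' : A = -4 := by linear_combination (-1 / 2 : F) * h
    rw [hA'] at hq
    have h1 : w * (w + 5 / 2) = 0 := by linear_combination (-1 / 8 : F) * hq
    have h2 := (mul_eq_zero.mp h1).resolve_left hw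
    exact Or.inr (Or.inl (by linear_combination h2))
  · -- X = -4
    have hA' : A = 0 := by linear_combination (-1 / 2 : F) * h
    rw [hA'] at hq
    exact Or.inl (by linear_combination (-1 / 12 : F) * hq)
  · -- X = 14 + 6 s
    have hA' : A = -9 - 3 * s := by linear_combination (-1 / 2 : F) * h
    rw [hA'] at hq
    rcases coreB_A hs (w := w) (by linear_combination (-1 / 6 : F) * hq + (3 / 2 : F) * hs)
      with h1 | h1
    · exact Or.inr (Or.inr (Or.inl h1))
    · exact Or.inr (Or.inr (Or.inr (Or.inr (Or.inl h1))))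
  · -- X = 14 - 6 s
    have hA' : A = -9 + 3 * s := by linear_combination (-1 / 2 : F) * h
    rw [hA'] at hq
    rcases coreB_A hs' (w := w) (by linear_combination (-1 / 6 : F) * hq + (3 / 2 : F) * hs)
      with h1 | h1
    · exact Or.inr (Or.inr (Or.inr (Or.inl h1)))
    · exact Or.inr (Or.inr (Or.inr (Or.inr (Or.inr (by rw [h1]; ring)))))
  · -- X = -6 + 2 s
    have hA' : A = 1 - s := by linear_combination (-1 / 2 : F) * h
    rw [hA'] at hq
    rcases coreB_B hs (w := w) (by linear_combination (1 / 2 : F) * hq - (1 / 2 : F) * hs)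
      with h1 | h1
    · exact Or.inr (Or.inr (Or.inr (Or.inl h1)))
    · exact Or.inr (Or.inr (Or.inr (Or.inr (Or.inl h1))))
  · -- X = -6 - 2 s
    have hA' : A = 1 + s := by linear_combination (-1 / 2 : F) * h
    rw [hA'] at hq
    rcases coreB_B hs' (w := w) (by linear_combination (1 / 2 : F) * hq - (1 / 2 : F) * hs)
      with h1 | h1
    · exact Or.inr (Or.inr (Or.inl (by rw [h1]; ring)))
    · exact Or.inr (Or.inr (Or.inr (Or.inr (Or.inr (by rw [h1]; ring)))))

end Pool.Agent.S5M
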