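import Pool.Agent.S5M.Par

/-! # Fields containing the square root of 5: nonsquares, by parity (helper34)

PROOF. `not_isSquare_mul` with `π = 3` and `d = 1, 7, 19, 43, (5 + s) / 2, (5 - s) / 2`
(`3 * 7 = 21`, `3 * 19 = 57`, `3 * 43 = 129`): if `v 3 < 1` then `v n = 1` for integers `n` prime
to 3 (Bezout), and `(5 + s) / 2`, `(5 - s) / 2` are algebraic integers (roots of `X ^ 2 - 5 X + 5`)
with product 5, so both have valuation 1 when `v 5 = 1`. With `π = s` and
`d = 22 s - 42` resp. `-(22 s) ... `: `110 - 42 s = s * (22 * s - 42)` and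
`110 + 42 s = s * (22 * s + 42)` (use `s ^ 2 = 5`); if `v s < 1` then `v 42 = 1` (as `v 5 < 1` and
42, 5 are coprime) so `v (22 s ∓ 42) = 1`. -/

namespace Pool.Agent.S5M

open NumberField

variable {F : Type*} [Field F] [NumberField F] {s : 𝓞 F}

private lemma val_one_of_bezout {π d a b : 𝓞 F} (h : π * a + d * b = 1)
    (v : IsDedekindDomain.HeightOneSpectrum (𝓞 F)) (hv : v.valuation F (π : F) < 1) :
    v.valuation F (d : F) = 1 := by
  have hle : ∀ c : 𝓞 F, v.valuation F (c : F) ≤ 1 := fun c => v.valuation_le_one c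
  refine le_antisymm (hle d) ?_
  by_contra hlt
  push Not at hlt
  have h1 : ((π * a + d * b : 𝓞 F) : F) = 1 := by rw [h]; simp
  have h2 : v.valuation F ((π : F) * a + (d : F) * b) < 1 := by
    refine (Valuation.map_add_lt _ ?_ ?_)
    · rw [map_mul]
      exact mul_lt_one_of_lt_of_le hv (hle a)
    · rw [map_mul]
      exact mul_lt_one_of_lt_of_le hlt (hle b)
  have h3 : (π : F) * a + (d : F) * b = 1 := by
    rw [← h1]
    push_cast
    ring
  rw [h3, map_one] at h2
  exact lt_irrefl _ h2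

private lemma nsq_of_bezout {π d a b : 𝓞 F} (hπ : π ≠ 0) (hP : OddPrime F π)
    (h : π * a + d * b = 1) : ¬ IsSquare ((π : F) * (d : F)) :=
  not_isSquare_mul hπ hP fun v hv => val_one_of_bezout h v hv

omit [NumberField F] in
private lemma c3 : ((3 : 𝓞 F) : F) = 3 := map_ofNat (algebraMap (𝓞 F) F) 3

theorem nsq_3 (H : HypS F s) : ¬ IsSquare (3 : F) := by
  have h := nsq_of_bezout (F := F) (π := 3) (d := 1) (a := 0) (b := 1) (by norm_num) H.three
    (by ring)
  have e1 : ((1 : 𝓞 F) : F) = 1 := map_one (algebraMap (𝓞 F) F)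
  rwa [c3, e1, mul_one] at h

theorem nsq_21 (H : HypS F s) : ¬ IsSquare (21 : F) := by
  have h := nsq_of_bezout (F := F) (π := 3) (d := 7) (a := -2) (b := 1) (by norm_num) H.three
    (by ring)
  have e1 : ((7 : 𝓞 F) : F) = 7 := map_ofNat (algebraMap (𝓞 F) F) 7
  have e2 : (3 : F) * 7 = 21 := by norm_num
  rwa [c3, e1, e2] at h

theorem nsq_57 (H : HypS F s) : ¬ IsSquare (57 : F) := by
  have h := nsq_of_bezout (F := F) (π := 3) (d := 19) (a := -6) (b := 1) (by norm_num) H.three
    (by ring)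
  have e1 : ((19 : 𝓞 F) : F) = 19 := map_ofNat (algebraMap (𝓞 F) F) 19
  have e2 : (3 : F) * 19 = 57 := by norm_num
  rwa [c3, e1, e2] at h

theorem nsq_129 (H : HypS F s) : ¬ IsSquare (129 : F) := by
  have h := nsq_of_bezout (F := F) (π := 3) (d := 43) (a := -14) (b := 1) (by norm_num) H.three
    (by ring)
  have e1 : ((43 : 𝓞 F) : F) = 43 := map_ofNat (algebraMap (𝓞 F) F) 43
  have e2 : (3 : F) * 43 = 129 := by norm_num
  rwa [c3, e1, e2] at h

theorem nsq_tau (H : HypS F s) : ¬ IsSquare (3 * ((5 + (s : F)) / 2)) := by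
  have hs := H.sqF
  have h0 : ((5 + (s : F)) / 2) ^ 2 - 5 * ((5 + (s : F)) / 2) + 5 = 0 := by
    field_simp
    linear_combination hs
  have hint : IsIntegral ℤ ((5 + (s : F)) / 2) := by
    refine ⟨Polynomial.X ^ 2 - Polynomial.C 5 * Polynomial.X + Polynomial.C 5, ?_, ?_⟩
    · monicity!
    · simp only [Polynomial.eval₂_add, Polynomial.eval₂_sub, Polynomial.eval₂_mul,
        Polynomial.eval₂_pow, Polynomial.eval₂_X, Polynomial.eval₂_C]
      simpa using h0
  obtain ⟨τ, hτ⟩ : ∃ τ : 𝓞 F, (τ : F) = (5 + (s : F)) / 2 := ⟨⟨_, hint⟩, rfl⟩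
  have hτ2 : τ ^ 2 - 5 * τ + 5 = 0 := by
    apply FaithfulSMul.algebraMap_injective (𝓞 F) F
    rw [map_add, map_sub, map_mul, map_pow, map_ofNat, map_zero]
    rw [← hτ] at h0
    exact h0
  have h := nsq_of_bezout (F := F) (π := 3) (d := τ) (a := 2) (b := -(5 - τ)) (by norm_num)
    H.three (by linear_combination hτ2)
  rwa [c3, hτ] at h

theorem nsq_110 (H : HypS F s) : ¬ IsSquare (110 - 42 * (s : F)) := by
  have hs := H.sqF
  have hs0 : s ≠ 0 := by
    intro h0
    have := H.sq
    rw [h0] at this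
    norm_num at this
  have h := nsq_of_bezout (F := F) (π := s) (d := 22 * s - 42) (a := 17 * s - 44) (b := 2) hs0
    H.five (by linear_combination 17 * H.sq)
  have e1 : ((22 * s - 42 : 𝓞 F) : F) = 22 * (s : F) - 42 := by
    have := map_sub (algebraMap (𝓞 F) F) (22 * s) 42
    rw [map_mul, map_ofNat, map_ofNat] at this
    exact this
  have e : (s : F) * (22 * (s : F) - 42) = 110 - 42 * (s : F) := by
    linear_combination 22 * hs
  rwa [e1, e] at h

end Pool.Agent.S5M
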