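import Pool.Agent.S5M.Basic

/-! # Fields containing the square root of 5: nonsquares, by splitting of 3 (helper34)

PROOF. Let `n ∈ {10, 85, 37}` (`n ≡ 1` mod 3, no perfect square) and suppose `a ^ 2 = n`, `a : F`.
`a` is an algebraic integer and `(3) = P ^ k`. Not both of `a - 1`, `a + 1` are in `P`, and
`(a - 1) (a + 1) = n - 1` is in `P ^ k`, so (after changing the sign of `a`) `a = 1 + 3 β` for an
algebraic integer `β`. It satisfies `β ^ 2 + (2 / 3) β - (n - 1) / 9 = 0` and `β ∉ ℚ`, so this is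
its minimal polynomial over ℚ, which must have integer coefficients: contradiction,
`2 / 3` is not an integer. -/

namespace Pool.Agent.S5M

open NumberField

variable {F : Type*} [Field F] [NumberField F]

open Polynomial in
theorem SqD_minpoly (n : ℕ) (hn : ¬ IsSquare (n : ℚ)) (b : 𝓞 F)
    (hb : (1 + 3 * (b : F)) ^ 2 = n) : False := by
  have hint : IsIntegral ℤ (b : F) := b.2
  have hintQ : IsIntegral ℚ (b : F) := hint.tower_top
  set q : ℚ[X] := X ^ 2 + C (2 / 3 : ℚ) * X + C ((1 - n) / 9 : ℚ) with hq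
  have hdeg : (X ^ 2 + C (2 / 3 : ℚ) * X + C ((1 - n) / 9 : ℚ) : ℚ[X]).natDegree = 2 := by
    compute_degree!
  have hqm : q.Monic := by
    rw [hq]
    unfold Polynomial.Monic Polynomial.leadingCoeff
    rw [hdeg]
    simp [coeff_X]
  have hroot : aeval (b : F) q = 0 := by
    rw [hq]
    simp only [map_add, map_mul, map_pow, aeval_X, aeval_C]
    simp only [map_div₀, map_sub, map_one, map_ofNat, map_natCast]
    linear_combination (1 / 9) * hb
  have hdvd : minpoly ℚ (b : F) ∣ q := minpoly.dvd ℚ _ hroot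
  have hmm : (minpoly ℚ (b : F)).Monic := minpoly.monic hintQ
  have hdle : (minpoly ℚ (b : F)).natDegree ≤ 2 := by
    rw [← hdeg]
    exact natDegree_le_of_dvd hdvd hqm.ne_zero
  have hd1 : (minpoly ℚ (b : F)).natDegree ≠ 1 := by
    intro h1
    obtain ⟨r, hr⟩ := minpoly.mem_range_of_degree_eq_one ℚ (b : F)
      (by rw [degree_eq_natDegree hmm.ne_zero, h1]; rfl)
    apply hn
    refine ⟨1 + 3 * r, ?_⟩
    have h2 : algebraMap ℚ F (n : ℚ) = algebraMap ℚ F ((1 + 3 * r) * (1 + 3 * r)) := by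
      rw [map_mul, map_add, map_mul, hr, map_natCast, map_one, map_ofNat, ← hb]
      ring
    exact (algebraMap ℚ F).injective h2
  have hd0 : 0 < (minpoly ℚ (b : F)).natDegree := minpoly.natDegree_pos hintQ
  have hd2 : (minpoly ℚ (b : F)).natDegree = 2 := by omega
  have heq : q = minpoly ℚ (b : F) := by
    refine (eq_of_monic_of_dvd_of_natDegree_le hmm hqm hdvd ?_)
    rw [hd2]
    exact le_of_eq hdeg
  have hZ := minpoly.isIntegrallyClosed_eq_field_fractions' ℚ hint
  have hc : q.coeff 1 = (minpoly ℤ (b : F)).coeff 1 := by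
    rw [heq, hZ, coeff_map]
    simp
  have hc1 : q.coeff 1 = 2 / 3 := by
    rw [hq]
    simp [coeff_X, coeff_C]
  rw [hc1] at hc
  have h3 : (2 : ℚ) = (3 * (minpoly ℤ (b : F)).coeff 1 : ℤ) := by
    push_cast
    rw [← hc]
    norm_num
  have h4 : (2 : ℤ) = 3 * (minpoly ℤ (b : F)).coeff 1 := by exact_mod_cast h3
  omega

theorem SqD_general (n m : ℕ) (hnm : n = 1 + 3 * m) (hn : ¬ IsSquare (n : ℚ))
    (h : OddPrime F 3) : ¬ IsSquare (n : F) := by
  rintro ⟨a, ha⟩
  obtain ⟨P, hP, k, hk, hPk⟩ := h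
  have hai : IsIntegral ℤ a := by
    refine IsIntegral.of_pow (n := 2) (by norm_num) ?_
    rw [pow_two, ← ha]
    exact isIntegral_natCast n
  obtain ⟨α, rfl⟩ : ∃ α : 𝓞 F, (α : F) = a := ⟨⟨a, hai⟩, rfl⟩
  have hα : α * α = n := by
    apply RingOfIntegers.ext
    have : ((α * α : 𝓞 F) : F) = (α : F) * (α : F) := map_mul _ _ _
    rw [this, ← ha]
    exact (map_natCast (algebraMap (𝓞 F) F) n).symm
  have hprod : (α - 1) * (α + 1) ∈ P ^ k := by
    rw [← hPk, Ideal.mem_span_singleton]
    refine ⟨(m : 𝓞 F), ?_⟩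
    have : (α - 1) * (α + 1) = α * α - 1 := by ring
    rw [this, hα, hnm]
    push_cast
    ring
  have hk0 : k ≠ 0 := by
    rintro rfl
    simp at hk
  have h3P : (3 : 𝓞 F) ∈ P := by
    have : (3 : 𝓞 F) ∈ P ^ k := by
      rw [← hPk]
      exact Ideal.mem_span_singleton_self 3
    exact Ideal.pow_le_self hk0 this
  have := hP
  rcases Ideal.IsPrime.mul_mem_pow P hprod with h1 | h1
  · -- `α - 1 ∈ P`
    have h2 : α + 1 ∉ P := by
      intro h2
      have h5 : (2 : 𝓞 F) ∈ P := by
        have := P.sub_mem h2 h1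
        have e : α + 1 - (α - 1) = 2 := by ring
        rwa [e] at this
      have h6 : (1 : 𝓞 F) ∈ P := by
        have := P.sub_mem h3P h5
        have e : (3 : 𝓞 F) - 2 = 1 := by norm_num
        rwa [e] at this
      exact hP.ne_top ((Ideal.eq_top_iff_one P).2 h6)
    have hprod' : (α + 1) * (α - 1) ∈ P ^ k := by rwa [mul_comm]
    rcases Ideal.IsPrime.mul_mem_pow P hprod' with h3 | h3
    · exact h2 h3
    · rw [← hPk, Ideal.mem_span_singleton] at h3
      obtain ⟨β, hβ⟩ := h3
      refine SqD_minpoly n hn β ?_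
      have e : (1 + 3 * β) * (1 + 3 * β) = (n : 𝓞 F) := by
        rw [← hβ, ← hα]; ring
      have e' := congrArg (algebraMap (𝓞 F) F) e
      rw [map_mul, map_add, map_mul, map_one, map_ofNat, map_natCast] at e'
      rw [← e', pow_two]
  · rw [← hPk, Ideal.mem_span_singleton] at h1
    obtain ⟨β, hβ⟩ := h1
    refine SqD_minpoly n hn (-β) ?_
    have e : (1 + 3 * (-β)) * (1 + 3 * (-β)) = (n : 𝓞 F) := by
      have : 3 * (-β) = - (α + 1) := by rw [hβ]; ring
      rw [this, ← hα]; ring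
    have e' := congrArg (algebraMap (𝓞 F) F) e
    rw [map_mul, map_add, map_mul, map_one, map_ofNat, map_natCast] at e'
    rw [← e', pow_two]

theorem nsq_10 (h : OddPrime F 3) : ¬ IsSquare (10 : F) := by
  have h1 := SqD_general 10 3 (by norm_num) ?_ h
  · exact_mod_cast h1
  · rw [Rat.isSquare_natCast_iff]
    rintro ⟨r, hr⟩
    have : r ≤ 3 := by nlinarith
    interval_cases r <;> omega

theorem nsq_85 (h : OddPrime F 3) : ¬ IsSquare (85 : F) := by
  have h1 := SqD_general 85 28 (by norm_num) ?_ h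
  · exact_mod_cast h1
  · rw [Rat.isSquare_natCast_iff]
    rintro ⟨r, hr⟩
    have : r ≤ 9 := by nlinarith
    interval_cases r <;> omega

theorem nsq_37 (h : OddPrime F 3) : ¬ IsSquare (37 : F) := by
  have h1 := SqD_general 37 12 (by norm_num) ?_ h
  · exact_mod_cast h1
  · rw [Rat.isSquare_natCast_iff]
    rintro ⟨r, hr⟩
    have : r ≤ 6 := by nlinarith
    interval_cases r <;> omega

end Pool.Agent.S5M
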