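import Pool.Agent.S5M.PtsE2
import Pool.Agent.S5M.Nonsq
import Pool.Agent.S5M.SqD
import Pool.Agent.S5M.Emb

/-! # Fields containing the square root of 5: `X(b3, s5)` (helper34)

PROOF. Suppose `t ≠ -3`. Put `A = 2 t^2 + (3 g + 9) t + (2 g + 1) (g + 5)`. Then (ring)
`A^2 - (g - 1) (g + 3) (4 g - 3) (t + 3)^2 = 4 * (left side of e) = 0`. Put `c = -A / (t + 3)`:
`c^2 = (g - 1) (g + 3) (4 g - 3)`, `A + c (t + 3) = 0`. With `X = 4 g - 4`:
`(4 c)^2 = X (X + 1) (X + 16)`, so `pts_E2`: `g = 1, 3/4, -3, 2, 0, (9 ± 3 s)/2, (-1 ± s)/2`.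
`g = 1`: `c = 0`, `(t + 3)^2 = 0`, contradiction. `g = 3/4`: `c = 0`, `16 t^2 + 90 t + 115 = 0`,
`(16 t + 45)^2 = 185 = 37 s^2`: contradiction to `nsq_37`. `g = -3`: `c = 0`, `t^2 = 5`.
`g = 2`: `c = ± 5`: `(t + 5)^2 = 0` or `t^2 + 5 t + 10 = 0` (impossible in a real embedding).
`g = 0`: `c = ± 3`: `t^2 + 6 t + 7 = 0`, `(t + 3)^2 = 2`, `(s (t + 3))^2 = 10`: `nsq_10`; or
`t^2 + 3 t - 2 = 0`, `(2 t + 3)^2 = 17`, `(s (2 t + 3))^2 = 85`: `nsq_85`.
`g = (9 + 3 s)/2`: `c = ± (45 + 21 s)/2`: `2 t^2 + (45 + 15 s) t + (185 + 75 s) = 0`, discriminant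
`1670 + 750 s`, negative in an embedding with `s ↦ -√5` (`exists_emb`); or
`2 t^2 - 6 s t + (50 + 12 s) = 0`, discriminant `-220 - 96 s`, negative in an embedding with
`s ↦ √5`. `g = (-1 + s)/2`: `c = ± (3 s - 5)/2`: `2 t^2 + (5 + 3 s) t + (9 s - 5) = 0`, discriminant
`110 - 42 s`: contradiction to `nsq_110`; or `t^2 + 5 t + 5 = 0`, contradiction. The same with
`-s` (`H.neg`). Suggestion: a lemma for a given `s' : F` with `s' ^ 2 = 5`,
`¬ IsSquare (110 - 42 * s')` that treats `g = (9 + 3 s')/2` and `g = (-1 + s')/2`. -/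

namespace Pool.Agent.S5M

open NumberField

variable {F : Type*} [Field F] [NumberField F] [IsTotallyReal F] {s : 𝓞 F}

omit [NumberField F] [IsTotallyReal F] in
private lemma noReal (φ : F →+* ℝ) {a b : F} (h : a ^ 2 = b) (hb : φ b < 0) : False := by
  have h1 := congrArg φ h
  rw [map_pow] at h1
  nlinarith [sq_nonneg (φ a)]

private lemma sqrt5_lt : (2.23 : ℝ) < √5 := by
  rw [Real.lt_sqrt (by norm_num)]
  norm_num

omit [NumberField F] [IsTotallyReal F] in
private lemma pm {c d : F} (h : c ^ 2 = d ^ 2) : c = d ∨ c = -d := sq_eq_sq_iff_eq_or_eq_neg.mp h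

/-- the points with irrational `g` -/
private lemma aux {r : F} (hr : r ^ 2 = 5) (h110 : ¬ IsSquare (110 - 42 * r)) {g t c : F}
    (ht : t ^ 2 + 5 * t + 5 ≠ 0)
    (hc : c ^ 2 = (g - 1) * (g + 3) * (4 * g - 3))
    (hA : 2 * t ^ 2 + (3 * g + 9) * t + (2 * g + 1) * (g + 5) + c * (t + 3) = 0)
    (hg : g = (9 + 3 * r) / 2 ∨ g = (-1 + r) / 2) : False := by
  rcases hg with hg | hg
  · have h1 : c ^ 2 = ((45 + 21 * r) / 2) ^ 2 := by
      rw [hc, hg]
      field_simp
      linear_combination (180 + 108 * r) * hr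
    rcases pm h1 with h2 | h2
    · obtain ⟨φ, hφ⟩ := exists_emb hr (ε := -√5) (by
        rw [neg_sq]; exact Real.sq_sqrt (by norm_num))
      refine noReal φ (a := 4 * t + 45 + 15 * r) (b := 1670 + 750 * r) ?_ ?_
      · rw [hg, h2] at hA
        have h3 : (4 * t + 45 + 15 * r) ^ 2 - (1670 + 750 * r) =
            8 * (2 * t ^ 2 + (45 + 15 * r) * t + (185 + 75 * r)) + 225 * (r ^ 2 - 5) := by ring
        have h4 : 2 * t ^ 2 + (45 + 15 * r) * t + (185 + 75 * r) = 0 := by
          linear_combination hA - 9 / 2 * hr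
        rw [h4, hr] at h3
        linear_combination h3
      · rw [map_add, map_mul, map_ofNat, map_ofNat, hφ]
        nlinarith [sqrt5_lt]
    · obtain ⟨φ, hφ⟩ := exists_emb hr (ε := √5) (Real.sq_sqrt (by norm_num))
      refine noReal φ (a := 4 * t - 6 * r) (b := -220 - 96 * r) ?_ ?_
      · rw [hg, h2] at hA
        have h4 : 2 * t ^ 2 - 6 * r * t + (50 + 12 * r) = 0 := by
          linear_combination hA - 9 / 2 * hr
        linear_combination 8 * h4 + 36 * hr
      · rw [map_sub, map_mul, map_neg, map_ofNat, map_ofNat, hφ]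
        nlinarith [sqrt5_lt]
  · have h1 : c ^ 2 = ((3 * r - 5) / 2) ^ 2 := by
      rw [hc, hg]
      field_simp
      linear_combination (4 * r - 20) * hr
    rcases pm h1 with h2 | h2
    · apply h110
      refine ⟨4 * t + 5 + 3 * r, ?_⟩
      rw [hg, h2] at hA
      have h4 : 2 * t ^ 2 + (5 + 3 * r) * t + (9 * r - 5) = 0 := by
        linear_combination hA - 1 / 2 * hr
      linear_combination -8 * h4 - 9 * hr
    · apply ht
      rw [hg, h2] at hA
      have h2' : (2 : F) ≠ 0 := by norm_num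
      apply mul_left_cancel₀ h2'
      linear_combination hA - 1 / 2 * hr

theorem coreC (H : HypS F s) {g t : F} (ht : t ^ 2 + 5 * t + 5 ≠ 0)
    (e : g ^ 4 + (2 - 3 * t - t ^ 2) * g ^ 3 + (24 + 18 * t + 3 * t ^ 2) * g ^ 2 +
      (68 + 84 * t + 29 * t ^ 2 + 3 * t ^ 3) * g + (t ^ 4 + 9 * t ^ 3 + 23 * t ^ 2 + 9 * t - 14) =
        0) : t = -3 ∨ t = -5 ∨ t ^ 2 = 5 := by
  classical
  by_cases ht3 : t = -3
  · exact Or.inl ht3
  right
  have hs := H.sqF
  have ht3' : t + 3 ≠ 0 := fun h => ht3 (by linear_combination h)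
  obtain ⟨φ⟩ := Pool.Agent.H42M.exists_real F
  set A : F := 2 * t ^ 2 + (3 * g + 9) * t + (2 * g + 1) * (g + 5) with hAdef
  set c : F := -A / (t + 3) with hcdef
  have hA : A + c * (t + 3) = 0 := by
    rw [hcdef]
    field_simp
    ring
  have hc : c ^ 2 = (g - 1) * (g + 3) * (4 * g - 3) := by
    have h1 : (t + 3) ^ 2 ≠ 0 := pow_ne_zero 2 ht3'
    apply mul_left_cancel₀ h1
    have h2 : (t + 3) ^ 2 * c ^ 2 = A ^ 2 := by
      have : c * (t + 3) = -A := by linear_combination hA
      linear_combination (c * (t + 3) - A) * this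
    rw [h2, hAdef]
    linear_combination 4 * e
  have hA' : 2 * t ^ 2 + (3 * g + 9) * t + (2 * g + 1) * (g + 5) + c * (t + 3) = 0 := hA
  have hp : (4 * c) ^ 2 = (4 * g - 4) * (4 * g - 4 + 1) * (4 * g - 4 + 16) := by
    linear_combination 16 * hc
  have hgen : ∀ {d : F}, c ^ 2 = d ^ 2 → c = d ∨ c = -d := fun h => pm h
  have h110 := nsq_110 H
  have h110' : ¬ IsSquare (110 - 42 * (-(s : F))) := by
    have h := nsq_110 H.neg
    have e1 : (((-s : 𝓞 F)) : F) = -(s : F) := map_neg (algebraMap (𝓞 F) F) s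
    rwa [e1] at h
  rcases pts_E2 H hp with h | h | h | h | h | h | h | h | h
  · -- g = 1
    exfalso
    have hg : g = 1 := by linear_combination h / 4
    have hc0 : c = 0 := by
      rw [hg] at hc
      have : c ^ 2 = 0 := by rw [hc]; ring
      exact pow_eq_zero_iff two_ne_zero |>.mp this
    rw [hg, hc0] at hA'
    have h2' : (2 : F) ≠ 0 := by norm_num
    have h5 : (t + 3) ^ 2 = 0 := by
      apply mul_left_cancel₀ h2'
      linear_combination hA'
    exact ht3' (pow_eq_zero_iff two_ne_zero |>.mp h5)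
  · -- g = 3/4
    exfalso
    have hg : g = 3 / 4 := by linear_combination h / 4
    have hc0 : c = 0 := by
      rw [hg] at hc
      have : c ^ 2 = 0 := by rw [hc]; ring
      exact pow_eq_zero_iff two_ne_zero |>.mp this
    rw [hg, hc0] at hA'
    have h5 : (16 * t + 45) ^ 2 = 185 := by linear_combination 128 * hA'
    have hs0 : (s : F) ≠ 0 := by
      intro h0
      rw [h0] at hs
      norm_num at hs
    apply nsq_37 H.three
    refine ⟨(16 * t + 45) / s, ?_⟩
    rw [div_mul_div_comm, ← pow_two, ← pow_two, h5, hs]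
    norm_num
  · -- g = -3
    right
    have hg : g = -3 := by linear_combination h / 4
    have hc0 : c = 0 := by
      rw [hg] at hc
      have : c ^ 2 = 0 := by rw [hc]; ring
      exact pow_eq_zero_iff two_ne_zero |>.mp this
    rw [hg, hc0] at hA'
    linear_combination hA' / 2
  · -- g = 2
    have hg : g = 2 := by linear_combination h / 4
    rw [hg] at hc hA'
    rcases pm (c := c) (d := 5) (by rw [hc]; ring) with h6 | h6
    · left
      rw [h6] at hA'
      have h5 : (t + 5) ^ 2 = 0 := by linear_combination hA' / 2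
      have := pow_eq_zero_iff two_ne_zero |>.mp h5
      linear_combination this
    · exfalso
      rw [h6] at hA'
      refine noReal φ (a := 2 * t + 5) (b := -15) ?_ ?_
      · linear_combination 2 * hA'
      · rw [map_neg, map_ofNat]; norm_num
  · -- g = 0
    exfalso
    have hg : g = 0 := by linear_combination h / 4
    rw [hg] at hc hA'
    rcases pm (c := c) (d := 3) (by rw [hc]; ring) with h6 | h6
    · rw [h6] at hA'
      have h5 : (t + 3) ^ 2 = 2 := by linear_combination hA' / 2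
      apply nsq_10 H.three
      refine ⟨s * (t + 3), ?_⟩
      linear_combination -hs * (t + 3) ^ 2 - 5 * h5
    · rw [h6] at hA'
      have h5 : (2 * t + 3) ^ 2 = 17 := by linear_combination 2 * hA'
      apply nsq_85 H.three
      refine ⟨s * (2 * t + 3), ?_⟩
      linear_combination -hs * (2 * t + 3) ^ 2 - 5 * h5
  · exact (aux hs h110 ht hc hA' (Or.inl (by linear_combination h / 4))).elim
  · exact (aux (r := -(s : F)) (by rw [neg_sq]; exact hs) h110' ht hc hA'
      (Or.inl (by linear_combination h / 4))).elim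
  · exact (aux hs h110 ht hc hA' (Or.inr (by linear_combination h / 4))).elim
  · exact (aux (r := -(s : F)) (by rw [neg_sq]; exact hs) h110' ht hc hA'
      (Or.inr (by linear_combination h / 4))).elim

end Pool.Agent.S5M
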