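import Mathlib

/-! # Fields containing the square root of 5: the curves X(s3, s5) and X(s3, ns5) (helper34) -/

namespace Pool.Agent.S5M

theorem id_D {F : Type*} [CommRing F] (y t : F) (H : y ^ 3 = t ^ 2 + 5 * t + 5) (V N P : F)
    (hV : V = (t + 5) * (t ^ 2 - 5) * (t ^ 2 + 5 * t + 10)) (hN : N = y ^ 2 + y - 3 * t - 5)
    (hP : P = 100 + 25 * y - 10 * y ^ 2 + 40 * y ^ 3 - 11 * y ^ 4 - 2 * y ^ 5 + y ^ 6 + y ^ 7 +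
      t * (25 + 15 * y - 10 * y ^ 2 + 7 * y ^ 3 - 2 * y ^ 5 + y ^ 6)) :
    (4 * N ^ 3 + 3 * N ^ 2 * (y - 1) ^ 2 + 20 * (y - 1) ^ 6) * P ^ 2 =
      27 * (y - 1) ^ 6 * (V ^ 2 + 12 * V * y ^ 5 + 144 * y ^ 10) := by
  subst hV hN hP
  linear_combination
    (27*y^17 + 54*y^16*t - 54*y^16 + 27*y^15*t^2 - 324*y^15*t - 81*y^15 - 297*y^14*t^2 +
      405*y^14*t - 297*y^14 + 1107*y^13*t^2 - 54*y^13*t - 648*y^13 + 27*y^12*t^4 +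
      243*y^12*t^3 - 1242*y^12*t^2 + 4293*y^12*t + 16173*y^12 - 162*y^11*t^4 - 918*y^11*t^3 -
      27*y^11*t^2 - 18684*y^11*t - 47601*y^11 + 405*y^10*t^4 + 513*y^10*t^3 - 6291*y^10*t^2 +
      16578*y^10*t + 34236*y^10 + 27*y^9*t^6 + 270*y^9*t^5 + 135*y^9*t^4 + 2322*y^9*t^3 +
      23085*y^9*t^2 + 40338*y^9*t + 127008*y^9 - 162*y^8*t^6 - 1620*y^8*t^5 - 3645*y^8*t^4 -
      1539*y^8*t^3 - 6858*y^8*t^2 - 120069*y^8*t - 433431*y^8 + 405*y^7*t^6 + 4050*y^7*t^5 +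
      9963*y^7*t^4 - 8640*y^7*t^3 - 82188*y^7*t^2 + 60750*y^7*t + 538110*y^7 + 27*y^6*t^8 +
      405*y^6*t^7 + 1620*y^6*t^6 - 2025*y^6*t^5 - 26298*y^6*t^4 - 31347*y^6*t^3 +
      192537*y^6*t^2 + 461430*y^6*t + 327780*y^6 - 162*y^5*t^8 - 2430*y^5*t^7 - 12555*y^5*t^6
      - 16200*y^5*t^5 + 87075*y^5*t^4 + 318654*y^5*t^3 - 44550*y^5*t^2 - 1625130*y^5*t -
      2557575*y^5 + 405*y^4*t^8 + 6075*y^4*t^7 + 32238*y^4*t^6 + 49005*y^4*t^5 -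
      196425*y^4*t^4 - 869670*y^4*t^3 - 547020*y^4*t^2 + 2590650*y^4*t + 4962600*y^4 -
      540*y^3*t^8 - 8100*y^3*t^7 - 43173*y^3*t^6 - 67230*y^3*t^5 + 257175*y^3*t^4 +
      1219050*y^3*t^3 + 1196100*y^3*t^2 - 2509650*y^3*t - 5589000*y^3 + 405*y^2*t^8 +
      6075*y^2*t^7 + 32400*y^2*t^6 + 50625*y^2*t^5 - 192375*y^2*t^4 - 940950*y^2*t^3 -
      1065825*y^2*t^2 + 1393875*y^2*t + 3655125*y^2 - 162*y*t^8 - 2430*y*t^7 - 12960*y*t^6 -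
      20250*y*t^5 + 76950*y*t^4 + 445500*y*t^3 + 708750*y*t^2 - 384750*y*t - 1620000*y +
      27*t^8 + 405*t^7 + 2160*t^6 + 3375*t^5 - 12825*t^4 + 6750*t^3 + 472500*t^2 + 1350000*t +
      1147500) * H

theorem id_F {F : Type*} [CommRing F] (w u : F) (H : w ^ 3 = u ^ 3 + 2 * u ^ 2 - 1)
    (A B C V P M : F)
    (hA : A = 3 - 5 * u - w - 2 * u ^ 2 - 2 * u * w - 2 * w ^ 2) (hB : B = w - u - 1)
    (hC : C = u ^ 2 + u - 1) (hV : V = 5 * (2 * u + 1) * (2 * u ^ 2 - 3 * u + 3) * w)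
    (hP : P = (-6 + 2 * u + 16 * u ^ 2 - 2 * u ^ 3 - 6 * u ^ 4) +
      w * (-12 - 17 * u - 9 * u ^ 2 + 4 * u ^ 3) + w ^ 2 * (3 - 13 * u + 2 * u ^ 2))
    (hM : M = (24 + 8 * u + 4 * u ^ 2 + 8 * u ^ 3) + w * (24 + 32 * u + 8 * u ^ 2) +
      w ^ 2 * (48 + 8 * u)) :
    P ^ 2 * (A ^ 4 + 310 * A ^ 2 * B ^ 2 + 25 * B ^ 4) =
      M ^ 2 * (V ^ 2 + 12 * V * C ^ 2 + 144 * C ^ 4) := by
  subst hA hB hC hV hP hM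
  linear_combination
    (64*w^9*u^4 - 832*w^9*u^3 + 2896*w^9*u^2 - 1248*w^9*u + 144*w^9 + 512*w^8*u^5 -
      5440*w^8*u^4 + 12960*w^8*u^3 + 6240*w^8*u^2 + 1440*w^8*u - 864*w^8 + 1536*w^7*u^6 -
      14528*w^7*u^5 + 28400*w^7*u^4 - 2400*w^7*u^3 + 225600*w^7*u^2 - 77472*w^7*u + 9936*w^7 +
      2368*w^6*u^7 - 23552*w^6*u^6 + 35792*w^6*u^5 + 26560*w^6*u^4 + 380080*w^6*u^3 +
      241904*w^6*u^2 + 363264*w^6*u - 90864*w^6 + 2048*w^5*u^8 - 25728*w^5*u^7 - 10000*w^5*u^6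
      + 459488*w^5*u^5 + 433280*w^5*u^4 + 280704*w^5*u^3 - 680784*w^5*u^2 + 787680*w^5*u +
      190944*w^5 - 23936*w^4*u^8 - 53488*w^4*u^7 + 720384*w^4*u^6 + 923392*w^4*u^5 +
      474800*w^4*u^4 - 785328*w^4*u^3 - 1053504*w^4*u^2 - 2079648*w^4*u + 390096*w^4 -
      1856*w^3*u^10 - 19776*w^3*u^9 + 57184*w^3*u^8 + 536064*w^3*u^7 + 1466688*w^3*u^6 -
      149504*w^3*u^5 - 5168768*w^3*u^4 + 671392*w^3*u^3 + 1813472*w^3*u^2 - 2852256*w^3*u -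
      1493568*w^3 - 2560*w^2*u^11 - 17984*w^2*u^10 + 48496*w^2*u^9 + 30304*w^2*u^8 +
      609312*w^2*u^7 + 1999792*w^2*u^6 - 833584*w^2*u^5 - 7011232*w^2*u^4 - 5050848*w^2*u^3 +
      2370576*w^2*u^2 + 1910016*w^2*u - 1429056*w^2 - 1536*w*u^12 - 10688*w*u^11 +
      76544*w*u^10 + 407424*w*u^9 - 479872*w*u^8 - 3571520*w*u^7 + 291264*w*u^6 +
      8356288*w*u^5 + 2589632*w*u^4 - 4284096*w*u^3 - 554496*w*u^2 + 771264*w*u - 127872*w -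
      576*u^13 - 4992*u^12 - 44416*u^11 - 198592*u^10 - 12480*u^9 + 1289344*u^8 + 1071488*u^7
      - 2205376*u^6 - 1831872*u^5 + 1695360*u^4 + 900416*u^3 - 761408*u^2 + 57216*u + 21312) * H

theorem id_Fnorm {F : Type*} [CommRing F] (w u : F) (H : w ^ 3 = u ^ 3 + 2 * u ^ 2 - 1)
    (P : F) (hP : P = (-6 + 2 * u + 16 * u ^ 2 - 2 * u ^ 3 - 6 * u ^ 4) +
      w * (-12 - 17 * u - 9 * u ^ 2 + 4 * u ^ 3) + w ^ 2 * (3 - 13 * u + 2 * u ^ 2)) :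
    P * (28*w^2*u^6 - 146*w^2*u^5 - 95*w^2*u^4 + 420*w^2*u^3 + 495*w^2*u^2 + 324*w^2*u + 162*w^2
      + 28*w*u^7 - 90*w*u^6 - 107*w*u^5 + 310*w*u^4 + 195*w*u^3 + 9*w*u^2 - 81*w + 28*u^8 +
      78*u^7 - 143*u^6 - 440*u^5 - 195*u^4 + 9*u^3 + 54*u^2 + 81*u) =
      -((2 * u + 3) * (u ^ 2 + u - 1) * (28 * u ^ 4 - 34 * u ^ 3 - 63 * u ^ 2 - 36 * u - 27) ^ 2) := by
  subst hP
  linear_combination
    (56*w*u^8 - 656*w*u^7 + 1792*w*u^6 + 1637*w*u^5 - 4755*w*u^4 - 4527*w*u^3 - 2403*w*u^2 -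
      1134*w*u + 486*w + 168*u^9 - 1380*u^8 + 1498*u^7 + 6422*u^6 - 2394*u^5 - 10746*u^4 -
      15255*u^3 - 13041*u^2 - 5589*u - 2187) * H

end Pool.Agent.S5M
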