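import Pool.Agent.S5M.PtsE1
import Pool.Agent.S5M.IdDF

/-! # Fields containing the square root of 5: `X(s3, s5)` (helper34)

PROOF. If `y = 1`: `(t + 1) (t + 4) = 0`. `t = -1`: `V = -96`, `q^2 = 8208 = 144 * 57`: `nsq_57`.
`t = -4`: `V = 66`, `q^2 = 5292 = 42^2 * 3`: `nsq_3`. Let `y ≠ 1`. `id_D` with
`N = y^2 + y - 3 t - 5` and `z = N / (y - 1)^2`: `(4 z^3 + 3 z^2 + 20) P^2 = 27 q^2`, so `P ≠ 0`.
`4 z^3 + 3 z^2 + 20 = (z + 2) (4 z^2 - 5 z + 10)`; `u = (4 z + 8)/3` (`z = (3 u - 8)/4`):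
`(4 q / P)^2 = u (u^2 - 7 u + 16)`; `u ≠ 0` as `q ≠ 0`. `pts_C2`:
`u = 4`: `z = 1`, `t = y - 2`, `(y - 1)^2 (y + 1) = 0`, `y = -1`, `t = -3`.
`u = 6 + 2 s'` with `s' = ± s` (a lemma for `s' : F` with `s' ^ 2 = 5`): `z = (5 + 3 s')/2`,
`3 t = y^2 + y - 5 - z (y - 1)^2`, and `9 (t^2 + 5 t + 5 - y^3) = 0` becomes
`(y - 1)^2 y ((27 + 9 s')/2 y - (45 + 18 s')) = 0`, so `y = (5 + s')/2`, `t = -5 - 2 s'` and
`t^2 + 10 t + 5 = 0`. -/

namespace Pool.Agent.S5M

open NumberField

variable {F : Type*} [Field F] [NumberField F] [IsTotallyReal F] {s : 𝓞 F}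

/-- the case `u = 6 + 2 s'` -/
private theorem coreD_aux {F : Type*} [Field F] [CharZero F] {s' y t z : F} (hs : s' ^ 2 = 5)
    (hy : y ≠ 0) (hy1 : y - 1 ≠ 0) (e : y ^ 3 = t ^ 2 + 5 * t + 5)
    (hz : 2 * z = 5 + 3 * s') (hN : z * (y - 1) ^ 2 = y ^ 2 + y - 3 * t - 5) :
    t ^ 2 + 10 * t + 5 = 0 := by
  have h3 : (3 : F) + s' ≠ 0 := by
    intro h
    have h1 : (3 + s') * (3 - s') = 4 := by linear_combination -hs
    rw [h, zero_mul] at h1
    norm_num at h1
  have hz' : z = (5 + 3 * s') / 2 := by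
    field_simp
    linear_combination hz
  have ht : t = (y ^ 2 + y - 5 - z * (y - 1) ^ 2) / 3 := by
    field_simp
    linear_combination hN
  have h4 : (y - 1) ^ 2 * y * ((27 + 9 * s') * y - (90 + 36 * s')) = 0 := by
    have h5 : t ^ 2 + 5 * t + 5 - y ^ 3 = 0 := by linear_combination -e
    rw [ht, hz'] at h5
    field_simp at h5
    linear_combination (1 / 2) * h5 + (-(9 / 2) * (y - 1) ^ 4) * hs
  have h6 : (27 + 9 * s') * y - (90 + 36 * s') = 0 := by
    rcases mul_eq_zero.mp h4 with h | h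
    · rcases mul_eq_zero.mp h with h | h
      · exact absurd (pow_eq_zero_iff two_ne_zero |>.mp h) hy1
      · exact absurd h hy
    · exact h
  have h7 : y = (5 + s') / 2 := by
    have h8 : (3 + s') * (2 * y - (5 + s')) = 0 := by
      linear_combination (2 / 9) * h6 - hs
    rcases mul_eq_zero.mp h8 with h | h
    · exact absurd h h3
    · field_simp
      linear_combination h
  have h9 : t = -5 - 2 * s' := by
    rw [ht, hz', h7]
    field_simp
    linear_combination (-(3 * s' + 21)) * hs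
  rw [h9]
  linear_combination 4 * hs

theorem coreD (H : HypS F s) {y t q V : F} (hy : y ≠ 0) (hq : q ≠ 0)
    (e : y ^ 3 = t ^ 2 + 5 * t + 5) (hV : V = (t + 5) * (t ^ 2 - 5) * (t ^ 2 + 5 * t + 10))
    (e' : V ^ 2 + 12 * V * y ^ 5 + 144 * y ^ 10 = q ^ 2) :
    t = -3 ∨ t ^ 2 + 10 * t + 5 = 0 := by
  have hs := H.sqF
  by_cases hy1 : y = 1
  · exfalso
    subst hy1
    have h1 : (t + 1) * (t + 4) = 0 := by linear_combination -e
    rcases mul_eq_zero.mp h1 with h | h
    · have ht : t = -1 := by linear_combination h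
      subst ht
      apply nsq_57 H
      refine ⟨q / 12, ?_⟩
      rw [hV] at e'
      field_simp
      linear_combination e'
    · have ht : t = -4 := by linear_combination h
      subst ht
      apply nsq_3 H
      refine ⟨q / 42, ?_⟩
      rw [hV] at e'
      field_simp
      linear_combination e'
  · have hy1' : y - 1 ≠ 0 := sub_ne_zero.mpr hy1
    obtain ⟨P, hP⟩ : ∃ P : F, P = 100 + 25 * y - 10 * y ^ 2 + 40 * y ^ 3 - 11 * y ^ 4 - 2 * y ^ 5 +
      y ^ 6 + y ^ 7 + t * (25 + 15 * y - 10 * y ^ 2 + 7 * y ^ 3 - 2 * y ^ 5 + y ^ 6) := ⟨_, rfl⟩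
    obtain ⟨N, hN⟩ : ∃ N : F, N = y ^ 2 + y - 3 * t - 5 := ⟨_, rfl⟩
    have hid := id_D y t e V N P hV hN hP
    rw [e'] at hid
    obtain ⟨z, hz⟩ : ∃ z : F, z = N / (y - 1) ^ 2 := ⟨_, rfl⟩
    have hNz : N = z * (y - 1) ^ 2 := by
      rw [hz]
      field_simp
    have h1 : (4 * z ^ 3 + 3 * z ^ 2 + 20) * P ^ 2 = 27 * q ^ 2 := by
      have h2 : (y - 1) ^ 6 * ((4 * z ^ 3 + 3 * z ^ 2 + 20) * P ^ 2) = (y - 1) ^ 6 * (27 * q ^ 2) := by
        rw [hNz] at hid
        linear_combination hid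
      exact mul_left_cancel₀ (pow_ne_zero 6 hy1') h2
    have hP0 : P ≠ 0 := by
      intro h
      rw [h] at h1
      have h2 : q ^ 2 = 0 := by
        have h3 : (27 : F) * q ^ 2 = 0 := by linear_combination -h1
        rcases mul_eq_zero.mp h3 with h4 | h4
        · norm_num at h4
        · exact h4
      exact hq (pow_eq_zero_iff two_ne_zero |>.mp h2)
    obtain ⟨u, hu⟩ : ∃ u : F, u = (4 * z + 8) / 3 := ⟨_, rfl⟩
    have hzu : z = (3 * u - 8) / 4 := by
      rw [hu]
      field_simp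
      ring
    have h2 : (4 * q / P) ^ 2 = u * (u ^ 2 - 7 * u + 16) := by
      rw [hzu] at h1
      rw [div_pow, div_eq_iff (pow_ne_zero 2 hP0)]
      linear_combination (-(16 / 27)) * h1
    have hu0 : u ≠ 0 := by
      intro h
      rw [h, zero_mul] at h2
      have h3 := pow_eq_zero_iff two_ne_zero |>.mp h2
      rw [div_eq_zero_iff] at h3
      rcases h3 with h4 | h4
      · rcases mul_eq_zero.mp h4 with h5 | h5
        · norm_num at h5
        · exact hq h5
      · exact hP0 h4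
    rcases pts_C2 H hu0 h2 with h | h | h
    · left
      have hz1 : z = 1 := by rw [hzu, h]; norm_num
      rw [hz1, hN] at hNz
      have ht : t = y - 2 := by linear_combination (-(1 / 3)) * hNz
      rw [ht] at e
      have h3 : (y - 1) ^ 2 * (y + 1) = 0 := by linear_combination e
      rcases mul_eq_zero.mp h3 with h4 | h4
      · exact absurd (pow_eq_zero_iff two_ne_zero |>.mp h4) hy1'
      · rw [ht]
        linear_combination h4
    · right
      refine coreD_aux (s' := (s : F)) (z := z) hs hy hy1' e ?_ ?_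
      · rw [hzu, h]; ring
      · rw [← hNz, hN]
    · right
      refine coreD_aux (s' := -(s : F)) (z := z) (by rw [neg_sq, hs]) hy hy1' e ?_ ?_
      · rw [hzu, h]; ring
      · rw [← hNz, hN]

end Pool.Agent.S5M
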