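import Mathlib

/-! # Cubics over ℚ(√5) with one real root have no root in a totally real field (helper34)

PROOF. `K := ℚ⟮s⟯`, elements `p + q s` with `p q : ℚ`. Let `ψ₀ : F →+* ℂ` with `ψ₀ s = ε` (exists since
`minpoly ℚ s = X ^ 2 - 5`), make ℂ a `K`-algebra by `ψ₀`. Every `K`-embedding `ψ` of `F` in ℂ is real
and `ψ m` is a root of the real cubic with the coefficients `A, B, C, D`, which has only one real
root since its discriminant is negative. So all `ψ m` agree, the minimal polynomial of `m` over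
`K` has degree one and `m` itself is in `K`. -/

namespace Pool.Agent.S5M

open NumberField Polynomial IntermediateField

private theorem real_root_unique {A B C D : ℝ}
    (hd : B ^ 2 * C ^ 2 - 4 * A * C ^ 3 - 4 * B ^ 3 * D - 27 * A ^ 2 * D ^ 2 +
      18 * A * B * C * D < 0) {x y : ℝ} (hx : A * x ^ 3 + B * x ^ 2 + C * x + D = 0)
    (hy : A * y ^ 3 + B * y ^ 2 + C * y + D = 0) : x = y := by
  by_contra hne
  rcases eq_or_ne A 0 with hA | hA
  · subst hA
    have h1 : C ^ 2 - 4 * B * D = (2 * B * x + C) ^ 2 := by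
      have h2 : D = -(B * x ^ 2 + C * x) := by linarith
      rw [h2]
      ring
    have h3 : B ^ 2 * (C ^ 2 - 4 * B * D) < 0 := by
      have h4 : B ^ 2 * (C ^ 2 - 4 * B * D) = B ^ 2 * C ^ 2 - 4 * 0 * C ^ 3 - 4 * B ^ 3 * D -
          27 * 0 ^ 2 * D ^ 2 + 18 * 0 * B * C * D := by ring
      rw [h4]
      exact hd
    rw [h1] at h3
    nlinarith [mul_nonneg (sq_nonneg B) (sq_nonneg (2 * B * x + C))]
  · have hxy : x - y ≠ 0 := sub_ne_zero.mpr hne
    have h1 : A * (x ^ 2 + x * y + y ^ 2) + B * (x + y) + C = 0 := by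
      have h2 : (x - y) * (A * (x ^ 2 + x * y + y ^ 2) + B * (x + y) + C) = 0 := by
        linear_combination hx - hy
      exact (mul_eq_zero.mp h2).resolve_left hxy
    obtain ⟨z, hz⟩ : ∃ z : ℝ, B = -(A * (x + y + z)) := by
      refine ⟨-B / A - x - y, ?_⟩
      field_simp
      ring
    have hC : C = A * (x * y + y * z + z * x) := by
      rw [hz] at h1
      linear_combination h1
    have hD : D = -(A * x * y * z) := by
      rw [hz, hC] at hx
      linear_combination hx
    rw [hz, hC, hD] at hd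
    have h3 : (-(A * (x + y + z))) ^ 2 * (A * (x * y + y * z + z * x)) ^ 2 -
        4 * A * (A * (x * y + y * z + z * x)) ^ 3 -
        4 * (-(A * (x + y + z))) ^ 3 * (-(A * x * y * z)) -
        27 * A ^ 2 * (-(A * x * y * z)) ^ 2 +
        18 * A * (-(A * (x + y + z))) * (A * (x * y + y * z + z * x)) * (-(A * x * y * z)) =
        (A ^ 2 * ((x - y) * (y - z) * (z - x))) ^ 2 := by ring
    rw [h3] at hd
    exact absurd hd (not_lt.mpr (sq_nonneg _))

private theorem rat_sq_ne_five (r : ℚ) : r ^ 2 ≠ 5 := by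
  intro h
  have h1 : Irrational (√5) := by
    have := Nat.Prime.irrational_sqrt (p := 5) (by norm_num)
    exact_mod_cast this
  apply h1
  refine ⟨|r|, ?_⟩
  have h2 : ((|r| : ℚ) : ℝ) ^ 2 = 5 := by
    have h3 : (|r| : ℚ) ^ 2 = 5 := by rw [sq_abs]; exact h
    exact_mod_cast h3
  have h4 : (0 : ℝ) ≤ ((|r| : ℚ) : ℝ) := by exact_mod_cast abs_nonneg r
  rw [← h2, Real.sqrt_sq h4]

theorem cubic_K {F : Type*} [Field F] [NumberField F] [IsTotallyReal F] {s : F} (hs : s ^ 2 = 5)
    {ε : ℝ} (hε : ε ^ 2 = 5) (a a' b b' c c' d d' : ℚ) (ha : a ≠ 0) {m : F}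
    (hm : ((a : F) + a' * s) * m ^ 3 + (b + b' * s) * m ^ 2 + (c + c' * s) * m +
      (d + d' * s) = 0)
    {A B C D : ℝ} (hA : A = a + a' * ε) (hB : B = b + b' * ε) (hC : C = c + c' * ε)
    (hD : D = d + d' * ε)
    (hd : B ^ 2 * C ^ 2 - 4 * A * C ^ 3 - 4 * B ^ 3 * D - 27 * A ^ 2 * D ^ 2 +
      18 * A * B * C * D < 0) :
    ∃ p q : ℚ, ((a : F) + a' * s) * (p + q * s) ^ 3 + (b + b' * s) * (p + q * s) ^ 2 +
      (c + c' * s) * (p + q * s) + (d + d' * s) = 0 := by
  -- the minimal polynomial of `s`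
  have hmin : minpoly ℚ s = X ^ 2 - Polynomial.C (5 : ℚ) := by
    symm
    refine minpoly.eq_of_irreducible_of_monic ?_ ?_ ?_
    · refine irreducible_of_degree_le_three_of_not_isRoot ?_ ?_
      · rw [natDegree_X_pow_sub_C]
        decide
      · intro x hx
        rw [IsRoot.def, eval_sub, eval_pow, eval_X, eval_C, sub_eq_zero] at hx
        exact rat_sq_ne_five x hx
    · simp [hs]
    · exact monic_X_pow_sub_C _ (by norm_num)
  -- an embedding which maps `s` to `ε`
  have hroot : (ε : ℂ) ∈ (minpoly ℚ s).rootSet ℂ := by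
    rw [mem_rootSet_of_ne (minpoly.ne_zero (Algebra.IsIntegral.isIntegral s)), hmin]
    simp only [map_sub, map_pow, aeval_X, aeval_C]
    have h1 : (ε : ℂ) ^ 2 = 5 := by exact_mod_cast hε
    rw [h1]
    simp
  rw [← Algebra.IsAlgebraic.range_eval_eq_rootSet_minpoly ℂ s] at hroot
  obtain ⟨ψ₀, hψ₀⟩ := hroot
  -- the algebra structure
  let K : IntermediateField ℚ F := ℚ⟮s⟯
  have hsK : s ∈ K := mem_adjoin_simple_self ℚ s
  let _ : Algebra K ℂ := (ψ₀.toRingHom.comp (algebraMap K F)).toAlgebra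
  have halg : ∀ x : K, algebraMap K ℂ x = ψ₀ (x : F) := fun x => rfl
  -- all embeddings agree at `m`
  have hval : ∀ ψ : F →ₐ[K] ℂ, ∃ x : ℝ, ψ m = x ∧ A * x ^ 3 + B * x ^ 2 + C * x + D = 0 := by
    intro ψ
    have hreal : ComplexEmbedding.IsReal (ψ : F →+* ℂ) :=
      InfinitePlace.isReal_mk_iff.mp (IsTotallyReal.isReal _)
    set φ : F →+* ℝ := hreal.embedding with hφ
    have hφψ : ∀ x : F, ((φ x : ℝ) : ℂ) = ψ x := fun x => hreal.coe_embedding_apply x
    have hφs : φ s = ε := by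
      have h1 : ψ s = (ε : ℂ) := by
        have h2 := ψ.commutes (⟨s, hsK⟩ : K)
        rw [halg] at h2
        rw [← hψ₀]
        exact h2
      have h3 : ((φ s : ℝ) : ℂ) = (ε : ℂ) := by rw [hφψ, h1]
      exact_mod_cast h3
    refine ⟨φ m, (hφψ m).symm, ?_⟩
    have h4 := congrArg φ hm
    simp only [map_add, map_mul, map_pow, map_ratCast, map_zero, hφs] at h4
    rw [hA, hB, hC, hD]
    exact h4
  have hagree : ∀ ψ ψ' : F →ₐ[K] ℂ, ψ m = ψ' m := by
    intro ψ ψ'
    obtain ⟨x, hx, hx'⟩ := hval ψ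
    obtain ⟨y, hy, hy'⟩ := hval ψ'
    rw [hx, hy, real_root_unique hd hx' hy']
  -- the degree
  have hint : IsIntegral K m := Algebra.IsIntegral.isIntegral m
  have hdeg : (minpoly K m).natDegree = 1 := by
    have hsep : (minpoly K m).Separable := Algebra.IsSeparable.isSeparable K m
    have h1 := card_rootSet_eq_natDegree (K := ℂ) hsep (IsAlgClosed.splits _)
    have h2 : Fintype.card ((minpoly K m).rootSet ℂ) ≤ 1 := by
      rw [Fintype.card_le_one_iff]
      rintro ⟨x, hx⟩ ⟨y, hy⟩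
      rw [← Algebra.IsAlgebraic.range_eval_eq_rootSet_minpoly ℂ m] at hx hy
      obtain ⟨ψ, rfl⟩ := hx
      obtain ⟨ψ', rfl⟩ := hy
      simp only [Subtype.mk.injEq]
      exact hagree ψ ψ'
    have h3 := minpoly.natDegree_pos hint
    omega
  have hmK : m ∈ K := by
    obtain ⟨y, hy⟩ := minpoly.natDegree_eq_one_iff.mp hdeg
    rw [← hy]
    exact y.2
  -- the elements of `K`
  have hform : ∃ p q : ℚ, m = p + q * s := by
    have h1 : m ∈ Algebra.adjoin ℚ {s} := by
      have h2 := adjoin_simple_toSubalgebra_of_isAlgebraic (F := ℚ) (α := s)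
        (Algebra.IsAlgebraic.isAlgebraic s)
      rw [← h2]
      exact hmK
    refine Algebra.adjoin_induction (p := fun x _ => ∃ p q : ℚ, x = p + q * s) ?_ ?_ ?_ ?_ h1
    · intro x hx
      rw [Set.mem_singleton_iff] at hx
      exact ⟨0, 1, by rw [hx]; simp⟩
    · intro r
      exact ⟨r, 0, by simp⟩
    · rintro x y _ _ ⟨p, q, rfl⟩ ⟨p', q', rfl⟩
      exact ⟨p + p', q + q', by push_cast; ring⟩
    · rintro x y _ _ ⟨p, q, rfl⟩ ⟨p', q', rfl⟩
      refine ⟨p * p' + 5 * q * q', p * q' + q * p', ?_⟩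
      push_cast
      linear_combination (q * q' : F) * hs
  obtain ⟨p, q, hpq⟩ := hform
  refine ⟨p, q, ?_⟩
  rw [← hpq]
  exact hm

end Pool.Agent.S5M
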