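import Mathlib

/-! # Three cubics without roots in ℚ(√5) (helper34)

PROOF (same for all three; `l = 7` for the first two, `l = 11` for the third). Expand the left side
as `U + V s` with `U V : ℚ` polynomials in `p q`; `s ^ 2 = 5` and 5 is no rational square, so
`U = V = 0`. Write `p = a / n`, `q = b / n` with integers `a b n`, `n > 0`, `gcd (a, b, n) = 1`, and
clear denominators: the two cubic forms `U(a, b, n) = 0`, `V(a, b, n) = 0` over ℤ. Modulo `l` they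
have only the zero `(0, 0, 0)` in `(ZMod l) ^ 3` (`decide`), so `l` divides `a, b, n`. -/

namespace Pool.Agent.S5M

variable {F : Type*} [Field F] [CharZero F] {s : F}

omit [CharZero F] in
private theorem sq_of_lin (hs : s ^ 2 = 5) {U V : F} (h : U + V * s = 0) : U ^ 2 = 5 * V ^ 2 := by
  linear_combination (U - V * s) * h + V ^ 2 * hs

private theorem rat_indep (hs : s ^ 2 = 5) {U V : ℤ} (h : (U : F) + V * s = 0) :
    U = 0 ∧ V = 0 := by
  have h1 := sq_of_lin hs h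
  have h2 : U ^ 2 = 5 * V ^ 2 := by exact_mod_cast h1
  by_cases hV : V = 0
  · subst hV
    refine ⟨?_, rfl⟩
    have h3 : U ^ 2 = 0 := by rw [h2]; ring
    exact pow_eq_zero_iff (two_ne_zero) |>.1 h3
  · exfalso
    have hVR : (V : ℝ) ≠ 0 := by exact_mod_cast hV
    have h3 : (U : ℝ) ^ 2 = 5 * (V : ℝ) ^ 2 := by exact_mod_cast h2
    have h4 : (|(U : ℝ) / V|) ^ 2 = 5 := by
      rw [sq_abs, div_pow, h3]
      field_simp
    have h5 : √(5 : ℝ) = |(U : ℝ) / V| := by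
      rw [← h4, Real.sqrt_sq (abs_nonneg _)]
    have h6 : Irrational (√(5 : ℝ)) := by
      have := Nat.Prime.irrational_sqrt (show Nat.Prime 5 by norm_num)
      exact_mod_cast this
    apply h6
    refine ⟨|(U : ℚ) / V|, ?_⟩
    rw [h5]
    push_cast
    rfl

private theorem descent (l : ℕ) (hl : 1 < l) (U V : ℤ → ℤ → ℤ → ℤ)
    (hU : ∀ k a b n, U (k * a) (k * b) (k * n) = k ^ 3 * U a b n)
    (hV : ∀ k a b n, V (k * a) (k * b) (k * n) = k ^ 3 * V a b n)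
    (h : ∀ a b n : ℤ, U a b n = 0 → V a b n = 0 → (l : ℤ) ∣ a ∧ (l : ℤ) ∣ b ∧ (l : ℤ) ∣ n) :
    ∀ n : ℕ, 0 < n → ∀ a b : ℤ, U a b n = 0 → V a b n = 0 → False := by
  intro n
  induction n using Nat.strong_induction_on with
  | _ n ih =>
    intro hn a b h1 h2
    obtain ⟨⟨a', rfl⟩, ⟨b', rfl⟩, hn'⟩ := h a b n h1 h2
    obtain ⟨m, rfl⟩ : l ∣ n := by exact_mod_cast hn'
    have hm : 0 < m := Nat.pos_of_mul_pos_left hn
    have hlt : m < l * m := by nlinarith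
    have hl0 : ((l : ℤ) ^ 3) ≠ 0 := by positivity
    refine ih m hlt hm a' b' ?_ ?_
    · have h3 := hU l a' b' m
      rw [Nat.cast_mul] at h1
      rw [h1] at h3
      exact (mul_eq_zero.1 h3.symm).resolve_left hl0
    · have h3 := hV l a' b' m
      rw [Nat.cast_mul] at h2
      rw [h2] at h3
      exact (mul_eq_zero.1 h3.symm).resolve_left hl0

private theorem common (p q : ℚ) : ∃ (a b : ℤ) (n : ℕ), 0 < n ∧ (p : F) * n = a ∧ (q : F) * n = b := by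
  refine ⟨p.num * q.den, q.num * p.den, p.den * q.den, Nat.mul_pos p.den_pos q.den_pos, ?_, ?_⟩
  · have hd : (p.den : F) ≠ 0 := by exact_mod_cast p.den_ne_zero
    rw [Rat.cast_def]
    push_cast
    field_simp
  · have hd : (q.den : F) ≠ 0 := by exact_mod_cast q.den_ne_zero
    rw [Rat.cast_def]
    push_cast
    field_simp

private def UK1 {R : Type*} [CommRing R] (a b n : R) : R :=
  32*a*a*a - 180*a*a*b - 23*a*a*n + 480*a*b*b - 130*a*b*n + 94*a*n*n - 300*b*b*b - 115*b*b*n +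
  110*b*n*n + 26*n*n*n

private def VK1 {R : Type*} [CommRing R] (a b n : R) : R :=
  -12*a*a*a + 96*a*a*b - 13*a*a*n - 180*a*b*b - 46*a*b*n + 22*a*n*n + 160*b*b*b - 65*b*b*n +
  94*b*n*n

private theorem mod_K1 : ∀ a b n : ZMod 7, UK1 a b n = 0 → VK1 a b n = 0 →
    a = 0 ∧ b = 0 ∧ n = 0 := by
  decide +kernel

private theorem dvd_K1 (a b n : ℤ) (h1 : UK1 a b n = 0) (h2 : VK1 a b n = 0) :
    ((7 : ℕ) : ℤ) ∣ a ∧ ((7 : ℕ) : ℤ) ∣ b ∧ ((7 : ℕ) : ℤ) ∣ n := by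
  have e1 : UK1 (a : ZMod 7) (b : ZMod 7) (n : ZMod 7) = 0 := by
    have := congrArg (fun z : ℤ => (z : ZMod 7)) h1
    simpa [UK1] using this
  have e2 : VK1 (a : ZMod 7) (b : ZMod 7) (n : ZMod 7) = 0 := by
    have := congrArg (fun z : ℤ => (z : ZMod 7)) h2
    simpa [VK1] using this
  obtain ⟨h3, h4, h5⟩ := mod_K1 _ _ _ e1 e2
  exact ⟨(ZMod.intCast_zmod_eq_zero_iff_dvd _ _).1 h3, (ZMod.intCast_zmod_eq_zero_iff_dvd _ _).1 h4,
    (ZMod.intCast_zmod_eq_zero_iff_dvd _ _).1 h5⟩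

theorem noRoot_K1 (hs : s ^ 2 = 5) (p q : ℚ) :
    ((32 : F) - 12 * s) * (p + q * s) ^ 3 - (23 + 13 * s) * (p + q * s) ^ 2 +
      (94 + 22 * s) * (p + q * s) + 26 ≠ 0 := by
  intro hE
  obtain ⟨a, b, n, hn, ha, hb⟩ := common (F := F) p q
  have key : ((UK1 a b (n : ℤ) : ℤ) : F) + ((VK1 a b (n : ℤ) : ℤ) : F) * s = 0 := by
    unfold UK1 VK1
    push_cast
    rw [← ha, ← hb]
    linear_combination (n : F) ^ 3 * hE - (n : F) ^ 3 * (-36*p^2*q - 36*p*q^2*s + 96*p*q^2 - 26*p*q - 12*q^3*s^2 + 32*q^3*s - 60*q^3 - 13*q^2*s - 23*q^2 +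
      22*q) * hs
  obtain ⟨h1, h2⟩ := rat_indep hs key
  refine descent 7 (by norm_num) UK1 VK1 ?_ ?_ dvd_K1 n hn a b h1 h2
  · intro k a b n
    unfold UK1
    ring
  · intro k a b n
    unfold VK1
    ring

private def UK3 {R : Type*} [CommRing R] (a b n : R) : R :=
  136*a*a*a + 855*a*a*b - 189*a*a*n + 2040*a*b*b - 920*a*b*n + 152*a*n*n + 1425*b*b*b - 945*b*b*n +
  290*b*n*n - 27*n*n*n

private def VK3 {R : Type*} [CommRing R] (a b n : R) : R :=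
  57*a*a*a + 408*a*a*b - 92*a*a*n + 855*a*b*b - 378*a*b*n + 58*a*n*n + 680*b*b*b - 460*b*b*n +
  152*b*n*n - 20*n*n*n

private theorem mod_K3 : ∀ a b n : ZMod 7, UK3 a b n = 0 → VK3 a b n = 0 →
    a = 0 ∧ b = 0 ∧ n = 0 := by
  decide +kernel

private theorem dvd_K3 (a b n : ℤ) (h1 : UK3 a b n = 0) (h2 : VK3 a b n = 0) :
    ((7 : ℕ) : ℤ) ∣ a ∧ ((7 : ℕ) : ℤ) ∣ b ∧ ((7 : ℕ) : ℤ) ∣ n := by
  have e1 : UK3 (a : ZMod 7) (b : ZMod 7) (n : ZMod 7) = 0 := by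
    have := congrArg (fun z : ℤ => (z : ZMod 7)) h1
    simpa [UK3] using this
  have e2 : VK3 (a : ZMod 7) (b : ZMod 7) (n : ZMod 7) = 0 := by
    have := congrArg (fun z : ℤ => (z : ZMod 7)) h2
    simpa [VK3] using this
  obtain ⟨h3, h4, h5⟩ := mod_K3 _ _ _ e1 e2
  exact ⟨(ZMod.intCast_zmod_eq_zero_iff_dvd _ _).1 h3, (ZMod.intCast_zmod_eq_zero_iff_dvd _ _).1 h4,
    (ZMod.intCast_zmod_eq_zero_iff_dvd _ _).1 h5⟩

theorem noRoot_K3 (hs : s ^ 2 = 5) (p q : ℚ) :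
    ((136 : F) + 57 * s) * (p + q * s) ^ 3 - (189 + 92 * s) * (p + q * s) ^ 2 +
      (152 + 58 * s) * (p + q * s) - (27 + 20 * s) ≠ 0 := by
  intro hE
  obtain ⟨a, b, n, hn, ha, hb⟩ := common (F := F) p q
  have key : ((UK3 a b (n : ℤ) : ℤ) : F) + ((VK3 a b (n : ℤ) : ℤ) : F) * s = 0 := by
    unfold UK3 VK3
    push_cast
    rw [← ha, ← hb]
    linear_combination (n : F) ^ 3 * hE - (n : F) ^ 3 * (171*p^2*q + 171*p*q^2*s + 408*p*q^2 - 184*p*q + 57*q^3*s^2 + 136*q^3*s + 285*q^3 - 92*q^2*s -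
      189*q^2 + 58*q) * hs
  obtain ⟨h1, h2⟩ := rat_indep hs key
  refine descent 7 (by norm_num) UK3 VK3 ?_ ?_ dvd_K3 n hn a b h1 h2
  · intro k a b n
    unfold UK3
    ring
  · intro k a b n
    unfold VK3
    ring

private def UZ {R : Type*} [CommRing R] (a b n : R) : R :=
  34*a*a*a + 300*a*a*b - 136*a*a*n + 510*a*b*b - 800*a*b*n + 148*a*n*n + 500*b*b*b - 680*b*b*n +
  450*b*n*n - 13*n*n*n

private def VZ {R : Type*} [CommRing R] (a b n : R) : R :=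
  20*a*a*a + 102*a*a*b - 80*a*a*n + 300*a*b*b - 272*a*b*n + 90*a*n*n + 170*b*b*b - 400*b*b*n +
  148*b*n*n - 15*n*n*n

private theorem mod_Z : ∀ a b n : ZMod 11, UZ a b n = 0 → VZ a b n = 0 →
    a = 0 ∧ b = 0 ∧ n = 0 := by
  decide +kernel

private theorem dvd_Z (a b n : ℤ) (h1 : UZ a b n = 0) (h2 : VZ a b n = 0) :
    ((11 : ℕ) : ℤ) ∣ a ∧ ((11 : ℕ) : ℤ) ∣ b ∧ ((11 : ℕ) : ℤ) ∣ n := by
  have e1 : UZ (a : ZMod 11) (b : ZMod 11) (n : ZMod 11) = 0 := by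
    have := congrArg (fun z : ℤ => (z : ZMod 11)) h1
    simpa [UZ] using this
  have e2 : VZ (a : ZMod 11) (b : ZMod 11) (n : ZMod 11) = 0 := by
    have := congrArg (fun z : ℤ => (z : ZMod 11)) h2
    simpa [VZ] using this
  obtain ⟨h3, h4, h5⟩ := mod_Z _ _ _ e1 e2
  exact ⟨(ZMod.intCast_zmod_eq_zero_iff_dvd _ _).1 h3, (ZMod.intCast_zmod_eq_zero_iff_dvd _ _).1 h4,
    (ZMod.intCast_zmod_eq_zero_iff_dvd _ _).1 h5⟩

theorem noRoot_Z (hs : s ^ 2 = 5) (p q : ℚ) :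
    ((34 : F) + 20 * s) * (p + q * s) ^ 3 - (136 + 80 * s) * (p + q * s) ^ 2 +
      (148 + 90 * s) * (p + q * s) - (13 + 15 * s) ≠ 0 := by
  intro hE
  obtain ⟨a, b, n, hn, ha, hb⟩ := common (F := F) p q
  have key : ((UZ a b (n : ℤ) : ℤ) : F) + ((VZ a b (n : ℤ) : ℤ) : F) * s = 0 := by
    unfold UZ VZ
    push_cast
    rw [← ha, ← hb]
    linear_combination (n : F) ^ 3 * hE - (n : F) ^ 3 * (60*p^2*q + 60*p*q^2*s + 102*p*q^2 - 160*p*q + 20*q^3*s^2 + 34*q^3*s + 100*q^3 - 80*q^2*s -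
      136*q^2 + 90*q) * hs
  obtain ⟨h1, h2⟩ := rat_indep hs key
  refine descent 11 (by norm_num) UZ VZ ?_ ?_ dvd_Z n hn a b h1 h2
  · intro k a b n
    unfold UZ
    ring
  · intro k a b n
    unfold VZ
    ring

end Pool.Agent.S5M
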