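import Pool.Agent.S5M.CubicQ
import Pool.Agent.S5M.CubicK
import Pool.Agent.S5M.NoRoot

/-! # Six cubics without roots in totally real fields containing √5 (helper34)

PROOF. `cubic_rat` (discriminants of `19 X^3 + 59 X^2 + 108 X + 72`, `7 X^3 - 28 X^2 + 29 X + 1`,
`4 X^3 - 16 X^2 + 18 X - 3` are negative) and the rational root theorem (or: reduce modulo a small
prime; write the root as a/n in lowest terms). `cubic_K` with `ε = √5` and `noRoot_*` (negative
discriminants: about -8.93e6, -6.58e8, -2.42e8 at `ε = √5`; use `2.236 < √5 < 2.2361`, or compute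
the discriminant exactly as `U + V ε` and compare squares). -/

namespace Pool.Agent.S5M

open NumberField

/-- a cubic form over `ℤ` which is anisotropic modulo a prime has no rational root -/
theorem cubics_noRat (a b c d : ℤ) (l : ℕ) (hl : l.Prime)
    (h : ∀ x n : ZMod l, (a : ZMod l) * x ^ 3 + b * x ^ 2 * n + c * x * n ^ 2 + d * n ^ 3 = 0 →
      x = 0 ∧ n = 0) (p : ℚ) : (a : ℚ) * p ^ 3 + b * p ^ 2 + c * p + d ≠ 0 := by
  intro hp
  have hn : (p.den : ℚ) ≠ 0 := by exact_mod_cast p.den_nz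
  have hpe : p * p.den = p.num := Rat.mul_den_eq_num p
  have h1 : (a : ℚ) * p.num ^ 3 + b * p.num ^ 2 * p.den + c * p.num * p.den ^ 2 + d * p.den ^ 3
      = 0 := by
    rw [← hpe]
    linear_combination (p.den : ℚ) ^ 3 * hp
  have h2 : a * p.num ^ 3 + b * p.num ^ 2 * p.den + c * p.num * p.den ^ 2 + d * p.den ^ 3 = 0 := by
    exact_mod_cast h1
  have h3 : (a : ZMod l) * (p.num : ZMod l) ^ 3 + b * (p.num : ZMod l) ^ 2 * (p.den : ZMod l) +
      c * (p.num : ZMod l) * (p.den : ZMod l) ^ 2 + d * (p.den : ZMod l) ^ 3 = 0 := by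
    have := congrArg (Int.cast : ℤ → ZMod l) h2
    push_cast at this
    exact this
  obtain ⟨h4, h5⟩ := h _ _ h3
  have h6 : (l : ℤ) ∣ p.num := (ZMod.intCast_zmod_eq_zero_iff_dvd _ _).1 h4
  have h7 : l ∣ p.den := (ZMod.natCast_eq_zero_iff _ _).1 h5
  have h8 : l ∣ p.num.natAbs := Int.natCast_dvd.1 h6
  have h9 := Nat.dvd_gcd h8 h7
  rw [p.reduced.gcd_eq_one] at h9
  exact hl.one_lt.ne' (Nat.dvd_one.1 h9)

theorem cubics_sqrt5 : 2.236 < Real.sqrt 5 ∧ Real.sqrt 5 < 2.2361 ∧ Real.sqrt 5 ^ 2 = 5 := by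
  refine ⟨?_, ?_, Real.sq_sqrt (by norm_num)⟩
  · exact Real.lt_sqrt_of_sq_lt (by norm_num)
  · rw [Real.sqrt_lt' (by norm_num)]
    norm_num

variable {F : Type*} [Field F] [NumberField F] [IsTotallyReal F]

theorem cub_0 (m : F) : 19 * m ^ 3 + 59 * m ^ 2 + 108 * m + 72 ≠ 0 := by
  intro h
  obtain ⟨p, hp⟩ := cubic_rat 19 59 108 72 (by norm_num) (m := m) (by push_cast; exact h)
    (by norm_num)
  exact cubics_noRat 19 59 108 72 7 (by norm_num) (by decide) p (by push_cast; exact hp)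

theorem cub_45 (z : F) : 7 * z ^ 3 - 28 * z ^ 2 + 29 * z + 1 ≠ 0 := by
  intro h
  obtain ⟨p, hp⟩ := cubic_rat 7 (-28) 29 1 (by norm_num) (m := z)
    (by push_cast; linear_combination h) (by norm_num)
  exact cubics_noRat 7 (-28) 29 1 2 (by norm_num) (by decide) p (by push_cast; exact hp)

theorem cub_P (z : F) : 4 * z ^ 3 - 16 * z ^ 2 + 18 * z - 3 ≠ 0 := by
  intro h
  obtain ⟨p, hp⟩ := cubic_rat 4 (-16) 18 (-3) (by norm_num) (m := z)
    (by push_cast; linear_combination h) (by norm_num)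
  exact cubics_noRat 4 (-16) 18 (-3) 7 (by norm_num) (by decide) p (by push_cast; exact hp)

theorem cub_K1 {s : F} (hs : s ^ 2 = 5) (m : F) :
    (32 - 12 * s) * m ^ 3 - (23 + 13 * s) * m ^ 2 + (94 + 22 * s) * m + 26 ≠ 0 := by
  intro h
  obtain ⟨h1, h2, h3⟩ := cubics_sqrt5
  obtain ⟨p, q, hp⟩ := cubic_K hs h3 32 (-12) (-23) (-13) 94 22 26 0 (by norm_num) (m := m)
    (by push_cast; linear_combination h) rfl rfl rfl rfl (by
      push_cast
      have key : ((-23 : ℝ) + -13 * Real.sqrt 5) ^ 2 * (94 + 22 * Real.sqrt 5) ^ 2 -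
          4 * (32 + -12 * Real.sqrt 5) * (94 + 22 * Real.sqrt 5) ^ 3 -
          4 * (-23 + -13 * Real.sqrt 5) ^ 3 * (26 + 0 * Real.sqrt 5) -
          27 * (32 + -12 * Real.sqrt 5) ^ 2 * (26 + 0 * Real.sqrt 5) ^ 2 +
          18 * (32 + -12 * Real.sqrt 5) * (-23 + -13 * Real.sqrt 5) * (94 + 22 * Real.sqrt 5) *
            (26 + 0 * Real.sqrt 5) = -42868800 + 15177600 * Real.sqrt 5 := by
        linear_combination (21714900 + 8011560 * Real.sqrt 5 + 592900 * Real.sqrt 5 ^ 2) * h3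
      rw [key]
      linarith)
  refine noRoot_K1 hs p q ?_
  push_cast at hp
  linear_combination hp

theorem cub_K3 {s : F} (hs : s ^ 2 = 5) (m : F) :
    (136 + 57 * s) * m ^ 3 - (189 + 92 * s) * m ^ 2 + (152 + 58 * s) * m - (27 + 20 * s) ≠ 0 := by
  intro h
  obtain ⟨h1, h2, h3⟩ := cubics_sqrt5
  obtain ⟨p, q, hp⟩ := cubic_K hs h3 136 57 (-189) (-92) 152 58 (-27) (-20) (by norm_num)
    (m := m) (by push_cast; linear_combination h) rfl rfl rfl rfl (by
      push_cast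
      have key : ((-189 : ℝ) + -92 * Real.sqrt 5) ^ 2 * (152 + 58 * Real.sqrt 5) ^ 2 -
          4 * (136 + 57 * Real.sqrt 5) * (152 + 58 * Real.sqrt 5) ^ 3 -
          4 * (-189 + -92 * Real.sqrt 5) ^ 3 * (-27 + -20 * Real.sqrt 5) -
          27 * (136 + 57 * Real.sqrt 5) ^ 2 * (-27 + -20 * Real.sqrt 5) ^ 2 +
          18 * (136 + 57 * Real.sqrt 5) * (-189 + -92 * Real.sqrt 5) *
            (152 + 58 * Real.sqrt 5) * (-27 + -20 * Real.sqrt 5) =
          -329110875 - 147105000 * Real.sqrt 5 := by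
        linear_combination (-9919475 + 1085400 * Real.sqrt 5 - 3902160 * Real.sqrt 5 ^ 2) * h3
      rw [key]
      linarith)
  refine noRoot_K3 hs p q ?_
  push_cast at hp
  linear_combination hp

theorem cub_Z {s : F} (hs : s ^ 2 = 5) (z : F) :
    (34 + 20 * s) * z ^ 3 - (136 + 80 * s) * z ^ 2 + (148 + 90 * s) * z - (13 + 15 * s) ≠ 0 := by
  intro h
  obtain ⟨h1, h2, h3⟩ := cubics_sqrt5
  obtain ⟨p, q, hp⟩ := cubic_K hs h3 34 20 (-136) (-80) 148 90 (-13) (-15) (by norm_num)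
    (m := z) (by push_cast; linear_combination h) rfl rfl rfl rfl (by
      push_cast
      have key : ((-136 : ℝ) + -80 * Real.sqrt 5) ^ 2 * (148 + 90 * Real.sqrt 5) ^ 2 -
          4 * (34 + 20 * Real.sqrt 5) * (148 + 90 * Real.sqrt 5) ^ 3 -
          4 * (-136 + -80 * Real.sqrt 5) ^ 3 * (-13 + -15 * Real.sqrt 5) -
          27 * (34 + 20 * Real.sqrt 5) ^ 2 * (-13 + -15 * Real.sqrt 5) ^ 2 +
          18 * (34 + 20 * Real.sqrt 5) * (-136 + -80 * Real.sqrt 5) *
            (148 + 90 * Real.sqrt 5) * (-13 + -15 * Real.sqrt 5) =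
          -121025000 - 54125000 * Real.sqrt 5 := by
        linear_combination (-21867500 - 6050000 * Real.sqrt 5 - 750000 * Real.sqrt 5 ^ 2) * h3
      rw [key]
      linarith)
  refine noRoot_Z hs p q ?_
  push_cast at hp
  linear_combination hp

end Pool.Agent.S5M
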