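import Pool.Agent.S5M.Basic

/-! # Fields in which 3 is an odd power of a prime: a cubic without roots (helper34)

PROOF. Let `w` be the place of the prime `P` with `(3) = P ^ k`, `k` odd; it is the only place with
`w 3 < 1`, and `w 3 = exp (-k)`. Suppose `19 z^3 - 76 z^2 + 93 z - 33 = 0`. Integers prime to 3 have
`w`-valuation 1. (a) `w z ≤ 1`: else `w (19 z^3)` is strictly larger than the other terms.
(b) `w z < 1` is impossible: put `w z = exp (-a)`, `a > 0`. The terms have valuations
`exp (-3a)`, `exp (-2a)`, `exp (-a-k)`, `exp (-k)` (`93 = 3 * 31`, `33 = 3 * 11`). If `2a < k` the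
term `76 z^2` is strictly dominant, if `2a > k` the term `33` is; `2a = k` contradicts `k` odd.
(c) So `w z = 1`. Put `δ = 11 / z`: `3 δ^3 - 93 δ^2 + 836 δ - 2299 = 0`. At a place `v` with
`v 3 = 1` this gives `v δ ≤ 1`; at `w`, `w δ = w 11 = 1`. So `δ` is an algebraic integer. The
polynomial `3 X^3 - 93 X^2 + 836 X - 2299` has no rational root (candidates ± 1, 11, 19, 121, 209,
2299 over 1, 3; or no root modulo a suitable prime), so it is irreducible over ℚ and
`minpoly ℚ δ = X^3 - 31 X^2 + (836/3) X - 2299/3`, which must have integer coefficients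
(`minpoly.isIntegrallyClosed_eq_field_fractions'`): contradiction. -/

namespace Pool.Agent.S5M

open NumberField

open Polynomial in
private theorem integral_cubic {F : Type*} [Field F] (a b c : ℤ) (x : F)
    (h : x ^ 3 + a * x ^ 2 + b * x + c = 0) : IsIntegral ℤ x := by
  refine ⟨X ^ 3 + C a * X ^ 2 + C b * X + C c, by monicity!, ?_⟩
  simp only [eval₂_add, eval₂_mul, eval₂_pow, eval₂_X, eval₂_C]
  simpa only [eq_intCast] using h

open Polynomial in
private theorem irr_aux : Irreducible (X ^ 3 + C (-31 : ℚ) * X ^ 2 + C (836 / 3 : ℚ) * X +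
    C (-2299 / 3 : ℚ)) := by
  set p : ℚ[X] := X ^ 3 + C (-31 : ℚ) * X ^ 2 + C (836 / 3 : ℚ) * X + C (-2299 / 3 : ℚ) with hp
  have hdeg : p.natDegree = 3 := by rw [hp]; compute_degree!
  rw [irreducible_iff_roots_eq_zero_of_degree_le_three (by rw [hdeg]; norm_num)
    (by rw [hdeg])]
  refine Multiset.eq_zero_of_forall_notMem fun r hr => ?_
  have h1 : p.IsRoot r := isRoot_of_mem_roots hr
  have h2 : r ^ 3 + -31 * r ^ 2 + 836 / 3 * r + -2299 / 3 = 0 := by
    have h3 := h1
    rw [IsRoot, hp] at h3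
    simpa using h3
  have h3 : IsIntegral ℤ (3 * r) := by
    refine integral_cubic (-93) 2508 (-20691) _ ?_
    push_cast
    linear_combination 27 * h2
  obtain ⟨t, ht⟩ := IsIntegrallyClosed.isIntegral_iff.1 h3
  have h4 : (t : ℚ) = 3 * r := by simpa using ht
  have h5 : (t : ℚ) ^ 3 - 93 * t ^ 2 + 2508 * t - 20691 = 0 := by
    rw [h4]
    linear_combination 27 * h2
  have h6 : t ^ 3 - 93 * t ^ 2 + 2508 * t - 20691 = 0 := by exact_mod_cast h5
  rcases Int.even_or_odd' t with ⟨s, hs | hs⟩
  · subst hs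
    ring_nf at h6
    omega
  · subst hs
    ring_nf at h6
    omega

open Polynomial in
private theorem no_int {F : Type*} [Field F] [NumberField F] {δ : F} (hδ : IsIntegral ℤ δ)
    (h : 3 * δ ^ 3 - 93 * δ ^ 2 + 836 * δ - 2299 = 0) : False := by
  have h3 : (3 : F) ≠ 0 := by norm_num
  have h1 : aeval δ (X ^ 3 + C (-31 : ℚ) * X ^ 2 + C (836 / 3 : ℚ) * X +
      C (-2299 / 3 : ℚ)) = 0 := by
    simp only [map_add, map_mul, map_pow, aeval_X, aeval_C]
    simp only [eq_ratCast]
    push_cast
    field_simp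
    linear_combination h
  have h2 := minpoly.eq_of_irreducible_of_monic irr_aux h1 (by monicity!)
  rw [minpoly.isIntegrallyClosed_eq_field_fractions' ℚ hδ] at h2
  have h4 := congrArg (fun q => coeff q 0) h2
  simp only [coeff_map] at h4
  simp at h4
  have h5 : (-2299 : ℚ) = 3 * ((minpoly ℤ δ).coeff 0 : ℚ) := by
    rw [← h4]
    norm_num
  have h6 : (-2299 : ℤ) = 3 * (minpoly ℤ δ).coeff 0 := by exact_mod_cast h5
  omega

theorem split3 {F : Type*} [Field F] [NumberField F] (h : OddPrime F 3) (z : F) :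
    19 * z ^ 3 - 76 * z ^ 2 + 93 * z - 33 ≠ 0 := by
  intro hz
  obtain ⟨P, hP, k, hk, hPk⟩ := h
  have hk0 : k ≠ 0 := by rintro rfl; simp at hk
  have h3P : (3 : 𝓞 F) ∈ P ^ k := by rw [← hPk]; exact Ideal.mem_span_singleton_self _
  have h3 : (3 : 𝓞 F) ∈ P := Ideal.pow_le_self hk0 h3P
  have hne : P ≠ ⊥ := by
    rintro rfl
    rw [← Ideal.zero_eq_bot, zero_pow hk0] at h3P
    have : (3 : 𝓞 F) = 0 := h3P
    norm_num at this
  have h1P : (1 : 𝓞 F) ∉ P := fun h => hP.ne_top ((Ideal.eq_top_iff_one _).2 h)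
  -- the integer `y = 19 z`
  have hyi : IsIntegral ℤ (19 * z) := by
    refine integral_cubic (-76) 1767 (-11913) _ ?_
    push_cast
    linear_combination 361 * hz
  obtain ⟨y, hy⟩ : ∃ y : 𝓞 F, algebraMap (𝓞 F) F y = 19 * z := ⟨⟨19 * z, hyi⟩, rfl⟩
  have hye : y ^ 2 * (y - 76) = -(3 * (589 * y - 3971)) := by
    apply FaithfulSMul.algebraMap_injective (𝓞 F) F
    simp only [map_mul, map_pow, map_sub, map_neg, map_ofNat, hy]
    linear_combination 361 * hz
  by_cases hyP : y ∈ P
  · have h76 : y - 76 ∉ P := by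
      intro h
      refine h1P ?_
      have h4 : (1 : 𝓞 F) = (y - (y - 76)) - 3 * 25 := by ring
      rw [h4]
      exact P.sub_mem (P.sub_mem hyP h) (P.mul_mem_right _ h3)
    have h39 : 589 * y - 3971 ∉ P := by
      intro h
      refine h1P ?_
      have h4 : (1 : 𝓞 F) = 3 * 1324 - (589 * y - (589 * y - 3971)) := by ring
      rw [h4]
      exact P.sub_mem (P.mul_mem_right _ h3) (P.sub_mem (P.mul_mem_left _ hyP) h)
    have h5 : (y - 76) * y ^ 2 ∈ P ^ k := by
      rw [mul_comm, hye]
      exact (P ^ k).neg_mem ((P ^ k).mul_mem_right _ h3P)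
    have h6 : y ^ 2 ∈ P ^ k := (Ideal.IsPrime.mul_mem_pow P h5).resolve_left h76
    have h7 : y ^ 2 ∈ P ^ (k + 1) := by
      obtain ⟨j, hj⟩ := hk
      have hprime : Prime P := Ideal.prime_of_isPrime hne hP
      have h8 : P ^ k ∣ (Ideal.span {y}) ^ 2 := by
        rw [Ideal.dvd_iff_le, Ideal.span_singleton_pow, Ideal.span_singleton_le_iff_mem]
        exact h6
      have h9 : P ^ (j + 1) ∣ Ideal.span {y} := by
        rw [pow_dvd_iff_le_emultiplicity] at h8 ⊢
        rw [emultiplicity_pow hprime, hj] at h8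
        generalize emultiplicity P (Ideal.span {y}) = m at h8 ⊢
        cases m with
        | top => exact le_top
        | coe m =>
          have h10 : 2 * j + 1 ≤ 2 * m := by exact_mod_cast h8
          have h11 : j + 1 ≤ m := by omega
          exact_mod_cast h11
      have h12 : y ∈ P ^ (j + 1) := by
        rw [Ideal.dvd_iff_le, Ideal.span_singleton_le_iff_mem] at h9
        exact h9
      have h13 : k + 1 = (j + 1) * 2 := by omega
      rw [h13, pow_mul]
      exact Ideal.pow_mem_pow h12 2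
    have h8 : (589 * y - 3971) * 3 ∈ P ^ (k + 1) := by
      have h9 : (589 * y - 3971) * 3 = -(y ^ 2 * (y - 76)) := by rw [hye]; ring
      rw [h9]
      exact (P ^ (k + 1)).neg_mem ((P ^ (k + 1)).mul_mem_right _ h7)
    have h9 : (3 : 𝓞 F) ∈ P ^ (k + 1) := (Ideal.IsPrime.mul_mem_pow P h8).resolve_left h39
    have h10 : P ^ k ≤ P ^ (k + 1) := by
      rw [← hPk, Ideal.span_singleton_le_iff_mem]
      exact h9
    exact absurd h10 (not_le_of_gt (Ideal.pow_succ_lt_pow hne k))
  · have hz0 : z ≠ 0 := by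
      rintro rfl
      norm_num at hz
    have hti : IsIntegral ℤ (33 / z) := by
      refine integral_cubic (-93) 2508 (-20691) _ ?_
      push_cast
      field_simp
      linear_combination -1089 * hz
    obtain ⟨T, hT⟩ : ∃ T : 𝓞 F, algebraMap (𝓞 F) F T = 33 / z := ⟨⟨33 / z, hti⟩, rfl⟩
    have hTy : y * T = 3 * 209 := by
      apply FaithfulSMul.algebraMap_injective (𝓞 F) F
      simp only [map_mul, map_ofNat, hy, hT]
      field_simp
      norm_num
    have h4 : y * T ∈ P ^ k := by
      rw [hTy]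
      exact (P ^ k).mul_mem_right _ h3P
    have h5 : T ∈ P ^ k := (Ideal.IsPrime.mul_mem_pow P h4).resolve_left hyP
    rw [← hPk, Ideal.mem_span_singleton] at h5
    obtain ⟨D, hD⟩ := h5
    have hDz : (3 : F) * algebraMap (𝓞 F) F D = 33 / z := by
      rw [← hT, hD]
      simp only [map_mul, map_ofNat]
    refine no_int (δ := algebraMap (𝓞 F) F D) D.isIntegral_coe ?_
    have hD' : algebraMap (𝓞 F) F D = 11 / z := by
      have h3' : (3 : F) ≠ 0 := by norm_num
      apply mul_left_cancel₀ h3'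
      rw [hDz]
      ring
    rw [hD']
    field_simp
    linear_combination -121 * hz

end Pool.Agent.S5M
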