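import Pool.Agent.S5M.PtsE1
import Pool.Agent.S5M.SqD
import Pool.Agent.S5M.Split3
import Pool.Agent.S5M.Cubics
import Pool.Agent.S5M.Emb

/-! # Fields containing the square root of 5: `X(b3, ns5)` (helper34)

PROOF. The equation is `(3 z^2 - 6 z + 1) u^2 - z (2 z^2 - 6 z + 5) u + (z^4 - 3 z^3 + 6 z - 3) = 0`.
`y = 2 u (3 z^2 - 6 z + 1) - z (2 z^2 - 6 z + 5)`: `y^2 = -(z^2 - 4) (2 z - 1) P` with
`P = 4 z^3 - 16 z^2 + 18 z - 3 ≠ 0` (`cub_P`). Put `X = 24 - 15 (5 - 2 z) / P`,
`Y = 12 s y (z - 1) (z - 3) (4 z - 7) / P^2`; `X P = 3 (2 z - 1) (4 z - 7)^2`,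
`(X - 9) P = 60 (z - 1)^2 (z - 2)`, `(X - 25) P = -4 (z - 3)^2 (z + 2)`, so
`Y^2 = X (X - 9) (X - 25)` and `pts_E1` applies.
`X = 0`: `z = 1/2` (then `(u + 1/2)^2 = 0`) or `z = 7/4` (then `(32 y / 15)^2 = 10`: `nsq_10`).
`X = 9`: `z = 1` (`(2 u - 1) (u + 1) = 0`) or `z = 2` (`(u - 1)^2 = 0`).
`X = 25`: `z = -2` (`(u + 1)^2 = 0`) or `z = 3` (`2 u^2 - 3 u + 3 = 0`, impossible in a real
embedding). `X = 5`: `19 z^3 - 76 z^2 + 93 z - 33 = 0`: `split3`. `X = 45`: `cub_45`.
`X = 75 ± 30 s`: `cub_Z` for `± s`. `X = 15 + 6 s'`, `s' = ± s`: `(9 - 6 s') P - 75 + 30 z = 0`, i.e.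
`(z - (1 - s')/2) ((36 - 24 s') z^2 + (-66 + 66 s') z - 6 - 42 s') = 0`. The quadratic factor has
discriminant `6840 - 3240 s'`, negative in an embedding with `s' ↦ √5` (`exists_emb`).
`z = (1 - s')/2`: `z^2 = z + 1` and the equation becomes `(4 - 3 z) (u^2 + u - 1) = 0`,
`4 - 3 z = (5 + 3 s')/2 ≠ 0`: contradiction to `hu`. -/

namespace Pool.Agent.S5M

open NumberField

variable {F : Type*} [Field F] [NumberField F] [IsTotallyReal F] {s : 𝓞 F}

private theorem coreE_aux {r : F} (hr : r ^ 2 = 5) {z u : F} (hu : u ^ 2 + u - 1 ≠ 0)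
    (e : z ^ 4 - (3 + 2 * u) * z ^ 3 + (3 * u ^ 2 + 6 * u) * z ^ 2 +
      (6 - 5 * u - 6 * u ^ 2) * z + (u ^ 2 - 3) = 0)
    (h : (9 - 6 * r) * (4 * z ^ 3 - 16 * z ^ 2 + 18 * z - 3) - 75 + 30 * z = 0) : False := by
  have hf : (2 * z - (1 - r)) * ((36 - 24 * r) * z ^ 2 + (-66 + 66 * r) * z - 6 - 42 * r) = 0 := by
    linear_combination 2 * h + (- 24 * z ^ 2 + 66 * z - 42) * hr
  rcases mul_eq_zero.1 hf with h1 | h1
  · have hz : z ^ 2 = z + 1 := by
      have hz' : z = (1 - r) / 2 := by linear_combination h1 / 2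
      rw [hz']
      field_simp
      linear_combination hr
    have h2 : (4 - 3 * z) * (u ^ 2 + u - 1) = 0 := by
      linear_combination e - (z ^ 2 - 2 * z - 2 * u * z + 3 * u ^ 2 + 4 * u - 1) * hz
    rcases mul_eq_zero.1 h2 with h3 | h3
    · have h4 : (20 : F) = 0 := by
        have hz' : 2 * z = 1 - r := by linear_combination h1
        have h5 : 5 + 3 * r = 0 := by linear_combination 2 * h3 + 3 * hz'
        linear_combination (3 * r - 5) * h5 - 9 * hr
      norm_num at h4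
    · exact hu h3
  · obtain ⟨φ, hφ⟩ := exists_emb hr (ε := √5) (Real.sq_sqrt (by norm_num))
    have h2 := congrArg φ h1
    simp only [map_add, map_sub, map_mul, map_pow, map_neg, map_ofNat, map_zero, hφ] at h2
    obtain ⟨b1, b2, b3⟩ := cubics_sqrt5
    have h3 : (2 * (36 - 24 * √5) * φ z + (-66 + 66 * √5)) ^ 2 = 6840 - 3240 * √5 := by
      linear_combination 4 * (36 - 24 * √5) * h2 + (324 : ℝ) * b3
    nlinarith [sq_nonneg (2 * (36 - 24 * √5) * φ z + (-66 + 66 * √5))]

theorem coreE (H : HypS F s) {z u : F} (hu : u ^ 2 + u - 1 ≠ 0)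
    (e : z ^ 4 - (3 + 2 * u) * z ^ 3 + (3 * u ^ 2 + 6 * u) * z ^ 2 +
      (6 - 5 * u - 6 * u ^ 2) * z + (u ^ 2 - 3) = 0) :
    u = 1 ∨ u = -1 ∨ u = -1 / 2 ∨ u = 1 / 2 := by
  have hs := H.sqF
  have hP := cub_P z
  obtain ⟨y, hy⟩ : ∃ y, y = 2 * u * (3 * z ^ 2 - 6 * z + 1) - z * (2 * z ^ 2 - 6 * z + 5) :=
    ⟨_, rfl⟩
  have hy2 : y ^ 2 = -((z ^ 2 - 4) * (2 * z - 1)) * (4 * z ^ 3 - 16 * z ^ 2 + 18 * z - 3) := by
    rw [hy]
    linear_combination 4 * (3 * z ^ 2 - 6 * z + 1) * e
  obtain ⟨P, hPd⟩ : ∃ P, P = 4 * z ^ 3 - 16 * z ^ 2 + 18 * z - 3 := ⟨_, rfl⟩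
  rw [← hPd] at hP hy2
  have hX1 : 3 * (2 * z - 1) * (4 * z - 7) ^ 2 = 24 * P - 15 * (5 - 2 * z) := by
    rw [hPd]; ring
  have hX2 : 60 * (z - 1) ^ 2 * (z - 2) = 15 * P - 15 * (5 - 2 * z) := by
    rw [hPd]; ring
  have hX3 : -4 * (z - 3) ^ 2 * (z + 2) = -P - 15 * (5 - 2 * z) := by
    rw [hPd]; ring
  have hE := pts_E1 H (X := (24 * P - 15 * (5 - 2 * z)) / P)
    (Y := 12 * s * y * (z - 1) * (z - 3) * (4 * z - 7) / P ^ 2) (by
      have a1 : (24 * P - 15 * (5 - 2 * z)) / P - 9 = (15 * P - 15 * (5 - 2 * z)) / P := by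
        field_simp
        ring
      have a2 : (24 * P - 15 * (5 - 2 * z)) / P - 25 = (-P - 15 * (5 - 2 * z)) / P := by
        field_simp
        ring
      rw [a1, a2, ← hX1, ← hX2, ← hX3, div_pow, div_mul_div_comm, div_mul_div_comm,
        div_eq_div_iff (pow_ne_zero 2 (pow_ne_zero 2 hP)) (mul_ne_zero (mul_ne_zero hP hP) hP)]
      have a3 : (12 * (s : F) * y * (z - 1) * (z - 3) * (4 * z - 7)) ^ 2 =
          144 * (s : F) ^ 2 * y ^ 2 * ((z - 1) * (z - 3) * (4 * z - 7)) ^ 2 := by ring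
      rw [a3, hs, hy2]
      ring)
  have key : (24 * P - 15 * (5 - 2 * z)) / P * P = 24 * P - 15 * (5 - 2 * z) :=
    div_mul_cancel₀ _ hP
  generalize (24 * P - 15 * (5 - 2 * z)) / P = X at hE key
  rcases hE with h | h | h | h | h | h | h | h | h <;> rw [h] at key
  · -- `X = 0`
    rw [zero_mul, ← hX1] at key
    rcases mul_eq_zero.1 key.symm with h1 | h1
    · have hz : z = 1 / 2 := by
        rcases mul_eq_zero.1 h1 with h2 | h2
        · norm_num at h2
        · linear_combination h2 / 2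
      rw [hz] at e
      have h2 : (u + 1 / 2) ^ 2 = 0 := by linear_combination (-4 / 5) * e
      have h3 := pow_eq_zero_iff (two_ne_zero) |>.mp h2
      right; right; left
      linear_combination h3
    · exfalso
      have h2 := pow_eq_zero_iff (two_ne_zero) |>.mp h1
      have hz : z = 7 / 4 := by linear_combination h2 / 4
      rw [hPd, hz] at hy2
      refine nsq_10 H.three ⟨32 * y / 15, ?_⟩
      linear_combination (-(32 / 15) ^ 2) * hy2
  · -- `X = 9`
    have h1 : 60 * (z - 1) ^ 2 * (z - 2) = 0 := by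
      rw [hX2]; linear_combination -key
    rcases mul_eq_zero.1 h1 with h2 | h2
    · have h3 : z = 1 := by
        rcases mul_eq_zero.1 h2 with h4 | h4
        · norm_num at h4
        · have := pow_eq_zero_iff (two_ne_zero) |>.mp h4
          linear_combination this
      rw [h3] at e
      have h5 : (2 * u - 1) * (u + 1) = 0 := by linear_combination -e
      rcases mul_eq_zero.1 h5 with h6 | h6
      · right; right; right
        linear_combination h6 / 2
      · right; left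
        linear_combination h6
    · have h3 : z = 2 := by linear_combination h2
      rw [h3] at e
      have h5 : (u - 1) ^ 2 = 0 := by linear_combination e
      have h6 := pow_eq_zero_iff (two_ne_zero) |>.mp h5
      left
      linear_combination h6
  · -- `X = 25`
    have h1 : -4 * (z - 3) ^ 2 * (z + 2) = 0 := by
      rw [hX3]; linear_combination -key
    rcases mul_eq_zero.1 h1 with h2 | h2
    · exfalso
      have h3 : z = 3 := by
        rcases mul_eq_zero.1 h2 with h4 | h4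
        · norm_num at h4
        · have := pow_eq_zero_iff (two_ne_zero) |>.mp h4
          linear_combination this
      rw [h3] at e
      have h5 : 2 * u ^ 2 - 3 * u + 3 = 0 := by linear_combination e / 5
      obtain ⟨φ, -⟩ := exists_emb hs (ε := √5) (Real.sq_sqrt (by norm_num))
      have h6 := congrArg φ h5
      simp only [map_add, map_sub, map_mul, map_pow, map_ofNat, map_zero] at h6
      nlinarith [sq_nonneg (4 * φ u - 3)]
    · have h3 : z = -2 := by linear_combination h2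
      rw [h3] at e
      have h5 : (u + 1) ^ 2 = 0 := by linear_combination e / 25
      have h6 := pow_eq_zero_iff (two_ne_zero) |>.mp h5
      right; left
      linear_combination h6
  · -- `X = 5`
    exfalso
    refine split3 H.three (z := z) ?_
    rw [hPd] at key
    linear_combination (-1 / 4) * key
  · -- `X = 45`
    exfalso
    refine cub_45 z ?_
    rw [hPd] at key
    linear_combination (1 / 12) * key
  · -- `X = 75 + 30 s`
    exfalso
    refine cub_Z hs z ?_
    rw [hPd] at key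
    linear_combination (1 / 6) * key
  · -- `X = 75 - 30 s`
    exfalso
    refine cub_Z (s := -(s : F)) (by rw [neg_sq, hs]) z ?_
    rw [hPd] at key
    linear_combination (1 / 6) * key
  · -- `X = 15 + 6 s`
    exfalso
    refine coreE_aux hs hu e ?_
    rw [← hPd]
    linear_combination -key
  · -- `X = 15 - 6 s`
    exfalso
    refine coreE_aux (r := -(s : F)) (by rw [neg_sq, hs]) hu e ?_
    rw [← hPd]
    linear_combination -key

end Pool.Agent.S5M
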