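import Pool.Agent.S5M.PtsE2
import Pool.Agent.S5M.Nonsq
import Pool.Agent.S5M.Cubics
import Pool.Agent.S5M.Emb
import Pool.Agent.S5M.IdDF

/-! # Fields containing the square root of 5: `X(s3, ns5)` (helper34)

PROOF of `coreF1`. `m = w - u`, `m ≠ 1`. `hk`: `6 u^2 + 6 (m + 1) u + (m - 1) (2 m + 3 + k) = 0`;
`e`: `(3 m - 2) u^2 + 3 m^2 u + m^3 + 1 = 0`. Hence
`6 (m - 2) u = m^2 + 11 m - k (3 m - 2) (m - 1)` and, inserting this in `6 (m - 2)^2` times the first
equation, `(m - 1) K = 0`,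
`K = 19 m^3 + 59 m^2 + 108 m + 72 - 2 k (12 m^3 + 13 m^2 - 22 m) + k^2 (3 m - 2)^2 (m - 1)`.
`k = 0`: `cub_0`. `k = ± s`: `K = 2 * (cubic of cub_K1)` for `± s`. `k = -(5 + 2 s')`, `s' = ± s`:
`K = 4 * (cubic of cub_K3)`. `k = 5 + 2 s'`:
`K = (m - (1 + s')/2) ((304 + 132 s') m^2 - (534 + 254 s') m + 146 + 14 s')`; the discriminant of
the second factor is `393240 + 177160 s'`, negative in an embedding with `s' ↦ -√5`
(`exists_emb`); `m = (1 + s')/2` gives `u = -(1 + s')/2`, `u^2 + u - 1 = 0`: contradiction.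
PROOF of `coreF`. `B = w - u - 1`. If `B = 0`, `(u + 1) (u + 2) = 0`; `u = -2`: `w = -1`,
`q^2 = 68229 = 57^2 * 21`: `nsq_21`. Let `B ≠ 0`. `id_F`. If `P = 0` then by `id_Fnorm`
`(2 u + 3) C (28 u^4 - ...)^2 = 0`: done or `u = -3/2`, `w^3 = 1/8`, `w = 1/2` (real embedding),
`16 q^2 = 56889 = 21^2 * 129`: `nsq_129`. Let `P ≠ 0`. `f = A / (s B)`, `R = M q / (5 B^2 P)`:
`R^2 = f^4 + 62 f^2 + 1`; `X = (f^2 - 1 + R)/2`, `Y = f (X + 16)`: `X^2 + (1 - f^2) X - 16 f^2 = 0`,
i.e. `f^2 (X + 16) = X (X + 1)`, so `Y^2 = X (X + 1) (X + 16)`. `pts_E2`: `X = 0, -1`: `f = 0`;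
`X = -16`: contradiction; `X = 4, -4`: `f^2 = 1`; `X = 14 + 6 s'`: `f^2 = 9 + 4 s' = (2 + s')^2`;
`X = -6 + 2 s'`: `f^2 = 9 - 4 s' = (2 - s')^2`. So `A = s f B = k B` with `k` as in `coreF1`. -/

namespace Pool.Agent.S5M

open NumberField

variable {F : Type*} [Field F] [NumberField F] [IsTotallyReal F] {s : 𝓞 F}

omit [NumberField F] [IsTotallyReal F] in
private lemma coreF_K {w u k : F} (e : w ^ 3 = u ^ 3 + 2 * u ^ 2 - 1) (hB : w - u - 1 ≠ 0)
    (hk : 3 - 5 * u - w - 2 * u ^ 2 - 2 * u * w - 2 * w ^ 2 = k * (w - u - 1)) :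
    6 * ((w - u) - 2) * u = (w - u) ^ 2 + 11 * (w - u) - k * (3 * (w - u) - 2) * ((w - u) - 1) ∧
    19 * (w - u) ^ 3 + 59 * (w - u) ^ 2 + 108 * (w - u) + 72 -
      2 * k * (12 * (w - u) ^ 3 + 13 * (w - u) ^ 2 - 22 * (w - u)) +
      k ^ 2 * (3 * (w - u) - 2) ^ 2 * ((w - u) - 1) = 0 := by
  have h1 : 6 * ((w - u) - 2) * u =
      (w - u) ^ 2 + 11 * (w - u) - k * (3 * (w - u) - 2) * ((w - u) - 1) := by
    linear_combination (-(3 * (w - u) - 2)) * hk - 6 * e
  refine ⟨h1, ?_⟩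
  apply mul_left_cancel₀ hB
  rw [mul_zero]
  linear_combination (-6 * ((w - u) - 2) ^ 2) * hk -
    ((w - u) ^ 2 + 11 * (w - u) - k * (3 * (w - u) - 2) * ((w - u) - 1) +
      6 * ((w - u) - 2) * u + 6 * ((w - u) + 1) * ((w - u) - 2)) * h1

private lemma coreF_case {w u k t : F} (ht : t ^ 2 = 5) (e : w ^ 3 = u ^ 3 + 2 * u ^ 2 - 1)
    (hC : u ^ 2 + u - 1 ≠ 0) (hB : w - u - 1 ≠ 0)
    (hk : 3 - 5 * u - w - 2 * u ^ 2 - 2 * u * w - 2 * w ^ 2 = k * (w - u - 1))
    (h : k = t ∨ k = 5 + 2 * t ∨ k = -(5 + 2 * t)) : False := by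
  obtain ⟨h1, h2⟩ := coreF_K e hB hk
  set m := w - u with hm
  rcases h with h | h | h
  · refine cub_K1 ht m ?_
    subst h
    have : (2 : F) ≠ 0 := two_ne_zero
    apply mul_left_cancel₀ this
    linear_combination h2 - (3 * m - 2) ^ 2 * (m - 1) * ht
  · subst h
    have h3 : (m - (1 + t) / 2) * ((304 + 132 * t) * m ^ 2 - (534 + 254 * t) * m +
        (146 + 14 * t)) = 0 := by
      linear_combination h2 + (-4 * (3 * m - 2) ^ 2 * (m - 1) - 66 * m ^ 2 + 127 * m - 7) * ht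
    rcases mul_eq_zero.mp h3 with h4 | h4
    · have h5 : m = (1 + t) / 2 := by linear_combination h4
      apply hC
      have h6 : t - 3 ≠ 0 := by
        intro h0
        have h7 : t = 3 := by linear_combination h0
        rw [h7] at ht
        norm_num at ht
      have h8 : u = -(1 + t) / 2 := by
        apply mul_left_cancel₀ h6
        rw [h5] at h1
        linear_combination (1 / 3) * h1 - (t / 2) * ht
      rw [h8]
      linear_combination (1 / 4) * ht
    · obtain ⟨φ, hφ⟩ := exists_emb ht (ε := -Real.sqrt 5)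
        (by rw [neg_sq, Real.sq_sqrt (by norm_num)])
      obtain ⟨g1, g2, g3⟩ := cubics_sqrt5
      have h5 : (2 * (304 + 132 * t) * m - (534 + 254 * t)) ^ 2 = 393240 + 177160 * t := by
        linear_combination 4 * (304 + 132 * t) * h4 + (254 ^ 2 - 4 * 132 * 14) * ht
      have h6 := congrArg φ h5
      rw [map_pow, map_add, map_mul, map_ofNat, map_ofNat, hφ] at h6
      nlinarith [sq_nonneg (φ (2 * (304 + 132 * t) * m - (534 + 254 * t)))]
  · refine cub_K3 ht m ?_
    subst h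
    have : (4 : F) ≠ 0 := by norm_num
    apply mul_left_cancel₀ this
    linear_combination h2 - 4 * (3 * m - 2) ^ 2 * (m - 1) * ht

theorem coreF1 (H : HypS F s) {w u k : F} (e : w ^ 3 = u ^ 3 + 2 * u ^ 2 - 1)
    (hC : u ^ 2 + u - 1 ≠ 0) (hB : w - u - 1 ≠ 0)
    (hk : 3 - 5 * u - w - 2 * u ^ 2 - 2 * u * w - 2 * w ^ 2 = k * (w - u - 1))
    (h : k = 0 ∨ k = s ∨ k = -s ∨ k = 5 + 2 * s ∨ k = 5 - 2 * s ∨ k = -(5 + 2 * s) ∨
      k = -(5 - 2 * s)) : False := by
  have hs := H.sqF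
  have hs' : (-(s : F)) ^ 2 = 5 := by rw [neg_sq, hs]
  rcases h with h | h | h | h | h | h | h
  · obtain ⟨-, h2⟩ := coreF_K e hB hk
    rw [h] at h2
    exact cub_0 (w - u) (by linear_combination h2)
  · exact coreF_case hs e hC hB hk (Or.inl h)
  · exact coreF_case hs' e hC hB hk (Or.inl h)
  · exact coreF_case hs e hC hB hk (Or.inr (Or.inl h))
  · exact coreF_case hs' e hC hB hk (Or.inr (Or.inl (by rw [h]; ring)))
  · exact coreF_case hs e hC hB hk (Or.inr (Or.inr h))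
  · exact coreF_case hs' e hC hB hk (Or.inr (Or.inr (by rw [h]; ring)))

theorem coreF (H : HypS F s) {w u q V : F} (hq : q ≠ 0) (e : w ^ 3 = u ^ 3 + 2 * u ^ 2 - 1)
    (hC : u ^ 2 + u - 1 ≠ 0) (hV : V = 5 * (2 * u + 1) * (2 * u ^ 2 - 3 * u + 3) * w)
    (e' : V ^ 2 + 12 * V * (u ^ 2 + u - 1) ^ 2 + 144 * (u ^ 2 + u - 1) ^ 4 = q ^ 2) :
    u = -1 ∨ 28 * u ^ 4 - 34 * u ^ 3 - 63 * u ^ 2 - 36 * u - 27 = 0 := by
  have hs := H.sqF
  have hs0 : (s : F) ≠ 0 := by
    intro h0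
    rw [h0] at hs
    norm_num at hs
  by_cases hB : w - u - 1 = 0
  · have hw : w = u + 1 := by linear_combination hB
    have h1 : (u + 1) * (u + 2) = 0 := by
      rw [hw] at e
      linear_combination e
    rcases mul_eq_zero.mp h1 with h2 | h2
    · exact Or.inl (by linear_combination h2)
    · exfalso
      have hu : u = -2 := by linear_combination h2
      rw [hw, hu] at hV
      rw [hV, hu] at e'
      refine nsq_21 H ⟨q / 57, ?_⟩
      linear_combination (1 / 3249) * e'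
  have hid := id_F w u e _ _ _ V _ _ rfl rfl rfl hV rfl rfl
  rw [e'] at hid
  set A := 3 - 5 * u - w - 2 * u ^ 2 - 2 * u * w - 2 * w ^ 2 with hA
  set P := (-6 + 2 * u + 16 * u ^ 2 - 2 * u ^ 3 - 6 * u ^ 4) +
      w * (-12 - 17 * u - 9 * u ^ 2 + 4 * u ^ 3) + w ^ 2 * (3 - 13 * u + 2 * u ^ 2) with hP
  set M := (24 + 8 * u + 4 * u ^ 2 + 8 * u ^ 3) + w * (24 + 32 * u + 8 * u ^ 2) +
      w ^ 2 * (48 + 8 * u) with hM
  by_cases hP0 : P = 0
  · have h1 := id_Fnorm w u e P hP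
    rw [hP0, zero_mul] at h1
    have h2 : (2 * u + 3) * (u ^ 2 + u - 1) *
        (28 * u ^ 4 - 34 * u ^ 3 - 63 * u ^ 2 - 36 * u - 27) ^ 2 = 0 := by
      linear_combination h1
    rcases mul_eq_zero.mp h2 with h3 | h3
    · rcases mul_eq_zero.mp h3 with h4 | h4
      · exfalso
        have hu : u = -3 / 2 := by linear_combination h4 / 2
        have hw : (w - 1 / 2) * (w ^ 2 + w / 2 + 1 / 4) = 0 := by
          rw [hu] at e
          linear_combination e
        have hw2 : w = 1 / 2 := by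
          rcases mul_eq_zero.mp hw with h5 | h5
          · linear_combination h5
          · exfalso
            obtain ⟨φ⟩ := Pool.Agent.H42M.exists_real F
            have h6 : (w + 1 / 4) ^ 2 = -(3 / 16) := by linear_combination h5
            have h7 := congrArg φ h6
            rw [map_pow, map_neg, map_div₀, map_ofNat, map_ofNat] at h7
            nlinarith [sq_nonneg (φ (w + 1 / 4))]
        rw [hu, hw2] at hV
        rw [hV, hu] at e'
        refine nsq_129 H ⟨4 * q / 21, ?_⟩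
        linear_combination (16 / 441) * e'
      · exact absurd h4 hC
    · exact Or.inr (pow_eq_zero_iff two_ne_zero |>.mp h3)
  exfalso
  have hf0 : ∃ f : F, A = s * f * (w - u - 1) := ⟨A / (s * (w - u - 1)), by field_simp⟩
  obtain ⟨f, hf⟩ := hf0
  obtain ⟨R, hR⟩ : ∃ R : F, M * q = 5 * (w - u - 1) ^ 2 * P * R :=
    ⟨M * q / (5 * (w - u - 1) ^ 2 * P), by field_simp⟩
  have hR2 : R ^ 2 = f ^ 4 + 62 * f ^ 2 + 1 := by
    have h1 : (25 * (w - u - 1) ^ 4 * P ^ 2 : F) ≠ 0 :=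
      mul_ne_zero (mul_ne_zero (by norm_num) (pow_ne_zero _ hB)) (pow_ne_zero _ hP0)
    apply mul_left_cancel₀ h1
    have h2 : (25 * (w - u - 1) ^ 4 * P ^ 2 : F) * R ^ 2 = M ^ 2 * q ^ 2 := by
      calc (25 * (w - u - 1) ^ 4 * P ^ 2 : F) * R ^ 2 = (5 * (w - u - 1) ^ 2 * P * R) ^ 2 := by ring
        _ = M ^ 2 * q ^ 2 := by rw [← hR]; ring
    rw [h2, ← hid, hf]
    linear_combination (P ^ 2 * (w - u - 1) ^ 4 * (f ^ 4 * (s ^ 2 + 5) + 310 * f ^ 2)) * hs
  obtain ⟨X, hX⟩ : ∃ X : F, 2 * X = f ^ 2 - 1 + R := ⟨(f ^ 2 - 1 + R) / 2, by ring⟩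
  have h3 : f ^ 2 * (X + 16) = X * (X + 1) := by
    have : (4 : F) ≠ 0 := by norm_num
    apply mul_left_cancel₀ this
    linear_combination -hR2 - (2 * X - f ^ 2 + 1 + R) * hX
  have key : ∀ k : F, k = s * f → (k = 0 ∨ k = s ∨ k = -s ∨ k = 5 + 2 * s ∨ k = 5 - 2 * s ∨
      k = -(5 + 2 * s) ∨ k = -(5 - 2 * s)) → False := fun k hk h =>
    coreF1 H e hC hB (k := k) (by rw [← hA, hf, hk]) h
  have ff : ∀ c : F, f ^ 2 = c ^ 2 → f = c ∨ f = -c := fun c hc => sq_eq_sq_iff_eq_or_eq_neg.mp hc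
  have e1 : (f * (X + 16)) ^ 2 = X * (X + 1) * (X + 16) := by
    linear_combination (X + 16) * h3
  rcases pts_E2 H e1 with h | h | h | h | h | h | h | h | h
  · rw [h] at h3
    have h4 : f = 0 := by
      have : f ^ 2 = 0 := by linear_combination h3 / 16
      exact pow_eq_zero_iff two_ne_zero |>.mp this
    exact key 0 (by rw [h4, mul_zero]) (Or.inl rfl)
  · rw [h] at h3
    have h4 : f = 0 := by
      have : f ^ 2 = 0 := by linear_combination h3 / 15
      exact pow_eq_zero_iff two_ne_zero |>.mp this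
    exact key 0 (by rw [h4, mul_zero]) (Or.inl rfl)
  · rw [h] at h3
    norm_num at h3
  · rw [h] at h3
    rcases ff 1 (by linear_combination h3 / 20) with h4 | h4
    · exact key s (by rw [h4, mul_one]) (Or.inr (Or.inl rfl))
    · exact key (-s) (by rw [h4]; ring) (Or.inr (Or.inr (Or.inl rfl)))
  · rw [h] at h3
    rcases ff 1 (by linear_combination h3 / 12) with h4 | h4
    · exact key s (by rw [h4, mul_one]) (Or.inr (Or.inl rfl))
    · exact key (-s) (by rw [h4]; ring) (Or.inr (Or.inr (Or.inl rfl)))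
  · rw [h] at h3
    have h5 : f ^ 2 = (2 + s) ^ 2 := by
      have h6 : (30 + 6 * (s : F)) * (30 - 6 * s) = 720 := by linear_combination -36 * hs
      have h7 : (30 + 6 * (s : F)) ≠ 0 := by
        intro h0
        rw [h0, zero_mul] at h6
        norm_num at h6
      apply mul_left_cancel₀ h7
      linear_combination h3 + (36 - 6 * s - 54) * hs
    rcases ff _ h5 with h4 | h4
    · exact key (5 + 2 * s) (by rw [h4]; linear_combination -hs)
        (Or.inr (Or.inr (Or.inr (Or.inl rfl))))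
    · exact key (-(5 + 2 * s)) (by rw [h4]; linear_combination hs)
        (Or.inr (Or.inr (Or.inr (Or.inr (Or.inr (Or.inl rfl))))))
  · rw [h] at h3
    have h5 : f ^ 2 = (2 - s) ^ 2 := by
      have h6 : (30 - 6 * (s : F)) * (30 + 6 * s) = 720 := by linear_combination -36 * hs
      have h7 : (30 - 6 * (s : F)) ≠ 0 := by
        intro h0
        rw [h0, zero_mul] at h6
        norm_num at h6
      apply mul_left_cancel₀ h7
      linear_combination h3 + (36 + 6 * s - 54) * hs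
    rcases ff _ h5 with h4 | h4
    · exact key (-(5 - 2 * s)) (by rw [h4]; linear_combination hs)
        (Or.inr (Or.inr (Or.inr (Or.inr (Or.inr (Or.inr rfl))))))
    · exact key (5 - 2 * s) (by rw [h4]; linear_combination -hs)
        (Or.inr (Or.inr (Or.inr (Or.inr (Or.inl rfl)))))
  · rw [h] at h3
    have h5 : f ^ 2 = (2 - s) ^ 2 := by
      have h6 : (10 + 2 * (s : F)) * (10 - 2 * s) = 80 := by linear_combination -4 * hs
      have h7 : (10 + 2 * (s : F)) ≠ 0 := by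
        intro h0
        rw [h0, zero_mul] at h6
        norm_num at h6
      apply mul_left_cancel₀ h7
      linear_combination h3 + (4 - 2 * s - 2) * hs
    rcases ff _ h5 with h4 | h4
    · exact key (-(5 - 2 * s)) (by rw [h4]; linear_combination hs)
        (Or.inr (Or.inr (Or.inr (Or.inr (Or.inr (Or.inr rfl))))))
    · exact key (5 - 2 * s) (by rw [h4]; linear_combination -hs)
        (Or.inr (Or.inr (Or.inr (Or.inr (Or.inl rfl)))))
  · rw [h] at h3
    have h5 : f ^ 2 = (2 + s) ^ 2 := by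
      have h6 : (10 - 2 * (s : F)) * (10 + 2 * s) = 80 := by linear_combination -4 * hs
      have h7 : (10 - 2 * (s : F)) ≠ 0 := by
        intro h0
        rw [h0, zero_mul] at h6
        norm_num at h6
      apply mul_left_cancel₀ h7
      linear_combination h3 + (4 + 2 * s - 2) * hs
    rcases ff _ h5 with h4 | h4
    · exact key (5 + 2 * s) (by rw [h4]; linear_combination -hs)
        (Or.inr (Or.inr (Or.inr (Or.inl rfl))))
    · exact key (-(5 + 2 * s)) (by rw [h4]; linear_combination hs)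
        (Or.inr (Or.inr (Or.inr (Or.inr (Or.inr (Or.inl rfl))))))

end Pool.Agent.S5M
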