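import Pool.Agent.S5M.Basic

/-! # Fields containing the square root of 5: the modular covers (helper34) -/

namespace Pool.Agent.S5M

variable {F : Type*} [Field F]

/-- `j` is in the image of `X(b3)(F)` (no cusps) -/
def IsB3 (j : F) : Prop := ∃ x : F, x ≠ 0 ∧ j * x = (x + 27) * (x + 3) ^ 3

/-- `j` is in the image of `X(s3)(F)` (no cusps) -/
def IsS3 (j : F) : Prop := ∃ r : F, r ≠ 0 ∧ j * r ^ 3 = (3 * (r + 1) * (r - 3)) ^ 3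

/-- `j` is in the image of `X(b5)(F)` (no cusps) -/
def IsB5 (j : F) : Prop := ∃ h : F, h ≠ 0 ∧ j * h = (h ^ 2 + 10 * h + 5) ^ 3

/-- `j` is in the image of `X(s5)(F)` (no cusps) -/
def IsS5 (j : F) : Prop := ∃ t : F, t ^ 2 + 5 * t + 5 ≠ 0 ∧
  j * (t ^ 2 + 5 * t + 5) ^ 5 = ((t + 5) * (t ^ 2 - 5) * (t ^ 2 + 5 * t + 10)) ^ 3

/-- `j` is in the image of `X(ns5)(F)` (no cusps) -/
def IsNS5 (j : F) : Prop := j = 8000 ∨ ∃ u : F, u ^ 2 + u - 1 ≠ 0 ∧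
  j * (u ^ 2 + u - 1) ^ 5 = (u + 1) * (5 * (2 * u + 1) * (2 * u ^ 2 - 3 * u + 3)) ^ 3

end Pool.Agent.S5M
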