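import Mathlib

/-! # Cubics over ℚ with one real root have no root in a totally real field (helper34)

PROOF. Let `p = a X^3 + b X^2 + c X + d ∈ ℚ[X]`. Suppose `p` has no rational root; a cubic without
rational root is irreducible (`Polynomial.irreducible_iff_roots_eq_zero_of_degree_le_three` or
similar), so `minpoly ℚ m = p / a`. By `NumberField.Embeddings.range_eval_eq_rootSet_minpoly F ℂ m`
every complex root of `p` is `ψ m` for some `ψ : F →+* ℂ`, and it is real since `F` is totally real.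
So `p` splits over ℝ: `p = a (X - α) (X - β) (X - γ)` with real `α β γ` and its discriminant
`b²c² - 4ac³ - 4b³d - 27a²d² + 18abcd = a⁴ (α-β)² (α-γ)² (β-γ)²` is `≥ 0`. Contradiction. -/

namespace Pool.Agent.S5M

open NumberField

theorem cubic_rat {F : Type*} [Field F] [NumberField F] [IsTotallyReal F] (a b c d : ℚ)
    (ha : a ≠ 0) {m : F} (hm : (a : F) * m ^ 3 + b * m ^ 2 + c * m + d = 0)
    (hd : b ^ 2 * c ^ 2 - 4 * a * c ^ 3 - 4 * b ^ 3 * d - 27 * a ^ 2 * d ^ 2 +
      18 * a * b * c * d < 0) : ∃ p : ℚ, a * p ^ 3 + b * p ^ 2 + c * p + d = 0 := by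
  by_contra hno
  push Not at hno
  set P : Cubic ℚ := ⟨a, b, c, d⟩ with hP
  have hPa : P.a ≠ 0 := ha
  have hnat : P.toPoly.natDegree = 3 := Cubic.natDegree_of_a_ne_zero hPa
  have hirr : Irreducible P.toPoly := by
    apply Polynomial.irreducible_of_degree_le_three_of_not_isRoot
    · rw [hnat]; decide
    · intro x hx
      apply hno x
      have : Polynomial.eval x P.toPoly = 0 := hx
      simpa [Cubic.toPoly, hP] using this
  have hroot : Polynomial.aeval m P.toPoly = 0 := by
    have : Polynomial.aeval m P.toPoly = (a : F) * m ^ 3 + b * m ^ 2 + c * m + d := by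
      simp [Cubic.toPoly, hP]
    rw [this, hm]
  have hmin := minpoly.eq_of_irreducible hirr hroot
  have hrange := NumberField.Embeddings.range_eval_eq_rootSet_minpoly F ℂ m
  have hsplit : (P.toPoly.map (algebraMap ℚ ℂ)).Splits := IsAlgClosed.splits _
  obtain ⟨x, y, z, hxyz⟩ := (Cubic.splits_iff_roots_eq_three hPa).mp hsplit
  have hreal : ∀ w ∈ (Cubic.map (algebraMap ℚ ℂ) P).roots, ∃ r : ℝ, w = (r : ℂ) := by
    intro w hw
    have hw2 : w ∈ (minpoly ℚ m).rootSet ℂ := by
      rw [Polynomial.mem_rootSet]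
      refine ⟨minpoly.ne_zero_of_finite ℚ m, ?_⟩
      rw [← hmin, map_mul]
      have : Polynomial.aeval w P.toPoly = 0 := by
        rw [Cubic.map_roots] at hw
        have h1 := (Polynomial.mem_roots'.mp hw).2
        rw [Polynomial.IsRoot.def, Polynomial.eval_map_algebraMap] at h1
        exact h1
      rw [this, zero_mul]
    rw [← hrange] at hw2
    obtain ⟨ψ, hψ⟩ := hw2
    have hr : NumberField.ComplexEmbedding.IsReal ψ := by
      have h2 := IsTotallyReal.isReal (InfinitePlace.mk ψ)
      rw [InfinitePlace.isReal_mk_iff] at h2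
      exact h2
    refine ⟨hr.embedding m, ?_⟩
    rw [← hψ]
    exact (NumberField.ComplexEmbedding.IsReal.coe_embedding_apply hr m).symm
  obtain ⟨x', rfl⟩ := hreal x (by rw [hxyz]; simp)
  obtain ⟨y', rfl⟩ := hreal y (by rw [hxyz]; simp)
  obtain ⟨z', rfl⟩ := hreal z (by rw [hxyz]; simp)
  have hdisc := Cubic.discr_eq_prod_three_roots hPa hxyz
  have hd2 : P.discr < 0 := by
    rw [Cubic.discr]
    exact hd
  have h3 : ((P.discr : ℝ) : ℂ) =
      (((a : ℝ) * (a : ℝ) * (x' - y') * (x' - z') * (y' - z')) ^ 2 : ℝ) := by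
    have : (algebraMap ℚ ℂ) P.discr = ((P.discr : ℝ) : ℂ) := by simp
    rw [← this, hdisc]
    simp [hP]
  have h4 : (P.discr : ℝ) = ((a : ℝ) * (a : ℝ) * (x' - y') * (x' - z') * (y' - z')) ^ 2 := by
    exact_mod_cast h3
  have h5 : (P.discr : ℝ) < 0 := by exact_mod_cast hd2
  rw [h4] at h5
  exact absurd h5 (not_lt.mpr (sq_nonneg _))

end Pool.Agent.S5M
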