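import Pool.Agent.S5M.Step
import Pool.Agent.S5M.Abs8

/-! # Fields containing the square root of 5: all points are killed by 8 (helper34)

PROOF. Adaptation of `H42M.finite_of_step`, `H42M.four_E2` (`H42M/Main.lean`, `Points.lean`):
`odd_multiple` with `G₀` = kernel of multiplication by 8, `N = 8`, and the canonical height; then
`8 • (n • P) = 0` with `n` odd, so `n • (8 • P) = 0` and `8 • P = 0` by `H42M.odd_E2`. -/

namespace Pool.Agent.S5M

open NumberField WeierstrassCurve WeierstrassCurve.Affine Pool.Agent.H42M Height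
open Pool.Agent.H7.Vojta

variable {F : Type*} [Field F] [NumberField F] [IsTotallyReal F] [DecidableEq F] {s : 𝓞 F}

theorem eight_E2 (H : HypS F s) (P : (E2⁄F).Point) : (8 : ℤ) • P = 0 := by
  have hmem : ∀ T : (E2⁄F).Point,
      T ∈ (zsmulAddGroupHom (α := (E2⁄F).Point) 8).ker ↔ (8 : ℤ) • T = 0 := by
    intro T
    rw [AddMonoidHom.mem_ker]
    rfl
  obtain ⟨C, -, hC⟩ := exists_parallelogram E2
  obtain ⟨q, hq, hq0, hqn⟩ := exists_canonical (G := (E2⁄F).Point) (h := naive)
    (c := C * totalWeight F) (fun x y => hC F x y) (fun x => naive_nonneg x)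
  obtain ⟨n, hn, hP⟩ := odd_multiple (zsmulAddGroupHom (α := (E2⁄F).Point) 8).ker 8 (by norm_num)
    (fun T hT => (hmem T).mp hT)
    (fun P => by
      obtain ⟨T, hT, Q, hQ⟩ := step8 H P
      exact ⟨T, (hmem T).mpr hT, Q, hQ⟩) hq hq0 (fun c => by
        refine (finite_naive_le (E2⁄F) (c + C * totalWeight F)).subset fun P hP => ?_
        have h1 := hqn P
        rw [abs_le] at h1
        have h2 : q P ≤ c := hP
        have h3 : naive P ≤ c + C * totalWeight F := by linarith
        exact h3) P
  have h8 : (8 : ℤ) • (n • P) = 0 := (hmem _).mp hP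
  rw [smul_comm] at h8
  exact odd_E2 hn h8

end Pool.Agent.S5M
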