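import Pool.Agent.S5M.Covers
import Pool.Agent.S5M.CaseA
import Pool.Agent.S5M.CaseB
import Pool.Agent.S5M.CaseC
import Pool.Agent.S5M.CaseD
import Pool.Agent.S5M.CaseE
import Pool.Agent.S5M.CaseF

/-! # Fields containing the square root of 5: the theorem (helper34) -/

namespace Pool.Agent.S5M

open NumberField

variable {F : Type*} [Field F] [NumberField F] [IsTotallyReal F] {s : 𝓞 F}

theorem main (H : HypS F s) (j : F) (h3 : IsB3 j ∨ IsS3 j) (h5 : IsB5 j ∨ IsS5 j ∨ IsNS5 j) :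
    Known (s : F) j := by
  rcases h3 with ⟨x, hx, ex⟩ | ⟨r, hr, er⟩ <;>
    rcases h5 with ⟨h, hh, eh⟩ | ⟨t, ht, et⟩ | h8 | ⟨u, hu, eu⟩
  · exact caseA H hx ex hh eh
  · exact caseC H hx ex ht et
  · exact Or.inr (Or.inr (Or.inl h8))
  · exact caseE H hx ex hu eu
  · exact caseB H hr er hh eh
  · exact caseD H hr er ht et
  · exact Or.inr (Or.inr (Or.inl h8))
  · exact caseF H hr er hu eu

end Pool.Agent.S5M
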