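import Pool.Agent.S5M.PtsE2
import Pool.Agent.S5M.Nonsq

/-! # Fields containing the square root of 5: two isogenous curves (helper34)

PROOF of `pts_E1`. If `X = 0, 9, 25` done. Otherwise put `Z = (X - 9) (X - 25) / (4 X)`; then
`Z + 1 = (X - 15)^2 / (4 X)`, `Z + 16 = (X + 15)^2 / (4 X)`, so
`Z (Z + 1) (Z + 16) = (Y (X^2 - 225) / (8 X^2))^2` and `pts_E2` applies; `X^2 - (34 + 4 Z) X + 225 = 0`.
`Z = 0`: `X = 9, 25`. `Z = -1`: `X = 15`, but then `Y^2 = -900`. `Z = -16`: `X = -15`, `Y^2 = -14400`.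
`Z = 4`: `(X - 5) (X - 45) = 0`. `Z = -4`: `(X - 9)^2 + 144 = 0`, impossible. `Z = 14 + 6 s`:
`(X - 75 - 30 s) (X - 15 + 6 s) = 0`. `Z = -6 + 2 s`: `(X - 5 - 4 s)^2 = 40 s - 120 < 0` in every
real embedding. The same with `-s`.
PROOF of `pts_C2`. `Z = (u - 4)^2 / u`: `Z + 1 = (u^2 - 7 u + 16) / u`, `Z + 16 = (u + 4)^2 / u`, so
`Z (Z + 1) (Z + 16) = ((u^2 - 16) y / u^2)^2`. In every real embedding `u > 0` (`u^2 - 7 u + 16 > 0`)
and so `Z ≥ 0`, which excludes `-1, -4, -16` and (with the embedding `s ↦ √5`, resp. any)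
`-6 ± 2 s`. `Z = 0`: `u = 4`. `Z = 4`: `u^2 - 12 u + 16 = (u - 6 - 2 s) (u - 6 + 2 s)`.
`Z = 14 + 6 s`: `(u - 11 - 3 s)^2 = 150 + 66 s = 3 * ((5 + s) / 2) * (3 + s) ^ 2`, contradiction to
`nsq_tau`; `Z = 14 - 6 s`: the same for `H.neg`. -/

namespace Pool.Agent.S5M

open NumberField

variable {F : Type*} [Field F] [NumberField F] [IsTotallyReal F] {s : 𝓞 F}

/-- a real embedding, with the value of `s` small -/
lemma ptsE1_emb (H : HypS F s) :
    ∃ φ : F →+* ℝ, φ (s : F) ^ 2 = 5 ∧ φ (s : F) < 3 ∧ -3 < φ (s : F) := by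
  obtain ⟨φ, hφ⟩ := exists_emb H.sqF (ε := √5) (Real.sq_sqrt (by norm_num))
  have h5 : φ (s : F) ^ 2 = 5 := by rw [hφ]; exact Real.sq_sqrt (by norm_num)
  refine ⟨φ, h5, ?_, ?_⟩
  · nlinarith
  · nlinarith

theorem pts_E1 (H : HypS F s) {X Y : F} (e : Y ^ 2 = X * (X - 9) * (X - 25)) :
    X = 0 ∨ X = 9 ∨ X = 25 ∨ X = 5 ∨ X = 45 ∨ X = 75 + 30 * s ∨ X = 75 - 30 * s ∨
      X = 15 + 6 * s ∨ X = 15 - 6 * s := by
  have hs := H.sqF
  obtain ⟨φ, hφ5, hφu, hφl⟩ := ptsE1_emb H
  by_cases h0 : X = 0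
  · exact Or.inl h0
  by_cases h9 : X = 9
  · exact Or.inr (Or.inl h9)
  by_cases h25 : X = 25
  · exact Or.inr (Or.inr (Or.inl h25))
  refine Or.inr (Or.inr (Or.inr ?_))
  have h9' : X - 9 ≠ 0 := sub_ne_zero.mpr h9
  have h25' : X - 25 ≠ 0 := sub_ne_zero.mpr h25
  have hZ := pts_E2 H (X := (X - 9) * (X - 25) / (4 * X)) (Y := Y * (X ^ 2 - 225) / (8 * X ^ 2)) (by
    rw [div_pow, mul_pow, e]
    field_simp
    ring)
  have key : 4 * X * ((X - 9) * (X - 25) / (4 * X)) = (X - 9) * (X - 25) := by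
    field_simp
  generalize (X - 9) * (X - 25) / (4 * X) = Z at hZ key
  rcases hZ with h | h | h | h | h | h | h | h | h <;> rw [h] at key
  · exfalso
    rw [mul_zero] at key
    exact mul_ne_zero h9' h25' key.symm
  · exfalso
    have h1 : (X - 15) ^ 2 = 0 := by linear_combination -key
    have h2 : X = 15 := sub_eq_zero.mp (pow_eq_zero_iff (two_ne_zero) |>.mp h1)
    rw [h2] at e
    have h3 := congrArg φ e
    simp only [map_pow, map_mul, map_sub, map_ofNat] at h3
    nlinarith [sq_nonneg (φ Y)]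
  · exfalso
    have h1 : (X + 15) ^ 2 = 0 := by linear_combination -key
    have h2 : X = -15 := by
      have := pow_eq_zero_iff (two_ne_zero) |>.mp h1
      linear_combination this
    rw [h2] at e
    have h3 := congrArg φ e
    simp only [map_pow, map_mul, map_sub, map_neg, map_ofNat] at h3
    nlinarith [sq_nonneg (φ Y)]
  · have h1 : (X - 5) * (X - 45) = 0 := by linear_combination -key
    rcases mul_eq_zero.mp h1 with h2 | h2
    · exact Or.inl (sub_eq_zero.mp h2)
    · exact Or.inr (Or.inl (sub_eq_zero.mp h2))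
  · exfalso
    have h1 : (X - 9) ^ 2 = -144 := by linear_combination -key
    have h3 := congrArg φ h1
    simp only [map_pow, map_sub, map_neg, map_ofNat] at h3
    nlinarith [sq_nonneg (φ X - 9)]
  · have h1 : (X - (75 + 30 * s)) * (X - (15 - 6 * s)) = 0 := by
      linear_combination -key - 180 * hs
    rcases mul_eq_zero.mp h1 with h2 | h2
    · exact Or.inr (Or.inr (Or.inl (sub_eq_zero.mp h2)))
    · exact Or.inr (Or.inr (Or.inr (Or.inr (Or.inr (sub_eq_zero.mp h2)))))
  · have h1 : (X - (75 - 30 * s)) * (X - (15 + 6 * s)) = 0 := by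
      linear_combination -key - 180 * hs
    rcases mul_eq_zero.mp h1 with h2 | h2
    · exact Or.inr (Or.inr (Or.inr (Or.inl (sub_eq_zero.mp h2))))
    · exact Or.inr (Or.inr (Or.inr (Or.inr (Or.inl (sub_eq_zero.mp h2)))))
  · exfalso
    have h1 : (X - 5 - 4 * s) ^ 2 = 40 * s - 120 := by
      linear_combination -key + 16 * hs
    have h3 := congrArg φ h1
    simp only [map_pow, map_sub, map_mul, map_ofNat] at h3
    nlinarith [sq_nonneg (φ X - 5 - 4 * φ (s : F))]
  · exfalso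
    have h1 : (X - 5 + 4 * s) ^ 2 = -40 * s - 120 := by
      linear_combination -key + 16 * hs
    have h3 := congrArg φ h1
    simp only [map_pow, map_sub, map_add, map_neg, map_mul, map_ofNat] at h3
    nlinarith [sq_nonneg (φ X - 5 + 4 * φ (s : F))]

theorem pts_C2 (H : HypS F s) {u y : F} (hu : u ≠ 0) (e : y ^ 2 = u * (u ^ 2 - 7 * u + 16)) :
    u = 4 ∨ u = 6 + 2 * s ∨ u = 6 - 2 * s := by
  have hs := H.sqF
  obtain ⟨φ, hφ5, hφs, hφl⟩ := ptsE1_emb H
  have hZ := pts_E2 H (X := (u - 4) ^ 2 / u) (Y := (u ^ 2 - 16) * y / u ^ 2) (by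
    rw [div_pow, mul_pow, e]
    field_simp
    ring)
  have key : u * ((u - 4) ^ 2 / u) = (u - 4) ^ 2 := by
    field_simp
  generalize (u - 4) ^ 2 / u = Z at hZ key
  -- positivity
  have hφu : 0 < φ u := by
    have h1 := congrArg φ e
    simp only [map_pow, map_sub, map_add, map_mul, map_ofNat] at h1
    have h2 : 0 < φ u ^ 2 - 7 * φ u + 16 := by nlinarith [sq_nonneg (φ u - 7 / 2)]
    have h3 : φ u ≠ 0 := fun h => hu (φ.injective (by rw [h, map_zero]))
    rcases lt_trichotomy (φ u) 0 with h | h | h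
    · exfalso
      nlinarith [sq_nonneg (φ y), mul_pos_of_neg_of_neg h (neg_lt_zero.mpr h2)]
    · exact absurd h h3
    · exact h
  have hφZ : 0 ≤ φ Z := by
    have h1 := congrArg φ key
    simp only [map_pow, map_sub, map_mul, map_ofNat] at h1
    by_contra h
    rw [not_le] at h
    nlinarith [sq_nonneg (φ u - 4), mul_pos_of_neg_of_neg h (neg_lt_zero.mpr hφu)]
  rcases hZ with h | h | h | h | h | h | h | h | h
  · rw [h, mul_zero] at key
    left
    have := pow_eq_zero_iff (two_ne_zero) |>.mp key.symm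
    linear_combination this
  · exfalso
    rw [h] at hφZ
    simp only [map_neg, map_one] at hφZ
    linarith
  · exfalso
    rw [h] at hφZ
    simp only [map_neg, map_ofNat] at hφZ
    linarith
  · rw [h] at key
    have h1 : (u - (6 + 2 * s)) * (u - (6 - 2 * s)) = 0 := by
      linear_combination -key - 4 * hs
    rcases mul_eq_zero.mp h1 with h2 | h2
    · exact Or.inr (Or.inl (sub_eq_zero.mp h2))
    · exact Or.inr (Or.inr (sub_eq_zero.mp h2))
  · exfalso
    rw [h] at hφZ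
    simp only [map_neg, map_ofNat] at hφZ
    linarith
  · exfalso
    rw [h] at key
    have h3s : (3 + (s : F)) ≠ 0 := by
      intro h3
      have : (4 : F) = 0 := by linear_combination (3 - (s : F)) * h3 + hs
      norm_num at this
    refine nsq_tau H ⟨(u - 11 - 3 * s) / (3 + s), ?_⟩
    rw [div_mul_div_comm, eq_div_iff (mul_ne_zero h3s h3s)]
    linear_combination key + (15 / 2 + 3 / 2 * (s : F)) * hs
  · exfalso
    rw [h] at key
    have h3s : (3 - (s : F)) ≠ 0 := by
      intro h3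
      have : (4 : F) = 0 := by linear_combination (3 + (s : F)) * h3 + hs
      norm_num at this
    refine nsq_tau H.neg ⟨(u - 11 + 3 * s) / (3 - s), ?_⟩
    have hneg : (((-s : 𝓞 F)) : F) = -(s : F) := by simp
    rw [hneg, div_mul_div_comm, eq_div_iff (mul_ne_zero h3s h3s)]
    linear_combination key + (15 / 2 - 3 / 2 * (s : F)) * hs
  · exfalso
    rw [h] at hφZ
    simp only [map_neg, map_add, map_mul, map_ofNat] at hφZ
    linarith
  · exfalso
    rw [h] at hφZ
    simp only [map_neg, map_sub, map_mul, map_ofNat] at hφZ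
    linarith

end Pool.Agent.S5M
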