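import Pool.Agent.S5M.Eight
import Pool.Agent.H42M.Points

/-! # Fields containing the square root of 5: the points of `Y^2 = X (X + 1) (X + 16)` (helper34)

PROOF. Let `P = (9 X + 51, 27 Y)` on `H42M.E2`; `8 • P = 0`. `4 • (2 • P) = 0`. If `Y = 0` then
`X = 0, -1, -16`. Otherwise `2 P = (9 X' + 51, ·)` with `X' (4 Y^2) = (X^2 - 16)^2`
(`H42M.Full.double`), and `H42M.halves` for `2 P` (killed by 4) gives: `X' = 0, -1, -16`, or
`X' ^ 2 = 16`, or `(X' + 1)^2 = -15` (impossible, real), or `(X' + 16)^2 = 240`; the last one is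
impossible as in `H42M.points_E2` (`2 P` is a point, so `X' (X' + 1) (X' + 16) ≥ 0` in a real
embedding, but `X' = -16 ± 4 √15` gives a negative value).
`X' = 0`: `X^2 = 16`. `X' = -1`: `(X^2-16)^2 + 4 X (X+1) (X+16) = (X^2 + 2 X + 16)^2`, so
`(X + 1)^2 = -15`, impossible. `X' = -16`: `(X^2-16)^2 + 64 X (X+1)(X+16) = (X^2 + 32 X + 16)^2 = 0`,
so `(X + 16)^2 = 240`, impossible as before (now `X` itself). `X' = 4`:
`(X^2-16)^2 - 16 X (X+1)(X+16) = (X^2 - 28 X + 16) (X^2 + 12 X + 16) = 0`, roots `14 ± 6 s`,
`-6 ± 2 s`. `X' = -4`: `(X^2-16)^2 + 16 X (X+1) (X+16) = (X+4)^4 + 144 X^2 = 0`, impossible. -/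

namespace Pool.Agent.S5M

open NumberField WeierstrassCurve WeierstrassCurve.Affine Pool.Agent.H42M

variable {F : Type*} [Field F] [NumberField F] [IsTotallyReal F] {s : 𝓞 F}

omit [NumberField F] [IsTotallyReal F] in
private lemma no240 (φ : F →+* ℝ) {a b : F} (h : (a + 16) ^ 2 = 240)
    (e : b ^ 2 = a * (a + 1) * (a + 16)) : False := by
  have h1 := congrArg φ h
  rw [map_pow, map_ofNat] at h1
  set t := φ (a + 16) with ht
  have h2 : b ^ 2 = 480 * (a + 16) - 7440 := by
    rw [e]; linear_combination (a + 16 - 31) * h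
  have h3 := congrArg φ h2
  rw [map_sub, map_mul, map_pow, map_ofNat, map_ofNat, ← ht] at h3
  have h4 : t < 15.5 := by
    by_contra hge
    push Not at hge
    nlinarith
  nlinarith [sq_nonneg (φ b)]

omit [NumberField F] [IsTotallyReal F] in
private lemma noneg (φ : F →+* ℝ) {a : F} {n : ℕ} (h : a ^ 2 = -(n : F)) (hn : 0 < n) : False := by
  have h1 := congrArg φ h
  rw [map_pow, map_neg, map_natCast] at h1
  have : (0 : ℝ) < n := by exact_mod_cast hn
  nlinarith [sq_nonneg (φ a)]

theorem pts_E2 (H : HypS F s) {X Y : F} (e : Y ^ 2 = X * (X + 1) * (X + 16)) :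
    X = 0 ∨ X = -1 ∨ X = -16 ∨ X = 4 ∨ X = -4 ∨ X = 14 + 6 * s ∨ X = 14 - 6 * s ∨
      X = -6 + 2 * s ∨ X = -6 - 2 * s := by
  classical
  obtain ⟨φ⟩ := exists_real F
  have hs := H.sqF
  by_cases hY : Y = 0
  · rw [hY, zero_pow two_ne_zero] at e
    rcases mul_eq_zero.mp e.symm with h4 | h4
    · rcases mul_eq_zero.mp h4 with h4 | h4
      · exact Or.inl h4
      · exact Or.inr (Or.inl (by linear_combination h4))
    · exact Or.inr (Or.inr (Or.inl (by linear_combination h4)))
  have hxy : (27 * Y) ^ 2 = (9 * X + 51 - 51) * (9 * X + 51 - 42) * (9 * X + 51 - (-93)) := by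
    linear_combination 729 * e
  have h : (E2⁄F).Nonsingular (9 * X + 51) (27 * Y) := full_E2.nonsingular hxy
  have hy : (27 * Y : F) ≠ 0 := mul_ne_zero (by norm_num) hY
  have h8 := eight_E2 H (Point.some _ _ h)
  obtain ⟨x', y', h', hadd, h3, h1, h2⟩ := full_E2.double h hy
  have h4 : (4 : ℤ) • Point.some x' y' h' = 0 := by
    rw [← hadd, ← two_zsmul, smul_smul]
    norm_num
    exact h8
  have he' := full_E2.eq h'
  obtain ⟨X', hX'⟩ : ∃ X', x' = 9 * X' + 51 := ⟨(x' - 51) / 9, by field_simp; ring⟩
  subst hX'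
  have k1 : X' * (4 * Y ^ 2) = (X ^ 2 - 16) ^ 2 := by
    have : (6561 : F) ≠ 0 := by norm_num
    apply mul_left_cancel₀ this
    linear_combination h1
  have k2 : (X' + 1) * (4 * Y ^ 2) = ((X + 1) ^ 2 + 15) ^ 2 := by
    have : (6561 : F) ≠ 0 := by norm_num
    apply mul_left_cancel₀ this
    linear_combination h2
  have k3 : (X' + 16) * (4 * Y ^ 2) = ((X + 16) ^ 2 - 240) ^ 2 := by
    have : (6561 : F) ≠ 0 := by norm_num
    apply mul_left_cancel₀ this
    linear_combination h3
  rcases halves full_E2 h' h4 with hy' | g1 | g2 | g3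
  · rw [hy', zero_pow two_ne_zero] at he'
    have h9 : X' * (X' + 1) * (X' + 16) = 0 := by
      have : (729 : F) ≠ 0 := by norm_num
      apply mul_left_cancel₀ this
      linear_combination -he'
    rcases mul_eq_zero.mp h9 with h9 | h9
    · rcases mul_eq_zero.mp h9 with h9 | h9
      · rw [h9, zero_mul] at k1
        have h10 := pow_eq_zero_iff two_ne_zero |>.mp k1.symm
        have h11 : (X - 4) * (X + 4) = 0 := by linear_combination h10
        rcases mul_eq_zero.mp h11 with h12 | h12
        · exact Or.inr (Or.inr (Or.inr (Or.inl (by linear_combination h12))))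
        · exact Or.inr (Or.inr (Or.inr (Or.inr (Or.inl (by linear_combination h12)))))
      · exfalso
        rw [h9, zero_mul] at k2
        have h10 := pow_eq_zero_iff two_ne_zero |>.mp k2.symm
        exact noneg (n := 15) φ (a := X + 1) (by push_cast; linear_combination h10) (by norm_num)
    · exfalso
      rw [h9, zero_mul] at k3
      have h10 := pow_eq_zero_iff two_ne_zero |>.mp k3.symm
      exact no240 φ (a := X) (b := Y) (by linear_combination h10) e
  · have g4 : X' ^ 2 = 16 := by
      have : (81 : F) ≠ 0 := by norm_num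
      apply mul_left_cancel₀ this
      linear_combination g1
    have g5 : (X' - 4) * (X' + 4) = 0 := by linear_combination g4
    rcases mul_eq_zero.mp g5 with g6 | g6
    · have g7 : X' = 4 := by linear_combination g6
      rw [g7] at k1
      have g8 : (X ^ 2 - 28 * X + 16) * (X ^ 2 + 12 * X + 16) = 0 := by
        linear_combination 16 * e - k1
      rcases mul_eq_zero.mp g8 with g9 | g9
      · have g10 : (X - 14 - 6 * s) * (X - 14 + 6 * s) = 0 := by
          linear_combination g9 - 36 * hs
        rcases mul_eq_zero.mp g10 with g11 | g11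
        · exact Or.inr (Or.inr (Or.inr (Or.inr (Or.inr (Or.inl (by linear_combination g11))))))
        · exact Or.inr (Or.inr (Or.inr (Or.inr (Or.inr (Or.inr (Or.inl
            (by linear_combination g11)))))))
      · have g10 : (X + 6 - 2 * s) * (X + 6 + 2 * s) = 0 := by
          linear_combination g9 - 4 * hs
        rcases mul_eq_zero.mp g10 with g11 | g11
        · exact Or.inr (Or.inr (Or.inr (Or.inr (Or.inr (Or.inr (Or.inr (Or.inl
            (by linear_combination g11))))))))
        · exact Or.inr (Or.inr (Or.inr (Or.inr (Or.inr (Or.inr (Or.inr (Or.inr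
            (by linear_combination g11))))))))
    · exfalso
      have g7 : X' = -4 := by linear_combination g6
      rw [g7] at k1
      have g8 := congrArg φ k1
      rw [map_mul, map_neg, map_mul, map_ofNat, map_pow, map_pow] at g8
      have g9 : φ Y ≠ 0 := by
        intro h0
        exact hY ((map_eq_zero φ).mp h0)
      have g10 : 0 < φ Y ^ 2 := by positivity
      nlinarith [sq_nonneg (φ (X ^ 2 - 16))]
  · exfalso
    exact noneg (n := 1215) φ (a := 9 * X' + 51 - 42) (by push_cast; linear_combination g2)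
      (by norm_num)
  · exfalso
    refine no240 φ (a := X') (b := y' / 27) ?_ ?_
    · have : (81 : F) ≠ 0 := by norm_num
      apply mul_left_cancel₀ this
      linear_combination g3
    · rw [div_pow, div_eq_iff (by norm_num)]
      linear_combination he'

end Pool.Agent.S5M
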