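import Pool.Agent.H42M.Points
import Pool.Agent.S5M.ClassE2

/-! # Fields containing the square root of 5: the descent step (helper34)

`H42M.E2` is `y^2 = (x - 51) (x - 42) (x + 93)`; with `x = 9 X + 51`, `y = 27 Y` it is
`Y^2 = X (X + 1) (X + 16)`. Adaptation of `H42M.half_E2`, `H42M.step_E2` (`H42M/Group.lean`) with
the subgroup `G0 E2 F` replaced by the points killed by 8.
PROOF. If `8 • P = 0` take `T = -P`, `Q = 0`. Otherwise `P = (x, y)`, `y ≠ 0`, and `E2_class` gives
`δ`. (i) If `x + 93` is a square (`δ = 1`; `x + 93 = 9 (X + 16)`), then `X` is a square by `E2_X`,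
hence `X + 1` too (product is `Y^2`), and `P = Q + Q` by `H42M.Full.half`. (ii) In general find
`T = (a, b)` with `8 • T = 0` and `δ (a + 93)` a square, then `P + T` is not killed by 8 and its
`x + 93` is a square (`H42M.Full.add`, `isSquare_third`; compare `H42M.translate`), apply (i).
`T` for the classes (`A + 16` with `a = 9 A + 51`, `a + 93 = 9 (A + 16)`):
`δ = 3`: `A = -1`, `T = (42, 0)`, `A + 16 = 15 = 3 s^2`;
`δ = 3 τ`, `τ = (5 + s)/2`: `A = 14 + 6 s`, `A + 16 = 6 (5 + s) = 12 τ`,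
`B^2 = (14 + 6 s)(15 + 6 s)(30 + 6 s)` with `B = 90 + 42 s` [check: `(90 + 42 s)^2 = 16920 + 7560 s`];
`δ = τ`: `A = -6 + 2 s`, `A + 16 = 2 (5 + s) = 4 τ`, `B^2 = (-6 + 2 s)(-5 + 2 s)(10 + 2 s)`,
`B = 10 - 6 s` [check: `(10 - 6 s)^2 = 280 - 120 s`].
Both points satisfy `2 T = (4, ·)` in the `A`-coordinate (`x = 87`), which is a point of order 4
(`H42M.four_tors` as in `H42M.step_E2`), so `8 • T = 0`: use `H42M.Full.double`
(`(x' - e) (4 y^2) = (...)^2` for `e = 51` gives `x' = 87`). -/

namespace Pool.Agent.S5M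

open NumberField WeierstrassCurve WeierstrassCurve.Affine Pool.Agent.H42M

variable {F : Type*} [Field F] [NumberField F] [IsTotallyReal F] [DecidableEq F] {s : 𝓞 F}

omit [NumberField F] [IsTotallyReal F] in
private lemma st8_of_two {W : Affine F} {P : W.Point} (h : P + P = 0) : (8 : ℤ) • P = 0 := by
  rw [show (8 : ℤ) = 2 * 4 by norm_num, mul_comm, mul_zsmul, two_zsmul, h, smul_zero]

omit [NumberField F] [IsTotallyReal F] in
private lemma st8_of_four {W : Affine F} {P : W.Point} (h : (4 : ℤ) • (P + P) = 0) :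
    (8 : ℤ) • P = 0 := by
  rw [show (8 : ℤ) = 4 * 2 by norm_num, mul_zsmul, two_zsmul, h]

omit [IsTotallyReal F] in
/-- the points with first coordinate 87 -/
private lemma st8_87 {x y : F} (h : (E2⁄F).Nonsingular x y) (hx : x = 87) :
    (4 : ℤ) • Point.some x y h = 0 := by
  subst hx
  have he := (full_E2 (F := F)).eq h
  have h1 : (y - 540) * (y + 540) = 0 := by
    linear_combination he
  rcases mul_eq_zero.mp h1 with h2 | h2
  · have hy : y = 540 := by linear_combination h2
    subst hy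
    refine four_tors full_E2 h (m := 15) (by norm_num) ?_ (by norm_num)
    simp [E2]; norm_num
  · have hy : y = -540 := by linear_combination h2
    subst hy
    refine four_tors full_E2 h (m := -15) (by norm_num) ?_ (by norm_num)
    simp [E2]; norm_num

omit [IsTotallyReal F] in
/-- the points of order 8 -/
private lemma st8_pt {A B : F} (h : (E2⁄F).Nonsingular (9 * A + 51) (27 * B)) (hB : B ≠ 0)
    (hA : A ^ 2 - 16 = 4 * B) : (8 : ℤ) • Point.some _ _ h = 0 := by
  have hy : 27 * B ≠ 0 := mul_ne_zero (by norm_num) hB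
  obtain ⟨x', y', h', hadd, -, h1, -⟩ := (full_E2 (F := F)).double h hy
  refine st8_of_four ?_
  rw [hadd]
  refine st8_87 h' ?_
  have h2 : (2916 * B ^ 2) * (x' - 87) = 0 := by
    linear_combination h1 + 6561 * (A ^ 2 - 16 + 4 * B) * hA
  rcases mul_eq_zero.mp h2 with h3 | h3
  · exact absurd h3 (mul_ne_zero (by norm_num) (pow_ne_zero 2 hB))
  · linear_combination h3

omit [IsTotallyReal F] in
private lemma st8_y {x y : F} {h : (E2⁄F).Nonsingular x y}
    (hP : ¬ (8 : ℤ) • Point.some x y h = 0) : y ≠ 0 :=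
  fun hy => hP (st8_of_two (two_tors full_E2 h hy))

omit [IsTotallyReal F] in
/-- translation by a point of order dividing 8 -/
private lemma st8_translate {x y : F} {h : (E2⁄F).Nonsingular x y}
    (hP : ¬ (8 : ℤ) • Point.some x y h = 0)
    {a b : F} {h' : (E2⁄F).Nonsingular a b} (hT : (8 : ℤ) • Point.some a b h' = 0) :
    ∃ (x₃ y₃ : F) (h₃ : (E2⁄F).Nonsingular x₃ y₃),
      Point.some x y h + Point.some a b h' = Point.some x₃ y₃ h₃ ∧
      ¬ (8 : ℤ) • Point.some x₃ y₃ h₃ = 0 ∧
      ∀ e, (e = 51 ∨ e = 42 ∨ e = -93) → IsSquare ((x - e) * (a - e) * (x₃ - e)) := by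
  have hx : x ≠ a := by
    intro hx
    rcases (Point.X_eq_iff (h₁ := h) (h₂ := h')).mp hx with h1 | h1
    · rw [h1] at hP; exact hP hT
    · rw [h1] at hP; exact hP (by rw [smul_neg, hT, neg_zero])
  obtain ⟨x₃, y₃, h₃, hadd, hcl⟩ := (full_E2 (F := F)).add h h' hx
  refine ⟨x₃, y₃, h₃, hadd, ?_, hcl⟩
  rw [← hadd, smul_add, hT, add_zero]
  exact hP

/-- points with `x + 93` a square are divisible by 2 -/
private lemma st8_half (H : HypS F s) {x y : F} {h : (E2⁄F).Nonsingular x y}
    (hP : ¬ (8 : ℤ) • Point.some x y h = 0) (hsq : IsSquare (x + 93)) :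
    ∃ Q : (E2⁄F).Point, Point.some x y h = Q + Q := by
  have hy : y ≠ 0 := st8_y hP
  have he := (full_E2 (F := F)).eq h
  set X : F := (x - 51) / 9 with hX
  set Y : F := y / 27 with hY
  have hY0 : Y ≠ 0 := div_ne_zero hy (by norm_num)
  have e : Y ^ 2 = X * (X + 1) * (X + 16) := by
    rw [hY, div_pow, he, hX]; ring
  obtain ⟨t, ht⟩ := hsq
  have ht0 : t ≠ 0 := by
    rintro rfl
    apply hY0
    have h1 : X + 16 = 0 := by rw [hX]; linear_combination ht / 9
    rw [h1, mul_zero] at e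
    exact pow_eq_zero_iff (two_ne_zero) |>.mp e
  obtain ⟨w, hw⟩ : IsSquare X :=
    E2_X H hY0 e (r := t / 3) (by rw [hX]; linear_combination ht / 9)
  have hw0 : w ≠ 0 := by
    rintro rfl
    apply hY0
    rw [hw, mul_zero, zero_mul, zero_mul] at e
    exact pow_eq_zero_iff (two_ne_zero) |>.mp e
  refine (full_E2 (F := F)).half h ⟨3 * w, ?_⟩ ⟨y / (3 * w * t), ?_⟩ ⟨t, ?_⟩
  · rw [hX] at hw; linear_combination 9 * hw
  · rw [div_mul_div_comm, eq_div_iff (mul_ne_zero (mul_ne_zero (mul_ne_zero (by norm_num) hw0) ht0)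
      (mul_ne_zero (mul_ne_zero (by norm_num) hw0) ht0))]
    have h1 : 3 * w * t * (3 * w * t) = (x - 51) * (x - -93) := by
      have h2 : x - 51 = 9 * (w * w) := by rw [← hw, hX]; field_simp
      rw [h2]; linear_combination (-9 * w * w) * ht
    rw [h1]; linear_combination -he
  · linear_combination ht

theorem step8 (H : HypS F s) (P : (E2⁄F).Point) :
    ∃ T : (E2⁄F).Point, (8 : ℤ) • T = 0 ∧ ∃ Q, P + T = Q + Q := by
  by_cases hP : (8 : ℤ) • P = 0
  · exact ⟨-P, by rw [smul_neg, hP, neg_zero], 0, by rw [add_neg_cancel, add_zero]⟩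
  rcases P with _ | ⟨x, y, h⟩
  · exact absurd (smul_zero _) hP
  have hy : y ≠ 0 := st8_y hP
  have he := (full_E2 (F := F)).eq h
  set X : F := (x - 51) / 9 with hX
  set Y : F := y / 27 with hY
  have hY0 : Y ≠ 0 := div_ne_zero hy (by norm_num)
  have e : Y ^ 2 = X * (X + 1) * (X + 16) := by
    rw [hY, div_pow, he, hX]; ring
  obtain ⟨δ, hδ, t, ht⟩ := E2_class H hY0 e
  have hs := H.sqF
  set σ : F := (s : F) with hσ
  have hxX : x + 93 = 9 * (X + 16) := by rw [hX]; ring
  have hx0 : x + 93 ≠ 0 := by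
    intro h0
    apply hy
    have h1 : x - -93 = 0 := by linear_combination h0
    rw [h1, mul_zero] at he
    exact pow_eq_zero_iff (two_ne_zero) |>.mp he
  have h5s : 5 + σ ≠ 0 := by
    intro h0
    have h1 : (20 : F) = 0 := by
      linear_combination (5 - σ) * h0 + hs
    norm_num at h1
  have main : ∀ (a b : F) (h' : (E2⁄F).Nonsingular a b), (8 : ℤ) • Point.some a b h' = 0 →
      a + 93 ≠ 0 → IsSquare ((x + 93) * (a + 93)) →
      ∃ T : (E2⁄F).Point, (8 : ℤ) • T = 0 ∧ ∃ Q, Point.some x y h + T = Q + Q := by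
    intro a b h' hT ha hsq
    obtain ⟨x₃, y₃, h₃, hadd, hP₃, hcl⟩ := st8_translate hP hT
    refine ⟨_, hT, ?_⟩
    rw [hadd]
    refine st8_half H hP₃ ?_
    refine isSquare_third hsq (mul_ne_zero hx0 ha) ?_
    have := hcl (-93) (Or.inr (Or.inr rfl))
    rwa [sub_neg_eq_add, sub_neg_eq_add, sub_neg_eq_add] at this
  rcases hδ with rfl | rfl | rfl | rfl
  · refine ⟨0, smul_zero _, ?_⟩
    rw [add_zero]
    exact st8_half H hP ⟨3 * t, by rw [hxX]; linear_combination 9 * ht⟩
  · have h' : (E2⁄F).Nonsingular (42 : F) 0 := full_E2.nonsingular (by norm_num)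
    refine main 42 0 h' (st8_of_two (two_tors full_E2 h' rfl)) (by norm_num) ⟨9 * σ * t, ?_⟩
    rw [hxX]
    linear_combination (81 * σ ^ 2) * ht - (243 * (X + 16)) * hs
  · have h' : (E2⁄F).Nonsingular (9 * (-6 + 2 * σ) + 51) (27 * (10 - 6 * σ)) :=
      full_E2.nonsingular (by
        linear_combination ((729 : F) * 8 * (1 - σ) + 23328) * hs)
    refine main _ _ h' (st8_pt h' ?_ ?_) ?_ ⟨18 * t, ?_⟩
    · intro h0
      have h1 : (80 : F) = 0 := by linear_combination (-(10 + 6 * σ)) * h0 - 36 * hs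
      norm_num at h1
    · linear_combination 4 * hs
    · intro h0
      apply h5s
      linear_combination h0 / 18
    · rw [hxX]
      linear_combination 324 * ht
  · have h' : (E2⁄F).Nonsingular (9 * (14 + 6 * σ) + 51) (27 * (90 + 42 * σ)) :=
      full_E2.nonsingular (by
        linear_combination ((729 : F) * (-216) * (σ - 1) - 419904) * hs)
    refine main _ _ h' (st8_pt h' ?_ ?_) ?_ ⟨18 * t, ?_⟩
    · intro h0
      have h1 : (720 : F) = 0 := by linear_combination (-(90 - 42 * σ)) * h0 - 1764 * hs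
      norm_num at h1
    · linear_combination 36 * hs
    · intro h0
      apply h5s
      linear_combination h0 / 54
    · rw [hxX]
      linear_combination 324 * ht

end Pool.Agent.S5M
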